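import Pool.Agent.H52.O4.Spec

/-!
# Order four: the computed operator `xop` is right on alternating functionals
-/

set_option autoImplicit false

namespace Pool.Agent.H52.O4

/-! ### coefficient vectors -/

lemma nrm_evAux_vadd (p u : ℝ) : ∀ (a b : List ℤ) (i j : ℕ),
    evAux p u i j (vadd a b) = evAux p u i j a + evAux p u i j b := by
  intro a
  induction a with
  | nil => intro b i j; simp [vadd, evAux]
  | cons x a ih =>
    intro b i j
    cases b with
    | nil => simp [vadd, evAux]
    | cons y b =>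
      simp only [vadd, evAux]
      split_ifs with h
      · rw [ih]; push_cast; ring
      · rw [ih]; push_cast; ring

theorem ev_vadd (p u : ℝ) (a b : List ℤ) : ev p u (vadd a b) = ev p u a + ev p u b :=
  nrm_evAux_vadd p u a b 0 0

lemma nrm_evAux_vmul (p u : ℝ) (c : ℤ) : ∀ (v : List ℤ) (i j : ℕ),
    evAux p u i j (vmul c v) = (c : ℝ) * evAux p u i j v := by
  intro v
  induction v with
  | nil => intro i j; simp [vmul, evAux]
  | cons x v ih =>
    intro i j
    have e : vmul c (x :: v) = (c * x) :: vmul c v := rfl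
    rw [e]
    simp only [evAux]
    split_ifs with h
    · rw [ih]; push_cast; ring
    · rw [ih]; push_cast; ring

theorem ev_vmul (p u : ℝ) (c : ℤ) (v : List ℤ) : ev p u (vmul c v) = (c : ℝ) * ev p u v :=
  nrm_evAux_vmul p u c v 0 0

lemma nrm_evAux_nonneg {p u : ℝ} (hp : 0 ≤ p) (hu : 0 ≤ u) : ∀ (v : List ℤ), vnn v = true →
    ∀ (i j : ℕ), 0 ≤ evAux p u i j v := by
  intro v
  induction v with
  | nil => intro _ i j; simp [evAux]
  | cons x v ih =>
    intro hv i j
    have h1 : 0 ≤ x ∧ vnn v = true := by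
      simpa [vnn] using hv
    have h2 : (0 : ℝ) ≤ (x : ℝ) := by exact_mod_cast h1.1
    simp only [evAux]
    have h3 : (0 : ℝ) ≤ (x : ℝ) * (p ^ i * u ^ j) := by positivity
    split_ifs with h
    · exact add_nonneg h3 (ih h1.2 _ _)
    · exact add_nonneg h3 (ih h1.2 _ _)

theorem ev_nonneg {p u : ℝ} {v : List ℤ} (hv : vnn v = true) (hp : 0 ≤ p) (hu : 0 ≤ u) :
    0 ≤ ev p u v :=
  nrm_evAux_nonneg hp hu v hv 0 0

lemma nrm_evAux_zero (p u : ℝ) : ∀ (v : List ℤ), vzero v = true →
    ∀ (i j : ℕ), evAux p u i j v = 0 := by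
  intro v
  induction v with
  | nil => intro _ i j; simp [evAux]
  | cons x v ih =>
    intro hv i j
    have h1 : x = 0 ∧ vzero v = true := by
      simpa [vzero] using hv
    simp only [evAux]
    split_ifs with h
    · rw [ih h1.2, h1.1]; simp
    · rw [ih h1.2, h1.1]; simp

theorem ev_vzero {p u : ℝ} {v : List ℤ} (hv : vzero v = true) : ev p u v = 0 :=
  nrm_evAux_zero p u v hv 0 0

/-! ### sorting -/

/-- The sign of a parity. -/
noncomputable def nrmSgn (b : Bool) : ℝ := if b then -1 else 1

lemma nrm_alt_self {ℓ : List ℕ → ℝ} (h : Alt ℓ) (s : List ℕ) (n : ℕ) (t : List ℕ) :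
    ℓ (s ++ n :: n :: t) = 0 := by
  have := h s n n t
  linarith

lemma nrm_ins_spec {ℓ : List ℕ → ℝ} (h : Alt ℓ) (n : ℕ) : ∀ (t s : List ℕ),
    (ins n t = none → ℓ (s ++ n :: t) = 0) ∧
    (∀ b t2, ins n t = some (b, t2) → ℓ (s ++ n :: t) = nrmSgn b * ℓ (s ++ t2)) := by
  intro t
  induction t with
  | nil =>
    intro s
    refine ⟨by simp [ins], ?_⟩
    intro b t2 hb
    simp only [ins, Option.some.injEq, Prod.mk.injEq] at hb
    obtain ⟨rfl, rfl⟩ := hb
    simp [nrmSgn]
  | cons m t ih =>
    intro s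
    have e1 : ℓ (s ++ n :: m :: t) = - ℓ ((s ++ [m]) ++ n :: t) := by
      rw [h s n m t]; simp
    by_cases h1 : n < m
    · have e : ins n (m :: t) = some (false, n :: m :: t) := by simp [ins, h1]
      rw [e]
      refine ⟨by simp, ?_⟩
      intro b t2 hb
      simp only [Option.some.injEq, Prod.mk.injEq] at hb
      obtain ⟨rfl, rfl⟩ := hb
      simp [nrmSgn]
    · by_cases h2 : n = m
      · have e : ins n (m :: t) = none := by simp [ins, h2]
        rw [e]
        refine ⟨fun _ => ?_, by simp⟩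
        rw [h2]
        exact nrm_alt_self h s m t
      · obtain ⟨ha, hb⟩ := ih (s ++ [m])
        cases hi : ins n t with
        | none =>
          have e : ins n (m :: t) = none := by simp [ins, h1, h2, hi]
          rw [e]
          refine ⟨fun _ => ?_, by simp⟩
          rw [e1, ha hi, neg_zero]
        | some q =>
          obtain ⟨b, t2⟩ := q
          have e : ins n (m :: t) = some (!b, m :: t2) := by simp [ins, h1, h2, hi]
          rw [e]
          refine ⟨by simp, ?_⟩
          intro b' t' hb'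
          simp only [Option.some.injEq, Prod.mk.injEq] at hb'
          obtain ⟨rfl, rfl⟩ := hb'
          rw [e1, hb b t2 hi]
          cases b <;> simp [nrmSgn]

lemma nrm_nrm_spec {ℓ : List ℕ → ℝ} (h : Alt ℓ) : ∀ (t s : List ℕ),
    (nrm t = none → ℓ (s ++ t) = 0) ∧
    (∀ b t2, nrm t = some (b, t2) → ℓ (s ++ t) = nrmSgn b * ℓ (s ++ t2)) := by
  intro t
  induction t with
  | nil =>
    intro s
    refine ⟨by simp [nrm], ?_⟩
    intro b t2 hb
    simp only [nrm, Option.some.injEq, Prod.mk.injEq] at hb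
    obtain ⟨rfl, rfl⟩ := hb
    simp [nrmSgn]
  | cons n t ih =>
    intro s
    have e0 : s ++ n :: t = (s ++ [n]) ++ t := by simp
    obtain ⟨ha, hb⟩ := ih (s ++ [n])
    cases hi : nrm t with
    | none =>
      have e : nrm (n :: t) = none := by simp [nrm, hi]
      rw [e]
      refine ⟨fun _ => ?_, by simp⟩
      rw [e0, ha hi]
    | some q =>
      obtain ⟨b, t'⟩ := q
      have e2 : ℓ (s ++ n :: t) = nrmSgn b * ℓ (s ++ n :: t') := by
        rw [e0, hb b t' hi]; simp
      obtain ⟨hc, hd⟩ := nrm_ins_spec h n t' s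
      cases hj : ins n t' with
      | none =>
        have e : nrm (n :: t) = none := by simp [nrm, hi, hj]
        rw [e]
        refine ⟨fun _ => ?_, by simp⟩
        rw [e2, hc hj, mul_zero]
      | some q2 =>
        obtain ⟨b2, t2⟩ := q2
        have e : nrm (n :: t) = some (xor b b2, t2) := by simp [nrm, hi, hj]
        rw [e]
        refine ⟨by simp, ?_⟩
        intro b' t'' hb'
        simp only [Option.some.injEq, Prod.mk.injEq] at hb'
        obtain ⟨rfl, rfl⟩ := hb'
        rw [e2, hd b2 t2 hj]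
        cases b <;> cases b2 <;> simp [nrmSgn]

/-! ### states -/

lemma nrm_sem_cons (p u : ℝ) (ℓ : List ℕ → ℝ) (x : List ℤ × List ℕ) (S : St) :
    sem p u ℓ (x :: S) = ev p u x.1 * ℓ x.2 + sem p u ℓ S := by
  simp [sem]

lemma nrm_sem_nil (p u : ℝ) (ℓ : List ℕ → ℝ) : sem p u ℓ [] = 0 := by
  simp [sem]

theorem sem_addT (p u : ℝ) (ℓ : List ℕ → ℝ) (c : List ℤ) (t : List ℕ) (S : St) :
    sem p u ℓ (addT c t S) = ev p u c * ℓ t + sem p u ℓ S := by
  induction S with
  | nil => simp [addT, sem]
  | cons x S ih =>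
    obtain ⟨c', t'⟩ := x
    unfold addT
    split_ifs with h
    · rw [nrm_sem_cons, nrm_sem_cons]
      simp only
      rw [ev_vadd, h]; ring
    · rw [nrm_sem_cons, nrm_sem_cons, ih]
      ring

theorem sem_addU (p u : ℝ) {ℓ : List ℕ → ℝ} (h : Alt ℓ) (c : List ℤ) (t : List ℕ) (S : St) :
    sem p u ℓ (addU c t S) = ev p u c * ℓ t + sem p u ℓ S := by
  obtain ⟨ha, hb⟩ := nrm_nrm_spec h t []
  unfold addU
  cases hi : nrm t with
  | none =>
    have h1 : ℓ t = 0 := by simpa using ha hi
    simp [h1]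
  | some q =>
    obtain ⟨b, t2⟩ := q
    have h1 : ℓ t = nrmSgn b * ℓ t2 := by simpa using hb b t2 hi
    cases b with
    | false =>
      simp only
      rw [sem_addT, h1]
      simp [nrmSgn]
    | true =>
      simp only
      rw [sem_addT, h1, ev_vmul]
      simp [nrmSgn]

/-! ### the sum over all modifications -/

lemma nrm_sum_flatMap {α β : Type} (f : α → List β) (g : β → ℝ) (L : List α) :
    ((L.flatMap f).map g).sum = (L.map (fun x => ((f x).map g).sum)).sum := by
  induction L with
  | nil => simp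
  | cons x L ih =>
    rw [List.flatMap_cons, List.map_append, List.sum_append, ih]
    simp

lemma nrm_sum_add {α : Type} (f g : α → ℝ) (L : List α) :
    (L.map (fun x => f x + g x)).sum = (L.map f).sum + (L.map g).sum := by
  induction L with
  | nil => simp
  | cons x L ih =>
    simp only [List.map_cons, List.sum_cons]
    rw [ih]; ring

lemma nrm_enum_sum : ∀ (t : List ℕ) (W : ℕ → ℕ → ℝ) (ℓ : List ℕ → ℝ),
    ((enum t).map (fun x => W x.1 x.2.1 * ℓ x.2.2)).sum = opW W ℓ t := by
  intro t
  induction t with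
  | nil => intro W ℓ; simp [enum, opW]
  | cons n t ih =>
    intro W ℓ
    have h1 := ih W (fun s => ℓ (n :: s))
    have h2 := ih (fun l i => W l (i + 1)) (fun s => ℓ ((n + 8) :: s))
    have h3 := ih (fun l i => W (l + 1) i) (fun s => ℓ ((n - 1) :: s))
    rw [enum, nrm_sum_flatMap]
    by_cases h : n % 8 = 0
    · simp only [h, if_true, opW]
      rw [← h1, ← h2, ← nrm_sum_add, add_zero]
      congr 1
      apply List.map_congr_left
      intro x _
      simp
    · simp only [h, if_false, opW]
      rw [← h1, ← h2, ← h3, ← nrm_sum_add, ← nrm_sum_add]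
      congr 1
      apply List.map_congr_left
      intro x _
      simp
      ring

lemma nrm_addAll (p u : ℝ) {ℓ : List ℕ → ℝ} (h : Alt ℓ) (j : ℕ) (c : List ℤ)
    (L : List (ℕ × ℕ × List ℕ)) (S : St) :
    sem p u ℓ (addAll j c L S) =
      ev p u c * (L.map (fun x => (wt j x.1 x.2.1 : ℝ) * ℓ x.2.2)).sum + sem p u ℓ S := by
  induction L with
  | nil => simp [addAll]
  | cons x L ih =>
    unfold addAll
    simp only [List.map_cons, List.sum_cons]
    split_ifs with h0
    · rw [ih, h0]; simp
    · rw [sem_addU p u h, ih, ev_vmul]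
      push_cast
      ring

lemma nrm_xopRaw (p u : ℝ) {ℓ : List ℕ → ℝ} (h : Alt ℓ) (j : ℕ) (S : St) :
    sem p u ℓ (xopRaw j S) = sem p u (opX j ℓ) S := by
  induction S with
  | nil => simp [xopRaw, sem]
  | cons x S ih =>
    obtain ⟨c, t⟩ := x
    rw [xopRaw, nrm_addAll p u h, ih, nrm_sem_cons]
    have h1 := nrm_enum_sum t (fun l i => (wt j l i : ℝ)) ℓ
    simp only [opX]
    rw [← h1]

lemma nrm_filter (p u : ℝ) (ℓ : List ℕ → ℝ) (S : St) :
    sem p u ℓ (S.filter fun x => !vzero x.1) = sem p u ℓ S := by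
  induction S with
  | nil => simp
  | cons x S ih =>
    rw [nrm_sem_cons]
    cases hx : vzero x.1 with
    | true =>
      rw [List.filter_cons_of_neg (by simp [hx]), ih, ev_vzero hx]
      ring
    | false =>
      rw [List.filter_cons_of_pos (by simp [hx]), nrm_sem_cons, ih]

theorem xopOk : XopSt := by
  intro p u j ℓ S h
  unfold xop
  rw [nrm_filter, nrm_xopRaw p u h]

end Pool.Agent.H52.O4
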