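import Pool.Agent.H52.O4.Spec

/-!
# Steps (1), (2) of `RowSt`: the rows of the window in terms of `X^a * fk F k`
-/

set_option autoImplicit false

open Polynomial

namespace Pool.Agent.H52.O4

open Pool.Agent.H73.TP (opA opA_add opA_C_mul)

theorem rowA_lin (N y : ℝ) (g : ℝ[X]) :
    opA (N + 1) ((1 + C y * X) * g) = (1 + C y * X) * opA N g + C (1 + y) * (X * g) := by
  unfold opA
  rw [derivative_mul, derivative_add, derivative_one, derivative_C_mul, derivative_X, C_add, C_1,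
    C_add, C_1]
  ring

theorem rowA_op (F : List ℝ) : ∀ (q : ℝ) (a k : ℕ),
    opA (F.length + q) (X ^ a * fk F k) = C (1 + (a : ℝ)) * (X ^ a * fk F k)
      + C (q + k - a) * (X ^ (a + 1) * fk F k) + C ((k : ℝ) + 1) * (X ^ (a + 1) * fk F (k + 1)) := by
  induction F with
  | nil =>
    intro q a k
    rcases k with _ | k
    · have h1 : fk [] 0 = 1 := rfl
      have h2 : fk [] (0 + 1) = 0 := rfl
      rw [h1, h2]
      unfold opA
      rcases a with _ | a
      · simp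
      · simp only [List.length_nil, Nat.cast_zero, zero_add, mul_one, derivative_X_pow,
          Nat.cast_succ, mul_zero, add_zero, C_add, C_1, C_sub, Nat.add_sub_cancel]
        ring
    · have h1 : fk [] (k + 1) = 0 := rfl
      have h2 : fk [] (k + 1 + 1) = 0 := rfl
      rw [h1, h2]
      simp [opA]
  | cons y F ih =>
    intro q a k
    have e1 : (((y :: F).length : ℕ) : ℝ) + q = (F.length + q) + 1 := by
      rw [List.length_cons]; push_cast; ring
    rw [e1]
    rcases k with _ | k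
    · have h1 : fk (y :: F) 0 = (1 + C y * X) * fk F 0 := rfl
      have h2 : fk (y :: F) (0 + 1) = (1 + C y * X) * fk F (0 + 1) + C (1 + y) * fk F 0 := rfl
      rw [h1, h2]
      have e2 : (X ^ a * ((1 + C y * X) * fk F 0) : ℝ[X]) = (1 + C y * X) * (X ^ a * fk F 0) := by
        ring
      rw [e2, rowA_lin, ih q a 0]
      simp only [Nat.cast_zero, add_zero, zero_add, C_1, one_mul]
      ring
    · have h1 : fk (y :: F) (k + 1) = (1 + C y * X) * fk F (k + 1) + C (1 + y) * fk F k := rfl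
      have h2 : fk (y :: F) (k + 1 + 1)
          = (1 + C y * X) * fk F (k + 1 + 1) + C (1 + y) * fk F (k + 1) := rfl
      rw [h1, h2]
      have e2 : (X ^ a * ((1 + C y * X) * fk F (k + 1) + C (1 + y) * fk F k) : ℝ[X])
          = (1 + C y * X) * (X ^ a * fk F (k + 1)) + C (1 + y) * (X ^ a * fk F k) := by
        ring
      have e3 : (F.length : ℝ) + q + 1 = F.length + (q + 1) := by ring
      rw [e2, opA_add, rowA_lin, ih q a (k + 1), opA_C_mul, e3, ih (q + 1) a k]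
      push_cast
      simp only [C_add, C_1, C_sub]
      ring

theorem rowA_o (F : List ℝ) (q : ℝ) (a k : ℕ) (c1 c2 c3 : ℝ) (h1 : c1 = 1 + a)
    (h2 : c2 = q + k - a) (h3 : c3 = k + 1) :
    opA (F.length + q) (X ^ a * fk F k) = C c1 * (X ^ a * fk F k)
      + C c2 * (X ^ (a + 1) * fk F k) + C c3 * (X ^ (a + 1) * fk F (k + 1)) := by
  subst h1 h2 h3
  exact rowA_op F q a k

theorem rowA_zero (F : List ℝ) (q r : ℝ) : rwi F q r 0 = X ^ 0 * fk F 0 := by
  rw [pow_zero, one_mul]; rfl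

theorem rowA_one (F : List ℝ) (q r : ℝ) : rwi F q r 1 = X ^ 0 * fk F 0 + C q * (X ^ 1 * fk F 0)
    + X ^ 1 * fk F 1 := by
  have h : rwi F q r 1 = opA (F.length + q + (0 : ℕ) * r) (rwi F q r 0) := rfl
  have h0 : (F.length : ℝ) + q + (0 : ℕ) * r = F.length + q := by push_cast; ring
  rw [h, h0, rowA_zero, rowA_o F q 0 0 1 q 1 (by norm_num) (by norm_num) (by norm_num)]
  simp only [map_one]
  ring

theorem rowA_two (F : List ℝ) (q r : ℝ) : rwi F q r 2 = X ^ 0 * fk F 0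
    + C (3 * q + r) * (X ^ 1 * fk F 0) + C 3 * (X ^ 1 * fk F 1)
    + C (q * (q + r - 1)) * (X ^ 2 * fk F 0) + C (2 * q + r) * (X ^ 2 * fk F 1)
    + C 2 * (X ^ 2 * fk F 2) := by
  have h : rwi F q r 2 = opA (F.length + q + (1 : ℕ) * r) (rwi F q r 1) := rfl
  have h0 : (F.length : ℝ) + q + (1 : ℕ) * r = F.length + (q + r) := by push_cast; ring
  rw [h, h0, rowA_one, opA_add, opA_add, opA_C_mul,
    rowA_o F (q + r) 0 0 1 (q + r) 1 (by norm_num) (by norm_num) (by norm_num),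
    rowA_o F (q + r) 1 0 2 (q + r - 1) 1 (by norm_num) (by norm_num) (by norm_num),
    rowA_o F (q + r) 1 1 2 (q + r) 2 (by norm_num) (by norm_num) (by norm_num)]
  simp only [map_add, map_mul, map_sub, map_one, map_ofNat]
  ring

theorem rowA_three (F : List ℝ) (q r : ℝ) : rwi F q r 3 = X ^ 0 * fk F 0
    + C (7 * q + 4 * r) * (X ^ 1 * fk F 0) + C 7 * (X ^ 1 * fk F 1)
    + C ((3 * q + r) * (q + 2 * r - 1) + 3 * q * (q + r - 1)) * (X ^ 2 * fk F 0)
    + C (12 * q + 10 * r) * (X ^ 2 * fk F 1) + C 12 * (X ^ 2 * fk F 2)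
    + C (q * (q + r - 1) * (q + 2 * r - 2)) * (X ^ 3 * fk F 0)
    + C (q * (q + r - 1) + (2 * q + r) * (q + 2 * r - 1)) * (X ^ 3 * fk F 1)
    + C (6 * q + 6 * r) * (X ^ 3 * fk F 2) + C 6 * (X ^ 3 * fk F 3) := by
  have h : rwi F q r 3 = opA (F.length + q + (2 : ℕ) * r) (rwi F q r 2) := rfl
  have h0 : (F.length : ℝ) + q + (2 : ℕ) * r = F.length + (q + 2 * r) := by push_cast; ring
  rw [h, h0, rowA_two]
  simp only [opA_add, opA_C_mul]
  rw [rowA_o F (q + 2 * r) 0 0 1 (q + 2 * r) 1 (by norm_num) (by norm_num) (by norm_num),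
    rowA_o F (q + 2 * r) 1 0 2 (q + 2 * r - 1) 1 (by norm_num) (by norm_num) (by norm_num),
    rowA_o F (q + 2 * r) 1 1 2 (q + 2 * r) 2 (by norm_num) (by norm_num) (by norm_num),
    rowA_o F (q + 2 * r) 2 0 3 (q + 2 * r - 2) 1 (by norm_num) (by norm_num) (by norm_num),
    rowA_o F (q + 2 * r) 2 1 3 (q + 2 * r - 1) 2 (by norm_num) (by norm_num; ring) (by norm_num),
    rowA_o F (q + 2 * r) 2 2 3 (q + 2 * r) 3 (by norm_num) (by norm_num) (by norm_num)]
  simp only [map_add, map_mul, map_sub, map_one, map_ofNat]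
  ring

theorem rowB_rw0 (F : List ℝ) (n : ℕ) : rw0 [] F n = X ^ (n / 8) * fk F (n % 8) := by
  have h : gp [] = 1 := rfl
  rw [rw0, h, one_mul]

theorem rowB_zero (F : List ℝ) (q r : ℝ) : rwi F q r 0 = rw0 [] F 0 := by
  rw [rowB_rw0, rowA_zero]

theorem rowB_one (F : List ℝ) (q r : ℝ) : rwi F q r 1 =
    rw0 [] F 0 + C q * rw0 [] F 8 + rw0 [] F 9 := by
  simp only [rowB_rw0, rowA_one, Nat.reduceDiv, Nat.reduceMod]

theorem rowB_two (F : List ℝ) (q r : ℝ) : rwi F q r 2 =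
    rw0 [] F 0 + C (3 * q + r) * rw0 [] F 8 + C 3 * rw0 [] F 9 + C (q * (q + r - 1)) * rw0 [] F 16
      + C (2 * q + r) * rw0 [] F 17 + C 2 * rw0 [] F 18 := by
  simp only [rowB_rw0, rowA_two, Nat.reduceDiv, Nat.reduceMod]

theorem rowB_three (F : List ℝ) (q r : ℝ) : rwi F q r 3 =
    rw0 [] F 0 + C (7 * q + 4 * r) * rw0 [] F 8 + C 7 * rw0 [] F 9
      + C ((q + 2 * r - 1) * (3 * q + r) + 3 * (q * (q + r - 1))) * rw0 [] F 16
      + C ((3 * q + r) + 3 * (q + 2 * r) + 3 * (2 * q + r)) * rw0 [] F 17 + C 12 * rw0 [] F 18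
      + C (q * (q + r - 1) * (q + 2 * r - 2)) * rw0 [] F 24
      + C (q * (q + r - 1) + (2 * q + r) * (q + 2 * r - 1)) * rw0 [] F 25
      + C (2 * (2 * q + r) + 2 * (q + 2 * r)) * rw0 [] F 26 + C 6 * rw0 [] F 27 := by
  have e1 : (q + 2 * r - 1) * (3 * q + r) + 3 * (q * (q + r - 1))
      = (3 * q + r) * (q + 2 * r - 1) + 3 * q * (q + r - 1) := by ring
  have e2 : (3 * q + r) + 3 * (q + 2 * r) + 3 * (2 * q + r) = 12 * q + 10 * r := by ring
  have e3 : 2 * (2 * q + r) + 2 * (q + 2 * r) = 6 * q + 6 * r := by ring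
  simp only [rowB_rw0, rowA_three, Nat.reduceDiv, Nat.reduceMod, e1, e2, e3]

end Pool.Agent.H52.O4
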