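import Mathlib.Data.Nat.Choose.Basic

/-!
# Order four: the computable part (states, operators, table check)

A row type is coded by `n = 8 a + k` (it stands for `t^a f^(k)`), a wedge of rows by the list of
its codes, a coefficient (a polynomial in `p, u`) by the list of its coefficients in the monomial
order `1, u, p, u^2, pu, p^2, u^3, ...`, a state by a list of pairs (coefficient, tuple).
-/

set_option autoImplicit false

namespace Pool.Agent.H52.O4

/-! ### coefficient vectors -/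

def vadd : List ℤ → List ℤ → List ℤ
  | [], b => b
  | x :: a, [] => x :: a
  | x :: a, y :: b => (x + y) :: vadd a b

def vmul (c : ℤ) (v : List ℤ) : List ℤ := v.map (fun x => c * x)

def vnn (v : List ℤ) : Bool := v.all (fun x => decide (0 ≤ x))

def vzero (v : List ℤ) : Bool := v.all (fun x => decide (x = 0))

abbrev St := List (List ℤ × List ℕ)

/-! ### sorting with sign -/

/-- Insert a code into a list; `none` if it is already there; the `Bool` is the parity. -/
def ins (n : ℕ) : List ℕ → Option (Bool × List ℕ)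
  | [] => some (false, [n])
  | m :: t =>
    if n < m then some (false, n :: m :: t)
    else if n = m then none
    else match ins n t with
      | none => none
      | some (s, t') => some (!s, m :: t')

def nrm : List ℕ → Option (Bool × List ℕ)
  | [] => some (false, [])
  | n :: t => match nrm t with
    | none => none
    | some (s, t') => match ins n t' with
      | none => none
      | some (s2, t2) => some (xor s s2, t2)

/-- Add a term to a state (the tuple is already sorted). -/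
def addT (c : List ℤ) (t : List ℕ) : St → St
  | [] => [(c, t)]
  | (c', t') :: S => if t = t' then (vadd c c', t') :: S else (c', t') :: addT c t S

/-- Add a term with an arbitrary tuple. -/
def addU (c : List ℤ) (t : List ℕ) (S : St) : St :=
  match nrm t with
  | none => S
  | some (false, t') => addT c t' S
  | some (true, t') => addT (vmul (-1) c) t' S

/-! ### one more form -/

/-- All modifications of a tuple: `(l, i, t')`, `l` entries lowered (`k - 1`), `i` entries raised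
(`a + 1`). -/
def enum : List ℕ → List (ℕ × ℕ × List ℕ)
  | [] => [(0, 0, [])]
  | n :: t => (enum t).flatMap fun x =>
      (x.1, x.2.1, n :: x.2.2) :: (x.1, x.2.1 + 1, (n + 8) :: x.2.2) ::
        (if n % 8 = 0 then [] else [(x.1 + 1, x.2.1, (n - 1) :: x.2.2)])

/-- Weight of a modification in `X_j`. -/
def wt (j l i : ℕ) : ℕ := if l = 0 ∨ j < i then 0 else (l - 1).choose (j - i)

def addAll (j : ℕ) (c : List ℤ) : List (ℕ × ℕ × List ℕ) → St → St
  | [], S => S
  | x :: L, S =>
    let S' := addAll j c L S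
    if wt j x.1 x.2.1 = 0 then S' else addU (vmul (wt j x.1 x.2.1 : ℤ) c) x.2.2 S'

def xopRaw (j : ℕ) : St → St
  | [] => []
  | (c, t) :: S => addAll j c (enum t) (xopRaw j S)

/-- The operator `X_j` on states. -/
def xop (j : ℕ) (S : St) : St := (xopRaw j S).filter fun x => !vzero x.1

/-! ### the check -/

/-- The table of exchanges: `(a, b, c, d, v, A)`. -/
abbrev Gt := List ((ℕ × ℕ × ℕ × ℕ) × List ℤ × List ℕ)

def gtab4 : Gt :=
  [((0, 2, 0, 0), [82, 72, 24, 14, 8], [8, 16, 24, 32]),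
   ((0, 0, 0, 2), [6, 12, 0, 6], [16, 24, 32, 40]),
   ((1, 2, 0, 0), [24, 8], [8, 16, 24, 32]),
   ((0, 3, 0, 0), [36, 12], [8, 16, 24, 40]),
   ((0, 2, 0, 1), [4, 4], [8, 24, 32, 40]),
   ((0, 1, 1, 1), [5, 5], [16, 24, 32, 40])]

/-- Integer coefficient of the exchange functional of `(a, b, c, d)` at `(a', b', c', d')`. -/
def exc (m m' : ℕ × ℕ × ℕ × ℕ) : ℤ :=
  if m' = (m.1 + 1, m.2.1, m.2.2.1 + 1, m.2.2.2) then ((m.2.2.1 + 1) * (m.1 + 1) : ℕ)
  else if m' = (m.1, m.2.1 + 2, m.2.2.1, m.2.2.2) then - ((m.2.1 + 2) * (m.2.1 + 1) : ℕ)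
  else 0

/-- Minus the exchange terms. -/
def adj (m' : ℕ × ℕ × ℕ × ℕ) : Gt → St → St
  | [], S => S
  | (m, v, A) :: G, S =>
    if exc m m' = 0 then adj m' G S else addT (vmul (- exc m m') v) A (adj m' G S)

/-- all codes are of the form `8 a`. -/
def isB (t : List ℕ) : Bool := t.all (fun n => decide (n % 8 = 0))

/-- strictly increasing. -/
def isS : List ℕ → Bool
  | [] => true
  | [_] => true
  | n :: m :: t => decide (n < m) && isS (m :: t)

def okAt (G : Gt) (S : St) (m' : ℕ × ℕ × ℕ × ℕ) : Bool :=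
  (adj m' G (S.filter fun x => isB x.2)).all fun x => vnn x.1 && isS x.2 && isB x.2

def runD (G : Gt) : ℕ → St → ℕ → ℕ → ℕ → ℕ → Bool
  | 0, S, _, _, _, _ => S.isEmpty
  | n + 1, S, a, b, c, d => okAt G S (a, b, c, d) && runD G n (xop 3 S) a b c (d + 1)

def runC (G : Gt) : ℕ → St → ℕ → ℕ → ℕ → Bool
  | 0, S, _, _, _ => S.isEmpty
  | n + 1, S, a, b, c => runD G (n + 1) S a b c 0 && runC G n (xop 2 S) a b (c + 1)

def runB (G : Gt) : ℕ → St → ℕ → ℕ → Bool
  | 0, S, _, _ => S.isEmpty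
  | n + 1, S, a, b => runC G (n + 1) S a b 0 && runB G n (xop 1 S) a (b + 1)

def runA (G : Gt) : ℕ → St → ℕ → Bool
  | 0, S, _ => S.isEmpty
  | n + 1, S, a => runB G (n + 1) S a 0 && runA G n (xop 0 S) (a + 1)

/-- The wedge of the first three rows. -/
def om3 : St :=
  [([-1,-1], [0,8,9]),
   ([1,4,3,5,8,3,2,5,4,1], [0,8,16]),
   ([3,6,5,3,5,2], [0,8,17]),
   ([2,2,2], [0,8,18]),
   ([1,3,2,2,3,1], [0,9,16]),
   ([3,3,2], [0,9,17]),
   ([2], [0,9,18])]

/-- The wedge of the first four rows. -/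
def om4 : St :=
  [([-7,-24,-8,-27,-18,-2,-10,-10,-2], [0,8,9,16]),
   ([-10,-20,-4,-10,-4], [0,8,9,17]),
   ([-4,-4], [0,8,9,18]),
   ([-1,-7,-3,-17,-15,-3,-17,-23,-9,-1,-6,-11,-6,-1], [0,8,9,24]),
   ([-7,-25,-9,-29,-21,-3,-11,-12,-3], [0,8,9,25]),
   ([-12,-24,-6,-12,-6], [0,8,9,26]),
   ([-6,-6], [0,8,9,27]),
   ([-11,-43,-25,-63,-72,-18,-41,-69,-34,-4,-10,-22,-16,-4], [0,8,16,17]),
   ([-10,-32,-18,-34,-38,-8,-12,-20,-8], [0,8,16,18]),
   ([1,10,6,40,50,15,82,160,100,20,91,246,240,100,15,52,182,246,160,50,6,12,52,91,82,40,10,1], [0,8,16,24]),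
   ([7,46,30,118,158,51,148,305,202,43,91,256,261,114,18,22,79,110,74,24,3], [0,8,16,25]),
   ([12,60,42,108,156,54,84,186,132,30,24,72,78,36,6], [0,8,16,26]),
   ([6,24,18,30,48,18,12,30,24,6], [0,8,16,27]),
   ([-8,-16,-8,-8,-8], [0,8,17,18]),
   ([3,24,14,72,89,26,102,199,123,24,69,187,182,75,11,18,63,85,55,17,2], [0,8,17,24]),
   ([21,96,62,162,215,68,120,244,159,33,33,91,91,39,6], [0,8,17,25]),
   ([36,108,78,108,156,54,36,78,54,12], [0,8,17,26]),
   ([18,36,30,18,30,12], [0,8,17,27]),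
   ([2,14,8,34,42,12,34,68,42,8,12,34,34,14,2], [0,8,18,24]),
   ([14,50,32,58,78,24,22,46,30,6], [0,8,18,25]),
   ([24,48,36,24,36,12], [0,8,18,26]),
   ([12,12,12], [0,8,18,27]),
   ([-11,-32,-14,-31,-26,-4,-10,-12,-4], [0,9,16,17]),
   ([-10,-22,-8,-12,-8], [0,9,16,18]),
   ([1,9,5,31,36,10,51,93,54,10,40,102,93,36,5,12,40,51,31,9,1], [0,9,16,24]),
   ([7,39,23,79,96,28,69,130,78,15,22,57,53,21,3], [0,9,16,25]),
   ([12,48,30,60,78,24,24,48,30,6], [0,9,16,26]),
   ([6,18,12,12,18,6], [0,9,16,27]),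
   ([-8,-8], [0,9,17,18]),
   ([3,21,11,51,57,15,51,91,51,9,18,45,40,15,2], [0,9,17,24]),
   ([21,75,41,87,99,27,33,58,33,6], [0,9,17,25]),
   ([36,72,42,36,42,12], [0,9,17,26]),
   ([18,18,12], [0,9,17,27]),
   ([2,12,6,22,24,6,12,22,12,2], [0,9,18,24]),
   ([14,36,18,22,24,6], [0,9,18,25]),
   ([24,24,12], [0,9,18,26]),
   ([12], [0,9,18,27])]

end Pool.Agent.H52.O4
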