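import Pool.Agent.H73.TP.Two
import Pool.Agent.H52.O4.Comp

/-!
# Order four: definitions and statements

`F`, `G` are lists of forms `y ≥ 0` (a form is `1 + y t`).
-/

set_option autoImplicit false

open Polynomial

namespace Pool.Agent.H52.O4

open Pool.Agent.H73.TP (opA)

/-! ### semantics of coefficients -/

/-- Sum of `v_m p^(m-i) u^i`... written as a double Horner scheme: the coefficients of degree `d`
are `v_(d(d+1)/2 + i)`, the coefficient of `p^i u^(d-i)`. -/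
noncomputable def evAux (p u : ℝ) : ℕ → ℕ → List ℤ → ℝ
  | _, _, [] => 0
  | i, j, x :: v => (x : ℝ) * (p ^ i * u ^ j) +
      (if j = 0 then evAux p u 0 (i + 1) v else evAux p u (i + 1) (j - 1) v)

/-- Value of a coefficient list at `(p, u)`. -/
noncomputable def ev (p u : ℝ) (v : List ℤ) : ℝ := evAux p u 0 0 v

/-- Value of a functional on a state. -/
noncomputable def sem (p u : ℝ) (ℓ : List ℕ → ℝ) (S : St) : ℝ :=
  (S.map fun x => ev p u x.1 * ℓ x.2).sum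

/-- Alternating functionals. -/
def Alt (ℓ : List ℕ → ℝ) : Prop := ∀ (s : List ℕ) (x y : ℕ) (t : List ℕ),
  ℓ (s ++ x :: y :: t) = - ℓ (s ++ y :: x :: t)

/-- The weighted sum over all modifications: `l` entries lowered, `i` entries raised, weight
`W l i`. -/
noncomputable def opW : (ℕ → ℕ → ℝ) → (List ℕ → ℝ) → List ℕ → ℝ
  | W, ℓ, [] => W 0 0 * ℓ []
  | W, ℓ, n :: t =>
      opW W (fun s => ℓ (n :: s)) t + opW (fun l i => W l (i + 1)) (fun s => ℓ ((n + 8) :: s)) t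
        + (if n % 8 = 0 then 0 else opW (fun l i => W (l + 1) i) (fun s => ℓ ((n - 1) :: s)) t)

/-- `X_j` on functionals. -/
noncomputable def opX (j : ℕ) (ℓ : List ℕ → ℝ) : List ℕ → ℝ := opW (fun l i => (wt j l i : ℝ)) ℓ

/-- `X_0^a X_1^b X_2^c X_3^d` on functionals. -/
noncomputable def opC (a b c d : ℕ) (ℓ : List ℕ → ℝ) : List ℕ → ℝ :=
  (opX 0)^[a] ((opX 1)^[b] ((opX 2)^[c] ((opX 3)^[d] ℓ)))

/-- The computed state. -/
def stc (S : St) (a b c d : ℕ) : St := (xop 3)^[d] ((xop 2)^[c] ((xop 1)^[b] ((xop 0)^[a] S)))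

/-! ### polynomials -/

/-- Product of the forms of `G`. -/
noncomputable def gp : List ℝ → ℝ[X]
  | [] => 1
  | y :: G => (1 + C y * X) * gp G

/-- `f^(k)_F`. -/
noncomputable def fk : List ℝ → ℕ → ℝ[X]
  | [], 0 => 1
  | [], _ + 1 => 0
  | y :: F, 0 => (1 + C y * X) * fk F 0
  | y :: F, k + 1 => (1 + C y * X) * fk F (k + 1) + C (1 + y) * fk F k

/-- The row with code `n`. -/
noncomputable def rw0 (G F : List ℝ) (n : ℕ) : ℝ[X] := X ^ (n / 8) * (gp G * fk F (n % 8))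

/-- The minor with the rows `t` and the columns `κ, κ+1, ...`. -/
noncomputable def val (G F : List ℝ) (κ : ℕ) (t : List ℕ) : ℝ :=
  Matrix.det (Matrix.of fun i j : Fin t.length => (rw0 G F (t.get i)).coeff (κ + j))

/-- The window of rows: `R_0 = fk F 0`, `R_(i+1) = A_(|F| + q + i r) R_i`. -/
noncomputable def rwi (F : List ℝ) (q r : ℝ) : ℕ → ℝ[X]
  | 0 => fk F 0
  | i + 1 => opA (F.length + q + i * r) (rwi F q r i)

/-- Solid minor of order `m` of the window. -/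
noncomputable def sol (F : List ℝ) (q r : ℝ) (m κ : ℕ) : ℝ :=
  Matrix.det (Matrix.of fun i j : Fin m => (rwi F q r i).coeff (κ + j))

/-! ### sums over words -/

/-- `Σ` over words `j_1 .. j_s` in `{0,1,2,3}` of `y^j f(counts)`. -/
noncomputable def Q : (ℕ → ℕ → ℕ → ℕ → ℝ) → List ℝ → ℝ
  | f, [] => f 0 0 0 0
  | f, y :: ys => Q (fun a b c d => f (a + 1) b c d) ys + y * Q (fun a b c d => f a (b + 1) c d) ys
      + y ^ 2 * Q (fun a b c d => f a b (c + 1) d) ys + y ^ 3 * Q (fun a b c d => f a b c (d + 1)) ys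

/-! ### the rows of the project -/

/-- OPW (Alg.lean): the operators preserve `Alt` and commute. -/
def AltSt : Prop := ∀ (W : ℕ → ℕ → ℝ) (ℓ : List ℕ → ℝ), Alt ℓ → Alt (opW W ℓ)
def ComSt : Prop := ∀ (W W' : ℕ → ℕ → ℝ) (ℓ : List ℕ → ℝ), opW W (opW W' ℓ) = opW W' (opW W ℓ)

/-- NRM (Nrm.lean): the computed `xop` is right on alternating functionals. -/
def XopSt : Prop := ∀ (p u : ℝ) (j : ℕ) (ℓ : List ℕ → ℝ) (S : St), Alt ℓ →
  sem p u ℓ (xop j S) = sem p u (opX j ℓ) S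

/-- VAL (Val.lean). -/
def ValAltSt : Prop := ∀ (G F : List ℝ) (κ : ℕ), Alt (val G F κ)
def ValStepSt : Prop := ∀ (G F : List ℝ) (κ : ℕ) (y : ℝ) (t : List ℕ), t.length ≤ 4 →
  val G (y :: F) κ t = val (y :: G) F κ t + (1 + y) *
    (opX 0 (val G F κ) t + y * opX 1 (val G F κ) t + y ^ 2 * opX 2 (val G F κ) t
      + y ^ 3 * opX 3 (val G F κ) t)
def ValZeroSt : Prop := ∀ (G : List ℝ) (κ : ℕ) (t : List ℕ), isB t = false → val G [] κ t = 0

/-- PF (Pf.lean). -/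
def PfSt : Prop := ∀ (G : List ℝ) (κ : ℕ) (t : List ℕ), (∀ y ∈ G, 0 ≤ y) → isS t = true →
  isB t = true → 0 ≤ val G [] κ t
def PfPosSt : Prop := ∀ (G : List ℝ) (κ m : ℕ), (∀ y ∈ G, 0 < y) → κ ≤ G.length →
  0 < val G [] κ ((List.range m).map (fun a => 8 * a))

/-- EXC (Exc.lean): the exchange inequality; `exc` is the functional of Comp.lean. -/
def QposSt : Prop := ∀ (f : ℕ → ℕ → ℕ → ℕ → ℝ) (ys : List ℝ), (∀ y ∈ ys, 0 ≤ y) →
  (∀ a b c d, a + b + c + d = ys.length → 0 ≤ f a b c d) → 0 ≤ Q f ys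
def ExcSt : Prop := ∀ (m : ℕ × ℕ × ℕ × ℕ) (ys : List ℝ), (∀ y ∈ ys, 0 ≤ y) →
  0 ≤ Q (fun a b c d => (exc m (a, b, c, d) : ℝ)) ys

/-- RUN (Run.lean): soundness of the check. -/
def RunSt : Prop := ∀ (G : Gt) (n : ℕ) (S : St), runA G n S 0 = true →
  (∀ a b c d, a + b + c + d < n → okAt G (stc S a b c d) (a, b, c, d) = true) ∧
  (∀ a b c d, a + b + c + d = n → stc S a b c d = [])

/-- OKS (Ok.lean): meaning of `okAt`. -/
def OkSt : Prop := ∀ (p u : ℝ) (ℓ : List ℕ → ℝ) (G : Gt) (S : St) (m : ℕ × ℕ × ℕ × ℕ),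
  0 ≤ p → 0 ≤ u → (∀ t, isB t = false → ℓ t = 0) → (∀ t, isS t = true → isB t = true → 0 ≤ ℓ t) →
  okAt G S m = true →
  (G.map fun g => (exc g.1 m : ℝ) * (ev p u g.2.1 * ℓ g.2.2)).sum ≤ sem p u ℓ S

/-- ROW (Row.lean): the window of rows as a state. -/
def RowSt : Prop := ∀ (F : List ℝ) (p u : ℝ) (κ : ℕ),
  sol F (1 + u + p) (1 + u) 3 κ = sem p u (val [] F κ) om3 ∧
  sol F (1 + u + p) (1 + u) 4 κ = sem p u (val [] F κ) om4

/-- MAIN (Main.lean). -/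
def MainSt : Prop := ∀ (F : List ℝ) (p u : ℝ) (κ : ℕ), 0 ≤ p → 0 ≤ u →
  ((∀ y ∈ F, 0 ≤ y) → 0 ≤ sol F (1 + u + p) (1 + u) 3 κ ∧ 0 ≤ sol F (1 + u + p) (1 + u) 4 κ) ∧
  ((∀ y ∈ F, 0 < y) → κ ≤ F.length →
    0 < sol F (1 + u + p) (1 + u) 3 κ ∧ 0 < sol F (1 + u + p) (1 + u) 4 κ)

end Pool.Agent.H52.O4
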