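import Pool.Agent.H52.O4.Spec

/-!
# Order four: algebra of the operators `opW`
-/

set_option autoImplicit false

namespace Pool.Agent.H52.O4

theorem opW_nil (W : ℕ → ℕ → ℝ) (ℓ : List ℕ → ℝ) : opW W ℓ [] = W 0 0 * ℓ [] := rfl

theorem opW_cons (W : ℕ → ℕ → ℝ) (ℓ : List ℕ → ℝ) (n : ℕ) (t : List ℕ) :
    opW W ℓ (n :: t) = opW W (fun s => ℓ (n :: s)) t +
      opW (fun l i => W l (i + 1)) (fun s => ℓ ((n + 8) :: s)) t +
      (if n % 8 = 0 then 0 else opW (fun l i => W (l + 1) i) (fun s => ℓ ((n - 1) :: s)) t) := rfl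

theorem opW_zero (W : ℕ → ℕ → ℝ) (t : List ℕ) : opW W (fun _ => 0) t = 0 := by
  induction t generalizing W with
  | nil => rw [opW_nil, mul_zero]
  | cons n t ih =>
    rw [opW_cons, ih, ih, ih]
    simp

theorem opW_add_l (W : ℕ → ℕ → ℝ) (ℓ ℓ' : List ℕ → ℝ) (t : List ℕ) :
    opW W (fun s => ℓ s + ℓ' s) t = opW W ℓ t + opW W ℓ' t := by
  induction t generalizing W ℓ ℓ' with
  | nil =>
    rw [opW_nil, opW_nil, opW_nil]
    ring
  | cons n t ih =>
    rw [opW_cons, opW_cons, opW_cons]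
    rw [ih W (fun s => ℓ (n :: s)) (fun s => ℓ' (n :: s)),
      ih (fun l i => W l (i + 1)) (fun s => ℓ ((n + 8) :: s)) (fun s => ℓ' ((n + 8) :: s)),
      ih (fun l i => W (l + 1) i) (fun s => ℓ ((n - 1) :: s)) (fun s => ℓ' ((n - 1) :: s))]
    split_ifs <;> ring

theorem opW_smul_l (c : ℝ) (W : ℕ → ℕ → ℝ) (ℓ : List ℕ → ℝ) (t : List ℕ) :
    opW W (fun s => c * ℓ s) t = c * opW W ℓ t := by
  induction t generalizing W ℓ with
  | nil =>
    rw [opW_nil, opW_nil]
    ring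
  | cons n t ih =>
    rw [opW_cons, opW_cons]
    rw [ih W (fun s => ℓ (n :: s)), ih (fun l i => W l (i + 1)) (fun s => ℓ ((n + 8) :: s)),
      ih (fun l i => W (l + 1) i) (fun s => ℓ ((n - 1) :: s))]
    split_ifs <;> ring

theorem opW_neg_l (W : ℕ → ℕ → ℝ) (ℓ : List ℕ → ℝ) (t : List ℕ) :
    opW W (fun s => - ℓ s) t = - opW W ℓ t := by
  have h := opW_smul_l (-1) W ℓ t
  simp only [neg_mul, one_mul] at h
  exact h

theorem opW_add_W (W W' : ℕ → ℕ → ℝ) (ℓ : List ℕ → ℝ) (t : List ℕ) :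
    opW (fun l i => W l i + W' l i) ℓ t = opW W ℓ t + opW W' ℓ t := by
  induction t generalizing W W' ℓ with
  | nil =>
    rw [opW_nil, opW_nil, opW_nil]
    ring
  | cons n t ih =>
    rw [opW_cons, opW_cons, opW_cons]
    rw [ih W W' (fun s => ℓ (n :: s)),
      ih (fun l i => W l (i + 1)) (fun l i => W' l (i + 1)) (fun s => ℓ ((n + 8) :: s)),
      ih (fun l i => W (l + 1) i) (fun l i => W' (l + 1) i) (fun s => ℓ ((n - 1) :: s))]
    split_ifs <;> ring

theorem opW_smul_W (c : ℝ) (W : ℕ → ℕ → ℝ) (ℓ : List ℕ → ℝ) (t : List ℕ) :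
    opW (fun l i => c * W l i) ℓ t = c * opW W ℓ t := by
  induction t generalizing W ℓ with
  | nil =>
    rw [opW_nil, opW_nil]
    ring
  | cons n t ih =>
    rw [opW_cons, opW_cons]
    rw [ih W (fun s => ℓ (n :: s)), ih (fun l i => W l (i + 1)) (fun s => ℓ ((n + 8) :: s)),
      ih (fun l i => W (l + 1) i) (fun s => ℓ ((n - 1) :: s))]
    split_ifs <;> ring

theorem opW_congr_len (W W2 : ℕ → ℕ → ℝ) (ℓ ℓ2 : List ℕ → ℝ) (t : List ℕ)
    (hW : ∀ l i, l + i ≤ t.length → W l i = W2 l i)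
    (hℓ : ∀ s : List ℕ, s.length = t.length → ℓ s = ℓ2 s) :
    opW W ℓ t = opW W2 ℓ2 t := by
  induction t generalizing W W2 ℓ ℓ2 with
  | nil =>
    rw [opW_nil, opW_nil, hW 0 0 (by simp), hℓ [] rfl]
  | cons n t ih =>
    rw [opW_cons, opW_cons]
    rw [List.length_cons] at hW hℓ
    rw [ih W W2 (fun s => ℓ (n :: s)) (fun s => ℓ2 (n :: s))
        (fun l i h => hW l i (by omega)) (fun s hs => hℓ _ (by simp [hs])),
      ih (fun l i => W l (i + 1)) (fun l i => W2 l (i + 1)) (fun s => ℓ ((n + 8) :: s))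
        (fun s => ℓ2 ((n + 8) :: s))
        (fun l i h => hW l (i + 1) (by omega)) (fun s hs => hℓ _ (by simp [hs])),
      ih (fun l i => W (l + 1) i) (fun l i => W2 (l + 1) i) (fun s => ℓ ((n - 1) :: s))
        (fun s => ℓ2 ((n - 1) :: s))
        (fun l i h => hW (l + 1) i (by omega)) (fun s hs => hℓ _ (by simp [hs]))]

theorem alg_swap (W : ℕ → ℕ → ℝ) (ℓ : List ℕ → ℝ) (h : Alt ℓ) (x y : ℕ) (t : List ℕ) :
    opW W (fun s => ℓ (x :: y :: s)) t = - opW W (fun s => ℓ (y :: x :: s)) t := by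
  rw [← opW_neg_l]
  refine congrArg (fun f => opW W f t) (funext fun s => ?_)
  exact h [] x y s

theorem alt : AltSt := by
  intro W ℓ h s
  induction s generalizing W ℓ with
  | nil =>
    intro x y t
    simp only [List.nil_append, opW_cons]
    rw [alg_swap W ℓ h x y t, alg_swap _ ℓ h x (y + 8) t, alg_swap _ ℓ h x (y - 1) t,
      alg_swap _ ℓ h (x + 8) y t, alg_swap _ ℓ h (x + 8) (y + 8) t,
      alg_swap _ ℓ h (x + 8) (y - 1) t, alg_swap _ ℓ h (x - 1) y t,
      alg_swap _ ℓ h (x - 1) (y + 8) t, alg_swap _ ℓ h (x - 1) (y - 1) t]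
    split_ifs <;> ring
  | cons n s ih =>
    intro x y t
    have hn : ∀ m : ℕ, Alt (fun s => ℓ (m :: s)) := fun m s' x' y' t' => h (m :: s') x' y' t'
    simp only [List.cons_append, opW_cons]
    rw [ih W (fun s => ℓ (n :: s)) (hn n) x y t,
      ih (fun l i => W l (i + 1)) (fun s => ℓ ((n + 8) :: s)) (hn (n + 8)) x y t,
      ih (fun l i => W (l + 1) i) (fun s => ℓ ((n - 1) :: s)) (hn (n - 1)) x y t]
    split_ifs <;> ring

theorem alg_inner (W W' : ℕ → ℕ → ℝ) (ℓ : List ℕ → ℝ) (n : ℕ) (t : List ℕ) :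
    opW W (fun s => opW W' ℓ (n :: s)) t =
      opW W (opW W' (fun s => ℓ (n :: s))) t +
      opW W (opW (fun l i => W' l (i + 1)) (fun s => ℓ ((n + 8) :: s))) t +
      (if n % 8 = 0 then 0 else
        opW W (opW (fun l i => W' (l + 1) i) (fun s => ℓ ((n - 1) :: s))) t) := by
  simp only [opW_cons]
  rw [opW_add_l W (fun s => opW W' (fun s => ℓ (n :: s)) s +
      opW (fun l i => W' l (i + 1)) (fun s => ℓ ((n + 8) :: s)) s)
    (fun s => if n % 8 = 0 then 0 else
      opW (fun l i => W' (l + 1) i) (fun s => ℓ ((n - 1) :: s)) s) t,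
    opW_add_l W (fun s => opW W' (fun s => ℓ (n :: s)) s)
      (fun s => opW (fun l i => W' l (i + 1)) (fun s => ℓ ((n + 8) :: s)) s) t]
  congr 1
  split_ifs with h
  · exact opW_zero W t
  · rfl

theorem com : ComSt := by
  intro W W' ℓ
  funext t
  induction t generalizing W W' ℓ with
  | nil =>
    simp only [opW_nil]
    ring
  | cons n t ih =>
    rw [opW_cons W (opW W' ℓ), opW_cons W' (opW W ℓ)]
    simp only [alg_inner]
    rw [ih W W' (fun s => ℓ (n :: s)),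
      ih W (fun l i => W' l (i + 1)) (fun s => ℓ ((n + 8) :: s)),
      ih W (fun l i => W' (l + 1) i) (fun s => ℓ ((n - 1) :: s)),
      ih (fun l i => W l (i + 1)) W' (fun s => ℓ ((n + 8) :: s)),
      ih (fun l i => W l (i + 1)) (fun l i => W' l (i + 1)) (fun s => ℓ ((n + 8 + 8) :: s)),
      ih (fun l i => W l (i + 1)) (fun l i => W' (l + 1) i) (fun s => ℓ ((n + 8 - 1) :: s)),
      ih (fun l i => W (l + 1) i) W' (fun s => ℓ ((n - 1) :: s)),
      ih (fun l i => W (l + 1) i) (fun l i => W' l (i + 1)) (fun s => ℓ ((n - 1 + 8) :: s)),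
      ih (fun l i => W (l + 1) i) (fun l i => W' (l + 1) i) (fun s => ℓ ((n - 1 - 1) :: s))]
    by_cases h : n % 8 = 0
    · have h8 : (n + 8) % 8 = 0 := by omega
      simp only [h, h8, if_true]
      ring
    · have h8 : ¬ (n + 8) % 8 = 0 := by omega
      have hn : n - 1 + 8 = n + 8 - 1 := by omega
      simp only [h, h8, if_false, hn]
      split_ifs <;> ring

end Pool.Agent.H52.O4
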