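import Pool.Agent.H52.O4.Spec

set_option autoImplicit false

namespace Pool.Agent.H52.O4.XB

open Pool.Agent.H52.O4

abbrev Fn := ℕ → ℕ → ℕ → ℕ → ℝ

theorem Q_lin : ∀ (ys : List ℝ) (x : ℝ) (f g : Fn),
    Q (fun a b c d => f a b c d + x * g a b c d) ys = Q f ys + x * Q g ys
  | [], x, f, g => rfl
  | y :: ys, x, f, g => by
    simp only [Q]
    rw [Q_lin ys x (fun a b c d => f (a + 1) b c d) (fun a b c d => g (a + 1) b c d),
      Q_lin ys x (fun a b c d => f a (b + 1) c d) (fun a b c d => g a (b + 1) c d),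
      Q_lin ys x (fun a b c d => f a b (c + 1) d) (fun a b c d => g a b (c + 1) d),
      Q_lin ys x (fun a b c d => f a b c (d + 1)) (fun a b c d => g a b c (d + 1))]
    ring

theorem qpos : QposSt := by
  intro f ys
  induction ys generalizing f with
  | nil => intro _ h; exact h 0 0 0 0 rfl
  | cons y ys ih =>
    intro hy h
    have hy0 : 0 ≤ y := hy y List.mem_cons_self
    have hy' : ∀ z ∈ ys, 0 ≤ z := fun z hz => hy z (List.mem_cons_of_mem _ hz)
    simp only [Q]
    have h0 := ih (fun a b c d => f (a + 1) b c d) hy' fun a b c d e => h _ _ _ _ (by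
      simp only [List.length_cons]; omega)
    have h1 := ih (fun a b c d => f a (b + 1) c d) hy' fun a b c d e => h _ _ _ _ (by
      simp only [List.length_cons]; omega)
    have h2 := ih (fun a b c d => f a b (c + 1) d) hy' fun a b c d e => h _ _ _ _ (by
      simp only [List.length_cons]; omega)
    have h3 := ih (fun a b c d => f a b c (d + 1)) hy' fun a b c d e => h _ _ _ _ (by
      simp only [List.length_cons]; omega)
    positivity

/-- Mixed second difference. -/
noncomputable def hh (y : ℝ) (g : Fn) : Fn := fun a b c d =>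
  (c : ℝ) * g a b (c - 1) d - 2 * y * ((b : ℝ) * g a (b - 1) c d)
    + y ^ 2 * ((a : ℝ) * g (a - 1) b c d)

noncomputable def ff (g : Fn) : Fn := fun a b c d =>
  (c : ℝ) * a * g (a - 1) b (c - 1) d - (b : ℝ) * (b - 1) * g a (b - 2) c d

theorem hh0 (y : ℝ) (g : Fn) : (fun a b c d => hh y g (a + 1) b c d)
    = fun a b c d => hh y (fun a b c d => g (a + 1) b c d) a b c d + y ^ 2 * g a b c d := by
  funext a b c d
  unfold hh
  rcases a with _ | a
  · simp
  · simp only [Nat.add_sub_cancel]; push_cast; ring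

theorem hh1 (y : ℝ) (g : Fn) : (fun a b c d => hh y g a (b + 1) c d)
    = fun a b c d => hh y (fun a b c d => g a (b + 1) c d) a b c d + (- 2 * y) * g a b c d := by
  funext a b c d
  unfold hh
  rcases b with _ | b
  · simp; ring
  · simp only [Nat.add_sub_cancel]; push_cast; ring

theorem hh2 (y : ℝ) (g : Fn) : (fun a b c d => hh y g a b (c + 1) d)
    = fun a b c d => hh y (fun a b c d => g a b (c + 1) d) a b c d + 1 * g a b c d := by
  funext a b c d
  unfold hh
  rcases c with _ | c
  · simp; ring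
  · simp only [Nat.add_sub_cancel]; push_cast; ring

theorem ff0 (g : Fn) : (fun a b c d => ff g (a + 1) b c d)
    = fun a b c d => ff (fun a b c d => g (a + 1) b c d) a b c d
        + 1 * ((c : ℝ) * g a b (c - 1) d) := by
  funext a b c d
  unfold ff
  rcases a with _ | a
  · simp; ring
  · simp only [Nat.add_sub_cancel]; push_cast; ring

theorem ff1 (g : Fn) : (fun a b c d => ff g a (b + 1) c d)
    = fun a b c d => ff (fun a b c d => g a (b + 1) c d) a b c d
        + (-2) * ((b : ℝ) * g a (b - 1) c d) := by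
  funext a b c d
  unfold ff
  rcases b with _ | _ | b
  · simp
  · simp; ring
  · simp only [Nat.add_sub_cancel, show b + 1 + 1 + 1 - 2 = b + 1 by omega,
      show b + 1 + 1 - 2 = b by omega]
    push_cast; ring

theorem ff2 (g : Fn) : (fun a b c d => ff g a b (c + 1) d)
    = fun a b c d => ff (fun a b c d => g a b (c + 1) d) a b c d
        + 1 * ((a : ℝ) * g (a - 1) b c d) := by
  funext a b c d
  unfold ff
  rcases c with _ | c
  · simp; ring
  · simp only [Nat.add_sub_cancel]; push_cast; ring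

theorem hh_nonneg : ∀ (ys : List ℝ) (y : ℝ) (g : Fn), (∀ z ∈ ys, 0 ≤ z) →
    (∀ a b c d, 0 ≤ g a b c d) → 0 ≤ Q (hh y g) ys
  | [], y, g, _, _ => by simp [Q, hh]
  | z :: ys, y, g, hz, hg => by
    have hz0 : 0 ≤ z := hz z List.mem_cons_self
    have hz' : ∀ w ∈ ys, 0 ≤ w := fun w hw => hz w (List.mem_cons_of_mem _ hw)
    have i0 := hh_nonneg ys y (fun a b c d => g (a + 1) b c d) hz' fun a b c d => hg _ _ _ _
    have i1 := hh_nonneg ys y (fun a b c d => g a (b + 1) c d) hz' fun a b c d => hg _ _ _ _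
    have i2 := hh_nonneg ys y (fun a b c d => g a b (c + 1) d) hz' fun a b c d => hg _ _ _ _
    have i3 := hh_nonneg ys y (fun a b c d => g a b c (d + 1)) hz' fun a b c d => hg _ _ _ _
    have hq : 0 ≤ Q g ys := qpos g ys hz' fun a b c d _ => hg _ _ _ _
    simp only [Q]
    rw [hh0, hh1, hh2, Q_lin, Q_lin, Q_lin]
    have e : (fun a b c d => hh y g a b c (d + 1)) = hh y (fun a b c d => g a b c (d + 1)) := rfl
    rw [e]
    have h1 : 0 ≤ z * Q (hh y (fun a b c d => g a (b + 1) c d)) ys := mul_nonneg hz0 i1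
    have h2 : 0 ≤ z ^ 2 * Q (hh y (fun a b c d => g a b (c + 1) d)) ys :=
      mul_nonneg (by positivity) i2
    have h3 : 0 ≤ z ^ 3 * Q (hh y (fun a b c d => g a b c (d + 1))) ys :=
      mul_nonneg (by positivity) i3
    have h4 : 0 ≤ (y - z) ^ 2 * Q g ys := mul_nonneg (by positivity) hq
    have e0 : (fun a b c d => hh y (fun a b c d => g (a + 1) b c d) a b c d)
        = hh y (fun a b c d => g (a + 1) b c d) := rfl
    nlinarith [i0, h1, h2, h3, h4]

theorem ff_nonneg : ∀ (ys : List ℝ) (g : Fn), (∀ z ∈ ys, 0 ≤ z) →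
    (∀ a b c d, 0 ≤ g a b c d) → 0 ≤ Q (ff g) ys
  | [], g, _, _ => by simp [Q, ff]
  | y :: ys, g, hz, hg => by
    have hz0 : 0 ≤ y := hz y List.mem_cons_self
    have hz' : ∀ w ∈ ys, 0 ≤ w := fun w hw => hz w (List.mem_cons_of_mem _ hw)
    have i0 := ff_nonneg ys (fun a b c d => g (a + 1) b c d) hz' fun a b c d => hg _ _ _ _
    have i1 := ff_nonneg ys (fun a b c d => g a (b + 1) c d) hz' fun a b c d => hg _ _ _ _
    have i2 := ff_nonneg ys (fun a b c d => g a b (c + 1) d) hz' fun a b c d => hg _ _ _ _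
    have i3 := ff_nonneg ys (fun a b c d => g a b c (d + 1)) hz' fun a b c d => hg _ _ _ _
    have hH := hh_nonneg ys y g hz' hg
    have eH : hh y g = fun (a b c d : ℕ) => ((c : ℝ) * g a b (c - 1) d
        + (- 2 * y) * ((b : ℝ) * g a (b - 1) c d)) + y ^ 2 * ((a : ℝ) * g (a - 1) b c d) := by
      funext a b c d
      unfold hh; ring
    rw [eH, Q_lin ys (y ^ 2), Q_lin ys (-2 * y)] at hH
    simp only [Q]
    rw [ff0, ff1, ff2, Q_lin, Q_lin, Q_lin]
    have e : (fun a b c d => ff g a b c (d + 1)) = ff (fun a b c d => g a b c (d + 1)) := rfl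
    rw [e]
    have h1 : 0 ≤ y * Q (ff (fun a b c d => g a (b + 1) c d)) ys := mul_nonneg hz0 i1
    have h2 : 0 ≤ y ^ 2 * Q (ff (fun a b c d => g a b (c + 1) d)) ys :=
      mul_nonneg (by positivity) i2
    have h3 : 0 ≤ y ^ 3 * Q (ff (fun a b c d => g a b c (d + 1))) ys :=
      mul_nonneg (by positivity) i3
    linarith [i0, h1, h2, h3, hH]

theorem excOk : ExcSt := by
  intro m ys hy
  obtain ⟨m0, m1, m2, m3⟩ := m
  have e : (fun a b c d => (exc (m0, m1, m2, m3) (a, b, c, d) : ℝ))
      = ff (fun a b c d => if a = m0 ∧ b = m1 ∧ c = m2 ∧ d = m3 then 1 else 0) := by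
    funext a b c d
    unfold ff exc
    simp only [Prod.mk.injEq]
    by_cases h1 : a = m0 + 1 ∧ b = m1 ∧ c = m2 + 1 ∧ d = m3
    · obtain ⟨rfl, rfl, rfl, rfl⟩ := h1
      simp
    · rw [if_neg h1]
      by_cases h2 : a = m0 ∧ b = m1 + 2 ∧ c = m2 ∧ d = m3
      · obtain ⟨rfl, rfl, rfl, rfl⟩ := h2
        have z0 : (c : ℝ) * a * (if a - 1 = a ∧ m1 + 2 = m1 ∧ c - 1 = c ∧ d = d then 1 else 0) = 0 := by
          rw [if_neg (by omega)]; simp
        rw [z0, if_pos ⟨rfl, rfl, rfl, rfl⟩, if_pos (by simp)]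
        push_cast
        ring
      · rw [if_neg h2]
        have z1 : (c : ℝ) * a * (if a - 1 = m0 ∧ b = m1 ∧ c - 1 = m2 ∧ d = m3 then 1 else 0) = 0 := by
          rcases a with _ | a
          · simp
          rcases c with _ | c
          · simp
          rw [if_neg (by intro h; exact h1 ⟨by omega, h.2.1, by omega, h.2.2.2⟩)]
          simp
        have z2 : (b : ℝ) * (b - 1) * (if a = m0 ∧ b - 2 = m1 ∧ c = m2 ∧ d = m3 then 1 else 0) = 0 := by
          rcases b with _ | _ | b
          · simp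
          · simp
          rw [if_neg (by intro h; exact h2 ⟨h.1, by omega, h.2.2.1, h.2.2.2⟩)]
          simp
        rw [z1, z2]; simp
  rw [e]
  exact ff_nonneg ys _ hy fun a b c d => by split_ifs <;> norm_num

end Pool.Agent.H52.O4.XB
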