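import Pool.Agent.H52.O4.Spec

/-!
# Order four: assembly
-/

set_option autoImplicit false

namespace Pool.Agent.H52.O4

/-! ### linearity and locality of the operators -/

private theorem main_opW_lin (t : List ℕ) : ∀ (W : ℕ → ℕ → ℝ) (ℓ ℓ' : List ℕ → ℝ) (c : ℝ),
    opW W (fun s => ℓ s + c * ℓ' s) t = opW W ℓ t + c * opW W ℓ' t := by
  induction t with
  | nil => intro W ℓ ℓ' c; simp only [opW]; ring
  | cons n t ih =>
    intro W ℓ ℓ' c
    simp only [opW]
    rw [ih W (fun s => ℓ (n :: s)) (fun s => ℓ' (n :: s)) c,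
      ih (fun l i => W l (i + 1)) (fun s => ℓ ((n + 8) :: s)) (fun s => ℓ' ((n + 8) :: s)) c]
    split_ifs
    · ring
    · rw [ih (fun l i => W (l + 1) i) (fun s => ℓ ((n - 1) :: s)) (fun s => ℓ' ((n - 1) :: s)) c]
      ring

private theorem main_opW_congr (t : List ℕ) : ∀ (W : ℕ → ℕ → ℝ) (ℓ ℓ' : List ℕ → ℝ),
    (∀ s : List ℕ, s.length = t.length → ℓ s = ℓ' s) → opW W ℓ t = opW W ℓ' t := by
  induction t with
  | nil => intro W ℓ ℓ' h; simp only [opW]; rw [h [] rfl]
  | cons n t ih =>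
    intro W ℓ ℓ' h
    simp only [opW]
    rw [ih W (fun s => ℓ (n :: s)) (fun s => ℓ' (n :: s)) (fun s hs => h _ (by simp [hs])),
      ih (fun l i => W l (i + 1)) (fun s => ℓ ((n + 8) :: s)) (fun s => ℓ' ((n + 8) :: s))
        (fun s hs => h _ (by simp [hs])),
      ih (fun l i => W (l + 1) i) (fun s => ℓ ((n - 1) :: s)) (fun s => ℓ' ((n - 1) :: s))
        (fun s hs => h _ (by simp [hs]))]

/-- Agreement on tuples of length at most four. -/
private def main_Ag (ℓ ℓ' : List ℕ → ℝ) : Prop := ∀ t : List ℕ, t.length ≤ 4 → ℓ t = ℓ' t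

private theorem main_Ag_opX (j : ℕ) {ℓ ℓ' : List ℕ → ℝ} (h : main_Ag ℓ ℓ') :
    main_Ag (opX j ℓ) (opX j ℓ') := by
  intro t ht
  exact main_opW_congr t _ _ _ (fun s hs => h s (by omega))

private theorem main_Ag_iter (j m : ℕ) : ∀ {ℓ ℓ' : List ℕ → ℝ}, main_Ag ℓ ℓ' →
    main_Ag ((opX j)^[m] ℓ) ((opX j)^[m] ℓ') := by
  induction m with
  | zero => intro ℓ ℓ' h; exact h
  | succ m ih =>
    intro ℓ ℓ' h
    rw [Function.iterate_succ_apply, Function.iterate_succ_apply]
    exact ih (main_Ag_opX j h)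

private theorem main_Ag_opC (a b c d : ℕ) {ℓ ℓ' : List ℕ → ℝ} (h : main_Ag ℓ ℓ') :
    main_Ag (opC a b c d ℓ) (opC a b c d ℓ') :=
  main_Ag_iter 0 a (main_Ag_iter 1 b (main_Ag_iter 2 c (main_Ag_iter 3 d h)))

private theorem main_opX_lin (j : ℕ) (ℓ ℓ' : List ℕ → ℝ) (c : ℝ) :
    opX j (fun s => ℓ s + c * ℓ' s) = fun t => opX j ℓ t + c * opX j ℓ' t := by
  funext t
  exact main_opW_lin t _ ℓ ℓ' c

private theorem main_iter_lin (j m : ℕ) : ∀ (ℓ ℓ' : List ℕ → ℝ) (c : ℝ),
    (opX j)^[m] (fun s => ℓ s + c * ℓ' s)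
      = fun t => (opX j)^[m] ℓ t + c * (opX j)^[m] ℓ' t := by
  induction m with
  | zero => intro ℓ ℓ' c; rfl
  | succ m ih =>
    intro ℓ ℓ' c
    rw [Function.iterate_succ_apply, main_opX_lin, ih]
    rfl

private theorem main_opC_lin (a b c d : ℕ) (ℓ ℓ' : List ℕ → ℝ) (x : ℝ) :
    opC a b c d (fun s => ℓ s + x * ℓ' s)
      = fun t => opC a b c d ℓ t + x * opC a b c d ℓ' t := by
  simp only [opC]
  rw [main_iter_lin, main_iter_lin, main_iter_lin, main_iter_lin]

/-! ### sem -/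

private theorem main_sem_lin (p u : ℝ) (ℓ ℓ' : List ℕ → ℝ) (c : ℝ) (S : St) :
    sem p u (fun t => ℓ t + c * ℓ' t) S = sem p u ℓ S + c * sem p u ℓ' S := by
  induction S with
  | nil => simp [sem]
  | cons x S ih =>
    simp only [sem, List.map_cons, List.sum_cons] at ih ⊢
    rw [ih]; ring

private theorem main_sem_congr (p u : ℝ) {ℓ ℓ' : List ℕ → ℝ} {S : St}
    (hS : ∀ x ∈ S, x.2.length ≤ 4) (h : main_Ag ℓ ℓ') : sem p u ℓ S = sem p u ℓ' S := by
  unfold sem
  congr 1
  apply List.map_congr_left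
  intro x hx
  rw [h _ (hS x hx)]

private theorem main_sem_filter (p u : ℝ) (ℓ : List ℕ → ℝ) (h : ∀ t, isB t = false → ℓ t = 0)
    (S : St) : sem p u ℓ S = sem p u ℓ (S.filter fun x => isB x.2) := by
  induction S with
  | nil => rfl
  | cons x S ih =>
    rcases hb : isB x.2 with _ | _
    · rw [List.filter_cons_of_neg (by simp [hb]), ← ih]
      simp only [sem, List.map_cons, List.sum_cons]
      rw [h _ hb]; ring
    · rw [List.filter_cons_of_pos (by simpa using hb)]
      simp only [sem, List.map_cons, List.sum_cons] at ih ⊢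
      rw [ih]

/-! ### Q -/

private theorem main_Q_congr (ys : List ℝ) : ∀ (f g : ℕ → ℕ → ℕ → ℕ → ℝ),
    (∀ a b c d, a + b + c + d = ys.length → f a b c d = g a b c d) → Q f ys = Q g ys := by
  induction ys with
  | nil => intro f g h; exact h 0 0 0 0 rfl
  | cons y ys ih =>
    intro f g h
    simp only [Q]
    rw [ih (fun a b c d => f (a + 1) b c d) (fun a b c d => g (a + 1) b c d)
        (fun a b c d hh => h _ _ _ _ (by simp only [List.length_cons]; omega)),
      ih (fun a b c d => f a (b + 1) c d) (fun a b c d => g a (b + 1) c d)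
        (fun a b c d hh => h _ _ _ _ (by simp only [List.length_cons]; omega)),
      ih (fun a b c d => f a b (c + 1) d) (fun a b c d => g a b (c + 1) d)
        (fun a b c d hh => h _ _ _ _ (by simp only [List.length_cons]; omega)),
      ih (fun a b c d => f a b c (d + 1)) (fun a b c d => g a b c (d + 1))
        (fun a b c d hh => h _ _ _ _ (by simp only [List.length_cons]; omega))]

private theorem main_Q_lin (ys : List ℝ) : ∀ (f g : ℕ → ℕ → ℕ → ℕ → ℝ) (x : ℝ),
    Q (fun a b c d => f a b c d + x * g a b c d) ys = Q f ys + x * Q g ys := by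
  induction ys with
  | nil => intro f g x; rfl
  | cons y ys ih =>
    intro f g x
    simp only [Q]
    rw [ih (fun a b c d => f (a + 1) b c d) (fun a b c d => g (a + 1) b c d),
      ih (fun a b c d => f a (b + 1) c d) (fun a b c d => g a (b + 1) c d),
      ih (fun a b c d => f a b (c + 1) d) (fun a b c d => g a b (c + 1) d),
      ih (fun a b c d => f a b c (d + 1)) (fun a b c d => g a b c (d + 1))]
    ring

private theorem main_Q_zero (ys : List ℝ) : Q (fun _ _ _ _ => 0) ys = 0 := by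
  induction ys with
  | nil => rfl
  | cons y ys ih => simp only [Q]; rw [ih]; ring

/-- A combination of the exchange functionals. -/
private theorem main_Q_table (he : ExcSt) (p u : ℝ) (ℓ : List ℕ → ℝ) (ys : List ℝ)
    (hys : ∀ y ∈ ys, 0 ≤ y) (G : Gt) (hG : ∀ g ∈ G, 0 ≤ ev p u g.2.1 * ℓ g.2.2) :
    0 ≤ Q (fun a b c d => (G.map fun g =>
      (exc g.1 (a, b, c, d) : ℝ) * (ev p u g.2.1 * ℓ g.2.2)).sum) ys := by
  induction G with
  | nil => simp only [List.map_nil, List.sum_nil]; rw [main_Q_zero]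
  | cons g G ih =>
    have h1 : Q (fun a b c d => ((g :: G).map fun g =>
        (exc g.1 (a, b, c, d) : ℝ) * (ev p u g.2.1 * ℓ g.2.2)).sum) ys
        = Q (fun a b c d => (G.map fun g =>
          (exc g.1 (a, b, c, d) : ℝ) * (ev p u g.2.1 * ℓ g.2.2)).sum) ys
          + (ev p u g.2.1 * ℓ g.2.2) * Q (fun a b c d => (exc g.1 (a, b, c, d) : ℝ)) ys := by
      rw [← main_Q_lin]
      apply main_Q_congr
      intro a b c d _
      simp only [List.map_cons, List.sum_cons]
      ring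
    rw [h1]
    have h2 := ih (fun g' hg' => hG g' (List.mem_cons_of_mem _ hg'))
    have h3 := mul_nonneg (hG g (List.mem_cons_self)) (he g.1 ys hys)
    linarith

/-! ### the pairing -/

/-- The value of the word `ys` of added forms on the state `S`. -/
private noncomputable def main_P (p u : ℝ) (S : St) (ys : List ℝ) (ℓ : List ℕ → ℝ) : ℝ :=
  Q (fun a b c d => sem p u (opC a b c d ℓ) S) ys

private theorem main_P_lin (p u : ℝ) (S : St) (ys : List ℝ) (ℓ ℓ' : List ℕ → ℝ) (c : ℝ) :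
    main_P p u S ys (fun t => ℓ t + c * ℓ' t) = main_P p u S ys ℓ + c * main_P p u S ys ℓ' := by
  unfold main_P
  rw [← main_Q_lin]
  apply main_Q_congr
  intro a b c' d _
  rw [main_opC_lin, main_sem_lin]

private theorem main_P_congr (p u : ℝ) {S : St} (hS : ∀ x ∈ S, x.2.length ≤ 4) (ys : List ℝ)
    {ℓ ℓ' : List ℕ → ℝ} (h : main_Ag ℓ ℓ') : main_P p u S ys ℓ = main_P p u S ys ℓ' := by
  unfold main_P
  apply main_Q_congr
  intro a b c d _
  exact main_sem_congr p u hS (main_Ag_opC a b c d h)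

private theorem main_P_nil (p u : ℝ) (S : St) (ℓ : List ℕ → ℝ) :
    main_P p u S [] ℓ = sem p u ℓ S := rfl

private theorem main_comm (hc : ComSt) (i j m : ℕ) (ℓ : List ℕ → ℝ) :
    (opX i)^[m] (opX j ℓ) = opX j ((opX i)^[m] ℓ) := by
  have h : Function.Commute (opX i) (opX j) := fun ℓ => hc _ _ ℓ
  exact h.iterate_left m ℓ

private theorem main_P_cons (hc : ComSt) (p u : ℝ) (S : St) (y : ℝ) (ys : List ℝ)
    (ℓ : List ℕ → ℝ) : main_P p u S (y :: ys) ℓ = main_P p u S ys (opX 0 ℓ)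
      + y * main_P p u S ys (opX 1 ℓ) + y ^ 2 * main_P p u S ys (opX 2 ℓ)
      + y ^ 3 * main_P p u S ys (opX 3 ℓ) := by
  have h0 : ∀ a b c d, opC (a + 1) b c d ℓ = opC a b c d (opX 0 ℓ) := by
    intro a b c d
    simp only [opC]
    rw [main_comm hc 3 0, main_comm hc 2 0, main_comm hc 1 0, Function.iterate_succ_apply]
  have h1 : ∀ a b c d, opC a (b + 1) c d ℓ = opC a b c d (opX 1 ℓ) := by
    intro a b c d
    simp only [opC]
    rw [main_comm hc 3 1, main_comm hc 2 1, Function.iterate_succ_apply]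
  have h2 : ∀ a b c d, opC a b (c + 1) d ℓ = opC a b c d (opX 2 ℓ) := by
    intro a b c d
    simp only [opC]
    rw [main_comm hc 3 2, Function.iterate_succ_apply]
  have h3 : ∀ a b c d, opC a b c (d + 1) ℓ = opC a b c d (opX 3 ℓ) := by
    intro a b c d
    simp only [opC]
    rw [Function.iterate_succ_apply]
  simp only [main_P, Q, h0, h1, h2, h3]

/-- Adding a form. -/
private theorem main_P_step (hc : ComSt) (hvs : ValStepSt) (p u : ℝ) {S : St}
    (hS : ∀ x ∈ S, x.2.length ≤ 4) (ys G F : List ℝ) (κ : ℕ) (y : ℝ) :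
    main_P p u S ys (val G (y :: F) κ) = main_P p u S ys (val (y :: G) F κ)
      + (1 + y) * main_P p u S (y :: ys) (val G F κ) := by
  have h1 : main_Ag (val G (y :: F) κ) (fun t => val (y :: G) F κ t + (1 + y) *
      ((fun t => (fun t => (fun t => opX 0 (val G F κ) t + y * opX 1 (val G F κ) t) t
        + y ^ 2 * opX 2 (val G F κ) t) t + y ^ 3 * opX 3 (val G F κ) t) t)) := by
    intro t ht
    exact hvs G F κ y t ht
  rw [main_P_congr p u hS ys h1, main_P_lin, main_P_cons hc, main_P_lin, main_P_lin, main_P_lin]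

/-! ### alternating functionals -/

private theorem main_Alt_iter (ha : AltSt) (j m : ℕ) : ∀ {ℓ : List ℕ → ℝ}, Alt ℓ →
    Alt ((opX j)^[m] ℓ) := by
  induction m with
  | zero => intro ℓ h; exact h
  | succ m ih =>
    intro ℓ h
    rw [Function.iterate_succ_apply]
    exact ih (ha _ _ h)

private theorem main_sem_iter (ha : AltSt) (hx : XopSt) (p u : ℝ) (j m : ℕ) :
    ∀ {ℓ : List ℕ → ℝ} (S : St), Alt ℓ →
    sem p u ℓ ((xop j)^[m] S) = sem p u ((opX j)^[m] ℓ) S := by
  induction m with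
  | zero => intro ℓ S h; rfl
  | succ m ih =>
    intro ℓ S h
    rw [Function.iterate_succ_apply', hx p u j ℓ _ h,
      ih S (show Alt (opX j ℓ) from ha _ _ h), Function.iterate_succ_apply]

private theorem main_sem_opC (ha : AltSt) (hx : XopSt) (p u : ℝ) {ℓ : List ℕ → ℝ} (S : St)
    (h : Alt ℓ) (a b c d : ℕ) :
    sem p u (opC a b c d ℓ) S = sem p u ℓ (stc S a b c d) := by
  have h3 := main_Alt_iter ha 3 d h
  have h2 := main_Alt_iter ha 2 c h3
  have h1 := main_Alt_iter ha 1 b h2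
  unfold opC stc
  rw [main_sem_iter ha hx p u 3 d _ h, main_sem_iter ha hx p u 2 c _ h3,
    main_sem_iter ha hx p u 1 b _ h2, main_sem_iter ha hx p u 0 a _ h1]

/-! ### the induction -/

private theorem main_P_top (ha : AltSt) (hx : XopSt) (p u : ℝ) {ℓ : List ℕ → ℝ} (S : St)
    (h : Alt ℓ) (ys : List ℝ)
    (hS : ∀ a b c d, a + b + c + d = ys.length → stc S a b c d = []) :
    main_P p u S ys ℓ = 0 := by
  unfold main_P
  rw [← main_Q_zero ys]
  apply main_Q_congr
  intro a b c d habcd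
  rw [main_sem_opC ha hx p u S h, hS a b c d habcd]
  simp [sem]

private theorem main_P_base (ha : AltSt) (hx : XopSt) (hq : QposSt) (he : ExcSt) (ho : OkSt)
    (p u : ℝ) (hp : 0 ≤ p) (hu : 0 ≤ u) {ℓ : List ℕ → ℝ} (S : St) (h : Alt ℓ)
    (hz : ∀ t, isB t = false → ℓ t = 0) (hn : ∀ t, isS t = true → isB t = true → 0 ≤ ℓ t)
    (ys : List ℝ) (hys : ∀ y ∈ ys, 0 ≤ y) (T : Gt)
    (hT : ∀ g ∈ T, 0 ≤ ev p u g.2.1 ∧ isS g.2.2 = true ∧ isB g.2.2 = true)
    (hok : ∀ a b c d, a + b + c + d = ys.length → okAt T (stc S a b c d) (a, b, c, d) = true) :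
    0 ≤ main_P p u S ys ℓ := by
  have h1 := main_Q_table he p u ℓ ys hys T (fun g hg =>
    mul_nonneg (hT g hg).1 (hn _ (hT g hg).2.1 (hT g hg).2.2))
  have h2 : 0 ≤ Q (fun a b c d => sem p u (opC a b c d ℓ) S + (-1) * (T.map fun g =>
      (exc g.1 (a, b, c, d) : ℝ) * (ev p u g.2.1 * ℓ g.2.2)).sum) ys := by
    apply hq _ _ hys
    intro a b c d habcd
    have h3 := ho p u ℓ T (stc S a b c d) (a, b, c, d) hp hu hz hn (hok a b c d habcd)
    rw [main_sem_opC ha hx p u S h]
    linarith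
  rw [main_Q_lin] at h2
  unfold main_P
  linarith

private theorem main_P_nonneg (ha : AltSt) (hc : ComSt) (hx : XopSt) (hva : ValAltSt)
    (hvs : ValStepSt) (hvz : ValZeroSt) (hpf : PfSt) (hq : QposSt) (he : ExcSt) (hr : RunSt)
    (ho : OkSt) (p u : ℝ) (hp : 0 ≤ p) (hu : 0 ≤ u) (S : St) (hS : ∀ x ∈ S, x.2.length ≤ 4)
    (T : Gt) (hT : ∀ g ∈ T, 0 ≤ ev p u g.2.1 ∧ isS g.2.2 = true ∧ isB g.2.2 = true) (n : ℕ)
    (hrun : runA T n S 0 = true) (κ : ℕ) (F : List ℝ) : ∀ (G ys : List ℝ),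
    (∀ y ∈ F, 0 ≤ y) → (∀ y ∈ G, 0 ≤ y) → (∀ y ∈ ys, 0 ≤ y) → ys.length ≤ n →
    0 ≤ main_P p u S ys (val G F κ) := by
  obtain ⟨hr1, hr2⟩ := hr T n S hrun
  induction F with
  | nil =>
    intro G ys _ hG hys hn
    rcases Nat.lt_or_ge ys.length n with hlt | hge
    · exact main_P_base ha hx hq he ho p u hp hu S (hva G [] κ) (fun t ht => hvz G κ t ht)
        (fun t h1 h2 => hpf G κ t hG h1 h2) ys hys T hT
        (fun a b c d habcd => hr1 a b c d (by omega))
    · rw [main_P_top ha hx p u S (hva G [] κ) ys (fun a b c d habcd => hr2 a b c d (by omega))]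
  | cons y F ih =>
    intro G ys hF hG hys hn
    have hy : 0 ≤ y := hF y List.mem_cons_self
    have hF' : ∀ z ∈ F, 0 ≤ z := fun z hz => hF z (List.mem_cons_of_mem _ hz)
    rcases Nat.lt_or_ge ys.length n with hlt | hge
    · rw [main_P_step hc hvs p u hS]
      have h1 := ih (y :: G) ys hF' (by
        intro z hz
        rcases List.mem_cons.mp hz with rfl | hz
        · exact hy
        · exact hG z hz) hys hn
      have h2 := ih G (y :: ys) hF' hG (by
        intro z hz
        rcases List.mem_cons.mp hz with rfl | hz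
        · exact hy
        · exact hys z hz) (by simp only [List.length_cons]; omega)
      have h3 := mul_nonneg (by linarith : (0 : ℝ) ≤ 1 + y) h2
      linarith
    · rw [main_P_top ha hx p u S (hva G (y :: F) κ) ys
        (fun a b c d habcd => hr2 a b c d (by omega))]

private theorem main_P_pos (ha : AltSt) (hc : ComSt) (hx : XopSt) (hva : ValAltSt)
    (hvs : ValStepSt) (hvz : ValZeroSt) (hpf : PfSt) (hq : QposSt) (he : ExcSt) (hr : RunSt)
    (ho : OkSt) (p u : ℝ) (hp : 0 ≤ p) (hu : 0 ≤ u) (S : St) (hS : ∀ x ∈ S, x.2.length ≤ 4)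
    (T : Gt) (hT : ∀ g ∈ T, 0 ≤ ev p u g.2.1 ∧ isS g.2.2 = true ∧ isB g.2.2 = true) (n : ℕ)
    (hn : 1 ≤ n) (hrun : runA T n S 0 = true) (κ : ℕ)
    (hbase : ∀ G : List ℝ, (∀ y ∈ G, 0 < y) → κ ≤ G.length → 0 < sem p u (val G [] κ) S)
    (F : List ℝ) : ∀ (G : List ℝ), (∀ y ∈ F, 0 < y) → (∀ y ∈ G, 0 < y) →
    κ ≤ G.length + F.length → 0 < sem p u (val G F κ) S := by
  induction F with
  | nil =>
    intro G _ hG hκ
    exact hbase G hG (by simpa using hκ)
  | cons y F ih =>
    intro G hF hG hκ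
    have hy : 0 < y := hF y List.mem_cons_self
    have hF' : ∀ z ∈ F, 0 < z := fun z hz => hF z (List.mem_cons_of_mem _ hz)
    have h0 := main_P_step hc hvs p u hS [] G F κ y
    rw [main_P_nil, main_P_nil] at h0
    have h1 := ih (y :: G) hF' (by
      intro z hz
      rcases List.mem_cons.mp hz with rfl | hz
      · exact hy
      · exact hG z hz) (by simp only [List.length_cons] at hκ ⊢; omega)
    have h2 := main_P_nonneg ha hc hx hva hvs hvz hpf hq he hr ho p u hp hu S hS T hT n hrun κ F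
      G [y] (fun z hz => (hF' z hz).le) (fun z hz => (hG z hz).le)
      (by intro z hz; rw [List.mem_singleton] at hz; subst hz; exact hy.le) (by simpa using hn)
    have h3 := mul_nonneg (by linarith : (0 : ℝ) ≤ 1 + y) h2
    linarith

/-! ### values of coefficient lists -/

private theorem main_evAux_nonneg {p u : ℝ} (hp : 0 ≤ p) (hu : 0 ≤ u) (v : List ℤ) :
    ∀ i j : ℕ, (∀ x ∈ v, 0 ≤ x) → 0 ≤ evAux p u i j v := by
  induction v with
  | nil => intro i j _; simp [evAux]
  | cons x v ih =>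
    intro i j h
    have hx : (0 : ℝ) ≤ (x : ℝ) := by exact_mod_cast h x List.mem_cons_self
    have hv : ∀ z ∈ v, 0 ≤ z := fun z hz => h z (List.mem_cons_of_mem _ hz)
    simp only [evAux]
    have h1 : 0 ≤ (x : ℝ) * (p ^ i * u ^ j) := by positivity
    split_ifs
    · exact add_nonneg h1 (ih 0 (i + 1) hv)
    · exact add_nonneg h1 (ih (i + 1) (j - 1) hv)

private theorem main_ev_nonneg {p u : ℝ} (hp : 0 ≤ p) (hu : 0 ≤ u) (v : List ℤ)
    (h : vnn v = true) : 0 ≤ ev p u v := by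
  apply main_evAux_nonneg hp hu
  intro x hx
  simpa using (List.all_eq_true.mp h) x hx

private theorem main_ev_pos {p u : ℝ} (hp : 0 ≤ p) (hu : 0 ≤ u) (v : List ℤ)
    (h : vnn v = true) : 0 < ev p u (1 :: v) := by
  have h1 : ev p u (1 :: v) = 1 + evAux p u 0 1 v := by simp [ev, evAux]
  have h2 : 0 ≤ evAux p u 0 1 v := by
    apply main_evAux_nonneg hp hu
    intro x hx
    simpa using (List.all_eq_true.mp h) x hx
  rw [h1]; linarith

private theorem main_len3 : ∀ x ∈ om3, x.2.length ≤ 4 := by decide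
private theorem main_len4 : ∀ x ∈ om4, x.2.length ≤ 4 := by decide

private theorem main_tab : ∀ g ∈ gtab4, vnn g.2.1 = true ∧ isS g.2.2 = true ∧ isB g.2.2 = true := by
  decide

private theorem main_base3 (hvz : ValZeroSt) (hpp : PfPosSt) (p u : ℝ) (hp : 0 ≤ p) (hu : 0 ≤ u)
    (κ : ℕ) (G : List ℝ) (hG : ∀ y ∈ G, 0 < y) (hκ : κ ≤ G.length) :
    0 < sem p u (val G [] κ) om3 := by
  have hf : (om3.filter fun x => isB x.2) = [([1,4,3,5,8,3,2,5,4,1], [0,8,16])] := by decide
  rw [main_sem_filter p u _ (fun t ht => hvz G κ t ht), hf]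
  have h1 := hpp G κ 3 hG hκ
  have h2 : (List.range 3).map (fun a => 8 * a) = [0,8,16] := by decide
  rw [h2] at h1
  simp only [sem, List.map_cons, List.map_nil, List.sum_cons, List.sum_nil, add_zero]
  exact mul_pos (main_ev_pos hp hu _ (by decide)) h1

private theorem main_base4 (hvz : ValZeroSt) (hpp : PfPosSt) (p u : ℝ) (hp : 0 ≤ p) (hu : 0 ≤ u)
    (κ : ℕ) (G : List ℝ) (hG : ∀ y ∈ G, 0 < y) (hκ : κ ≤ G.length) :
    0 < sem p u (val G [] κ) om4 := by
  have hf : (om4.filter fun x => isB x.2) = [([1,10,6,40,50,15,82,160,100,20,91,246,240,100,15,52,182,246,160,50,6,12,52,91,82,40,10,1], [0,8,16,24])] := by decide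
  rw [main_sem_filter p u _ (fun t ht => hvz G κ t ht), hf]
  have h1 := hpp G κ 4 hG hκ
  have h2 : (List.range 4).map (fun a => 8 * a) = [0,8,16,24] := by decide
  rw [h2] at h1
  simp only [sem, List.map_cons, List.map_nil, List.sum_cons, List.sum_nil, add_zero]
  exact mul_pos (main_ev_pos hp hu _ (by decide)) h1

/-- MAIN: the assembly. -/
theorem main_of (ha : AltSt) (hc : ComSt) (hx : XopSt) (hva : ValAltSt) (hvs : ValStepSt)
    (hvz : ValZeroSt) (hpf : PfSt) (hpp : PfPosSt) (hq : QposSt) (he : ExcSt) (hr : RunSt)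
    (ho : OkSt) (hrow : RowSt) (t3 : runA [] 4 om3 0 = true) (t4 : runA gtab4 7 om4 0 = true) :
    MainSt := by
  intro F p u κ hp hu
  obtain ⟨h3, h4⟩ := hrow F p u κ
  have hT3 : ∀ g ∈ ([] : Gt), 0 ≤ ev p u g.2.1 ∧ isS g.2.2 = true ∧ isB g.2.2 = true := by
    intro g hg; simp at hg
  have hT4 : ∀ g ∈ gtab4, 0 ≤ ev p u g.2.1 ∧ isS g.2.2 = true ∧ isB g.2.2 = true := by
    intro g hg
    obtain ⟨k1, k2, k3⟩ := main_tab g hg
    exact ⟨main_ev_nonneg hp hu _ k1, k2, k3⟩
  rw [h3, h4]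
  constructor
  · intro hF
    constructor
    · exact main_P_nonneg ha hc hx hva hvs hvz hpf hq he hr ho p u hp hu om3 main_len3 [] hT3 4
        t3 κ F [] [] hF (by simp) (by simp) (by simp)
    · exact main_P_nonneg ha hc hx hva hvs hvz hpf hq he hr ho p u hp hu om4 main_len4 gtab4 hT4 7
        t4 κ F [] [] hF (by simp) (by simp) (by simp)
  · intro hF hκ
    constructor
    · exact main_P_pos ha hc hx hva hvs hvz hpf hq he hr ho p u hp hu om3 main_len3 [] hT3 4
        (by norm_num) t3 κ (fun G hG hκ' => main_base3 hvz hpp p u hp hu κ G hG hκ') F [] hF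
        (by simp) (by simpa using hκ)
    · exact main_P_pos ha hc hx hva hvs hvz hpf hq he hr ho p u hp hu om4 main_len4 gtab4 hT4 7
        (by norm_num) t4 κ (fun G hG hκ' => main_base4 hvz hpp p u hp hu κ G hG hκ') F [] hF
        (by simp) (by simpa using hκ)

/-- MAIN under the name of helper52's own version. -/
theorem MB.main_of (ha : AltSt) (hc : ComSt) (hx : XopSt) (hva : ValAltSt) (hvs : ValStepSt)
    (hvz : ValZeroSt) (hpf : PfSt) (hpp : PfPosSt) (hq : QposSt) (he : ExcSt) (hr : RunSt)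
    (ho : OkSt) (hrow : RowSt) (t3 : runA [] 4 om3 0 = true) (t4 : runA gtab4 7 om4 0 = true) :
    MainSt :=
  Pool.Agent.H52.O4.main_of ha hc hx hva hvs hvz hpf hpp hq he hr ho hrow t3 t4

end Pool.Agent.H52.O4
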