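import Pool.Agent.H52.O4.Spec
import Pool.Agent.H53.O4.Toe

/-!
# Order four: Toeplitz minors (parts PfSt, PfPosSt)
-/

set_option autoImplicit false

open Polynomial

namespace Pool.Agent.H52.O4

private theorem pf_gp (G : List ℝ) : gp G = (G.map fun y => 1 + C y * X).prod := by
  induction G with
  | nil => rfl
  | cons y G ih => rw [gp, ih, List.map_cons, List.prod_cons]

private theorem pf_rw0 (G : List ℝ) {n : ℕ} (h : n % 8 = 0) :
    rw0 G [] n = X ^ (n / 8) * (G.map fun y => 1 + C y * X).prod := by
  unfold rw0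
  rw [h, pf_gp]
  simp [fk]

private theorem pf_isS : ∀ t : List ℕ, isS t = true → t.Pairwise (· < ·)
  | [], _ => List.Pairwise.nil
  | [_], _ => List.pairwise_singleton _ _
  | n :: m :: t, h => by
    rw [isS, Bool.and_eq_true, decide_eq_true_eq] at h
    have ih := pf_isS (m :: t) h.2
    rw [List.pairwise_cons]
    refine ⟨?_, ih⟩
    intro a ha
    rcases List.mem_cons.mp ha with rfl | ha
    · exact h.1
    · exact h.1.trans ((List.pairwise_cons.mp ih).1 a ha)

private theorem pf_isB {t : List ℕ} (h : isB t = true) (i : Fin t.length) : t.get i % 8 = 0 := by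
  rw [isB, List.all_eq_true] at h
  have := h (t.get i) (List.get_mem t i)
  simpa using this

private theorem pf_val (G : List ℝ) (κ : ℕ) (t : List ℕ) (hB : ∀ i : Fin t.length, t.get i % 8 = 0) :
    val G [] κ t = Matrix.det (Matrix.of fun i j : Fin t.length =>
      ((X : ℝ[X]) ^ (t.get i / 8) * (G.map fun y => 1 + C y * X).prod).coeff (κ + (j : ℕ))) := by
  unfold val
  congr 1
  ext i j
  simp only [Matrix.of_apply]
  rw [pf_rw0 G (hB i)]

theorem pf : PfSt := by
  intro G κ t hG hS hB
  rw [pf_val G κ t (fun i => pf_isB hB i)]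
  apply H53.O4.toe_nonneg (fun i : Fin t.length => t.get i / 8) ?_ G hG κ
  intro i j hij
  have h1 := List.pairwise_iff_get.mp (pf_isS t hS) i j hij
  have h2 := pf_isB hB i
  have h3 := pf_isB hB j
  show t.get i / 8 < t.get j / 8
  omega

theorem pfPos : PfPosSt := by
  intro G κ m hG hκ
  have hget : ∀ i : Fin ((List.range m).map (fun a => 8 * a)).length,
      ((List.range m).map (fun a => 8 * a)).get i = 8 * (i : ℕ) := by
    intro i
    simp
  rw [pf_val G κ _ (fun i => by rw [hget]; omega)]
  have h := H53.O4.toe_pos (K := ((List.range m).map (fun a => 8 * a)).length) G hG κ hκ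
  refine lt_of_lt_of_eq h ?_
  congr 1
  ext i j
  simp only [Matrix.of_apply]
  rw [hget, Nat.mul_div_cancel_left _ (by norm_num)]

end Pool.Agent.H52.O4
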