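import Pool.Agent.H52.O4.Nrm

/-!
# Order four: soundness of the check (`RunSt`) and the meaning of `okAt` (`OkSt`)
-/

set_option autoImplicit false

namespace Pool.Agent.H52.O4

/-! ### soundness of the run -/

lemma run_D (G : Gt) (a b c : ℕ) : ∀ (n : ℕ) (S : St) (d : ℕ), runD G n S a b c d = true →
    (∀ k, k < n → okAt G ((xop 3)^[k] S) (a, b, c, d + k) = true) ∧ (xop 3)^[n] S = [] := by
  intro n
  induction n with
  | zero =>
    intro S d h
    refine ⟨fun k hk => absurd hk (by omega), ?_⟩
    simpa [runD] using h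
  | succ n ih =>
    intro S d h
    rw [runD, Bool.and_eq_true] at h
    obtain ⟨h1, h2⟩ := ih (xop 3 S) (d + 1) h.2
    refine ⟨?_, ?_⟩
    · intro k hk
      cases k with
      | zero => simpa using h.1
      | succ k =>
        rw [Function.iterate_succ_apply]
        have e : d + (k + 1) = d + 1 + k := by omega
        rw [e]
        exact h1 k (by omega)
    · rw [Function.iterate_succ_apply]
      exact h2

lemma run_C (G : Gt) (a b : ℕ) : ∀ (n : ℕ) (S : St) (c : ℕ), runC G n S a b c = true →
    (∀ j k, j + k < n → okAt G ((xop 3)^[k] ((xop 2)^[j] S)) (a, b, c + j, k) = true) ∧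
    (∀ j k, j + k = n → (xop 3)^[k] ((xop 2)^[j] S) = []) := by
  intro n
  induction n with
  | zero =>
    intro S c h
    refine ⟨fun j k hk => absurd hk (by omega), ?_⟩
    intro j k hjk
    obtain ⟨rfl, rfl⟩ : j = 0 ∧ k = 0 := by omega
    simpa [runC] using h
  | succ n ih =>
    intro S c h
    rw [runC, Bool.and_eq_true] at h
    obtain ⟨h1, h2⟩ := ih (xop 2 S) (c + 1) h.2
    obtain ⟨h3, h4⟩ := run_D G a b c (n + 1) S 0 h.1
    refine ⟨?_, ?_⟩
    · intro j k hjk
      cases j with
      | zero =>
        have := h3 k (by omega)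
        simpa using this
      | succ j =>
        rw [Function.iterate_succ_apply]
        have e : c + (j + 1) = c + 1 + j := by omega
        rw [e]
        exact h1 j k (by omega)
    · intro j k hjk
      cases j with
      | zero =>
        have e : k = n + 1 := by omega
        rw [e]
        simpa using h4
      | succ j =>
        rw [Function.iterate_succ_apply]
        exact h2 j k (by omega)

lemma run_B (G : Gt) (a : ℕ) : ∀ (n : ℕ) (S : St) (b : ℕ), runB G n S a b = true →
    (∀ i j k, i + j + k < n →
      okAt G ((xop 3)^[k] ((xop 2)^[j] ((xop 1)^[i] S))) (a, b + i, j, k) = true) ∧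
    (∀ i j k, i + j + k = n → (xop 3)^[k] ((xop 2)^[j] ((xop 1)^[i] S)) = []) := by
  intro n
  induction n with
  | zero =>
    intro S b h
    refine ⟨fun i j k hk => absurd hk (by omega), ?_⟩
    intro i j k hjk
    obtain ⟨rfl, rfl, rfl⟩ : i = 0 ∧ j = 0 ∧ k = 0 := by omega
    simpa [runB] using h
  | succ n ih =>
    intro S b h
    rw [runB, Bool.and_eq_true] at h
    obtain ⟨h1, h2⟩ := ih (xop 1 S) (b + 1) h.2
    obtain ⟨h3, h4⟩ := run_C G a b (n + 1) S 0 h.1
    refine ⟨?_, ?_⟩
    · intro i j k hjk
      cases i with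
      | zero =>
        have := h3 j k (by omega)
        simpa using this
      | succ i =>
        rw [Function.iterate_succ_apply]
        have e : b + (i + 1) = b + 1 + i := by omega
        rw [e]
        exact h1 i j k (by omega)
    · intro i j k hjk
      cases i with
      | zero =>
        have := h4 j k (by omega)
        simpa using this
      | succ i =>
        rw [Function.iterate_succ_apply]
        exact h2 i j k (by omega)

lemma run_A (G : Gt) : ∀ (n : ℕ) (S : St) (a : ℕ), runA G n S a = true →
    (∀ h i j k, h + i + j + k < n →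
      okAt G ((xop 3)^[k] ((xop 2)^[j] ((xop 1)^[i] ((xop 0)^[h] S)))) (a + h, i, j, k) = true) ∧
    (∀ h i j k, h + i + j + k = n →
      (xop 3)^[k] ((xop 2)^[j] ((xop 1)^[i] ((xop 0)^[h] S))) = []) := by
  intro n
  induction n with
  | zero =>
    intro S a h
    refine ⟨fun g i j k hk => absurd hk (by omega), ?_⟩
    intro g i j k hjk
    obtain ⟨rfl, rfl, rfl, rfl⟩ : g = 0 ∧ i = 0 ∧ j = 0 ∧ k = 0 := by omega
    simpa [runA] using h
  | succ n ih =>
    intro S a h
    rw [runA, Bool.and_eq_true] at h
    obtain ⟨h1, h2⟩ := ih (xop 0 S) (a + 1) h.2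
    obtain ⟨h3, h4⟩ := run_B G a (n + 1) S 0 h.1
    refine ⟨?_, ?_⟩
    · intro g i j k hjk
      cases g with
      | zero =>
        have := h3 i j k (by omega)
        simpa using this
      | succ g =>
        rw [Function.iterate_succ_apply]
        have e : a + (g + 1) = a + 1 + g := by omega
        rw [e]
        exact h1 g i j k (by omega)
    · intro g i j k hjk
      cases g with
      | zero =>
        have := h4 i j k (by omega)
        simpa using this
      | succ g =>
        rw [Function.iterate_succ_apply]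
        exact h2 g i j k (by omega)

theorem run : RunSt := by
  intro G n S h
  obtain ⟨h1, h2⟩ := run_A G n S 0 h
  refine ⟨?_, ?_⟩
  · intro a b c d habcd
    have := h1 a b c d habcd
    simpa [stc] using this
  · intro a b c d habcd
    exact h2 a b c d habcd

/-! ### the meaning of `okAt` -/

lemma run_cons (p u : ℝ) (ℓ : List ℕ → ℝ) (x : List ℤ × List ℕ) (S : St) :
    sem p u ℓ (x :: S) = ev p u x.1 * ℓ x.2 + sem p u ℓ S := by
  simp [sem]

lemma run_filter (p u : ℝ) {ℓ : List ℕ → ℝ} (hB : ∀ t, isB t = false → ℓ t = 0) (S : St) :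
    sem p u ℓ (S.filter fun x => isB x.2) = sem p u ℓ S := by
  induction S with
  | nil => simp
  | cons x S ih =>
    cases hx : isB x.2 with
    | false =>
      rw [List.filter_cons_of_neg (by simp [hx]), ih, run_cons, hB _ hx]
      ring
    | true =>
      rw [List.filter_cons_of_pos (by simp [hx]), run_cons, run_cons, ih]

lemma run_adj (p u : ℝ) (ℓ : List ℕ → ℝ) (m' : ℕ × ℕ × ℕ × ℕ) (G : Gt) (S : St) :
    sem p u ℓ (adj m' G S) = sem p u ℓ S -
      (G.map fun g => (exc g.1 m' : ℝ) * (ev p u g.2.1 * ℓ g.2.2)).sum := by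
  induction G with
  | nil => simp [adj]
  | cons g G ih =>
    obtain ⟨m, v, A⟩ := g
    rw [adj]
    split_ifs with h0
    · rw [ih]
      simp [h0]
    · rw [sem_addT, ih, ev_vmul]
      simp only [List.map_cons, List.sum_cons]
      push_cast
      ring

lemma run_nonneg {p u : ℝ} {ℓ : List ℕ → ℝ} (hp : 0 ≤ p) (hu : 0 ≤ u)
    (hS : ∀ t, isS t = true → isB t = true → 0 ≤ ℓ t) (S : St)
    (h : (S.all fun x => vnn x.1 && isS x.2 && isB x.2) = true) : 0 ≤ sem p u ℓ S := by
  induction S with
  | nil => simp [sem]
  | cons x S ih =>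
    rw [List.all_cons, Bool.and_eq_true, Bool.and_eq_true, Bool.and_eq_true] at h
    obtain ⟨⟨⟨h1, h2⟩, h3⟩, h4⟩ := h
    rw [run_cons]
    exact add_nonneg (mul_nonneg (ev_nonneg h1 hp hu) (hS _ h2 h3)) (ih h4)

theorem okOk : OkSt := by
  intro p u ℓ G S m hp hu hB hS h
  have h1 := run_nonneg hp hu hS _ (by simpa [okAt] using h)
  rw [run_adj, run_filter p u hB] at h1
  linarith

end Pool.Agent.H52.O4
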