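import Pool.Agent.H52.O4.TabP2

/-!
# Order four: the kernel check of the table, assembly
-/

set_option autoImplicit false

namespace Pool.Agent.H52.O4

open Pool.Agent.H52.O4F (xq)

theorem okAt_nil (a b c d : ℕ) (h : adj (a, b, c, d) gtab4 [] = []) :
    okAt gtab4 [] (a, b, c, d) = true := by
  simp [okAt, h]

theorem tab_D (G : Gt) (n : ℕ) (S S' : St) (a b c d : ℕ) (h1 : okAt G S (a, b, c, d) = true)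
    (h2 : xop 3 S = S') (h3 : runD G n S' a b c (d + 1) = true) :
    runD G (n + 1) S a b c d = true := by
  subst h2; simp [runD, h1, h3]

theorem tab_C (G : Gt) (n : ℕ) (S S' : St) (a b c : ℕ) (h1 : runD G (n + 1) S a b c 0 = true)
    (h2 : xop 2 S = S') (h3 : runC G n S' a b (c + 1) = true) : runC G (n + 1) S a b c = true := by
  subst h2; simp [runC, h1, h3]

theorem tab_B (G : Gt) (n : ℕ) (S S' : St) (a b : ℕ) (h1 : runC G (n + 1) S a b 0 = true)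
    (h2 : xop 1 S = S') (h3 : runB G n S' a (b + 1) = true) : runB G (n + 1) S a b = true := by
  subst h2; simp [runB, h1, h3]

theorem tab_A (G : Gt) (n : ℕ) (S S' : St) (a : ℕ) (h1 : runB G (n + 1) S a 0 = true)
    (h2 : xop 0 S = S') (h3 : runA G n S' (a + 1) = true) : runA G (n + 1) S a = true := by
  subst h2; simp [runA, h1, h3]

theorem xop_nil (j : ℕ) : xop j [] = [] := rfl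

theorem tab3 : runA [] 4 om3 0 = true := by decide +kernel

theorem d_7_0_0_0 : runD gtab4 0 [] 7 0 0 0 = true := rfl

theorem c_7_0_0 : runC gtab4 0 [] 7 0 0 = true := rfl

theorem b_7_0 : runB gtab4 0 [] 7 0 = true := rfl

theorem a_7 : runA gtab4 0 [] 7 = true := rfl

theorem d_6_1_0_0 : runD gtab4 0 [] 6 1 0 0 = true := rfl

theorem c_6_1_0 : runC gtab4 0 [] 6 1 0 = true := rfl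

theorem b_6_1 : runB gtab4 0 [] 6 1 = true := rfl

theorem d_6_0_1_0 : runD gtab4 0 [] 6 0 1 0 = true := rfl

theorem c_6_0_1 : runC gtab4 0 [] 6 0 1 = true := rfl

theorem d_6_0_0_1 : runD gtab4 0 [] 6 0 0 1 = true := rfl

theorem d_6_0_0_0 : runD gtab4 1 s_6_0_0_0 6 0 0 0 = true :=
  tab_D gtab4 0 _ _ 6 0 0 0 ok_6_0_0_0 x_6_0_0_1 d_6_0_0_1

theorem c_6_0_0 : runC gtab4 1 s_6_0_0_0 6 0 0 = true :=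
  tab_C gtab4 0 _ _ 6 0 0 d_6_0_0_0 x_6_0_1_0 c_6_0_1

theorem b_6_0 : runB gtab4 1 s_6_0_0_0 6 0 = true :=
  tab_B gtab4 0 _ _ 6 0 c_6_0_0 x_6_1_0_0 b_6_1

theorem a_6 : runA gtab4 1 s_6_0_0_0 6 = true :=
  tab_A gtab4 0 _ _ 6 b_6_0 x_7_0_0_0 a_7

theorem d_5_2_0_0 : runD gtab4 0 [] 5 2 0 0 = true := rfl

theorem c_5_2_0 : runC gtab4 0 [] 5 2 0 = true := rfl

theorem b_5_2 : runB gtab4 0 [] 5 2 = true := rfl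

theorem d_5_1_1_0 : runD gtab4 0 [] 5 1 1 0 = true := rfl

theorem c_5_1_1 : runC gtab4 0 [] 5 1 1 = true := rfl

theorem d_5_1_0_1 : runD gtab4 0 [] 5 1 0 1 = true := rfl

theorem d_5_1_0_0 : runD gtab4 1 s_5_1_0_0 5 1 0 0 = true :=
  tab_D gtab4 0 _ _ 5 1 0 0 ok_5_1_0_0 x_5_1_0_1 d_5_1_0_1

theorem c_5_1_0 : runC gtab4 1 s_5_1_0_0 5 1 0 = true :=
  tab_C gtab4 0 _ _ 5 1 0 d_5_1_0_0 x_5_1_1_0 c_5_1_1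

theorem b_5_1 : runB gtab4 1 s_5_1_0_0 5 1 = true :=
  tab_B gtab4 0 _ _ 5 1 c_5_1_0 x_5_2_0_0 b_5_2

theorem d_5_0_2_0 : runD gtab4 0 [] 5 0 2 0 = true := rfl

theorem c_5_0_2 : runC gtab4 0 [] 5 0 2 = true := rfl

theorem d_5_0_1_1 : runD gtab4 0 [] 5 0 1 1 = true := rfl

theorem d_5_0_1_0 : runD gtab4 1 s_5_0_1_0 5 0 1 0 = true :=
  tab_D gtab4 0 _ _ 5 0 1 0 ok_5_0_1_0 x_5_0_1_1 d_5_0_1_1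

theorem c_5_0_1 : runC gtab4 1 s_5_0_1_0 5 0 1 = true :=
  tab_C gtab4 0 _ _ 5 0 1 d_5_0_1_0 x_5_0_2_0 c_5_0_2

theorem d_5_0_0_2 : runD gtab4 0 [] 5 0 0 2 = true := rfl

theorem d_5_0_0_1 : runD gtab4 1 [] 5 0 0 1 = true :=
  tab_D gtab4 0 _ _ 5 0 0 1 (by decide) (xop_nil _) d_5_0_0_2

theorem d_5_0_0_0 : runD gtab4 2 s_5_0_0_0 5 0 0 0 = true :=
  tab_D gtab4 1 _ _ 5 0 0 0 ok_5_0_0_0 x_5_0_0_1 d_5_0_0_1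

theorem c_5_0_0 : runC gtab4 2 s_5_0_0_0 5 0 0 = true :=
  tab_C gtab4 1 _ _ 5 0 0 d_5_0_0_0 x_5_0_1_0 c_5_0_1

theorem b_5_0 : runB gtab4 2 s_5_0_0_0 5 0 = true :=
  tab_B gtab4 1 _ _ 5 0 c_5_0_0 x_5_1_0_0 b_5_1

theorem a_5 : runA gtab4 2 s_5_0_0_0 5 = true :=
  tab_A gtab4 1 _ _ 5 b_5_0 x_6_0_0_0 a_6

theorem d_4_3_0_0 : runD gtab4 0 [] 4 3 0 0 = true := rfl

theorem c_4_3_0 : runC gtab4 0 [] 4 3 0 = true := rfl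

theorem b_4_3 : runB gtab4 0 [] 4 3 = true := rfl

theorem d_4_2_1_0 : runD gtab4 0 [] 4 2 1 0 = true := rfl

theorem c_4_2_1 : runC gtab4 0 [] 4 2 1 = true := rfl

theorem d_4_2_0_1 : runD gtab4 0 [] 4 2 0 1 = true := rfl

theorem d_4_2_0_0 : runD gtab4 1 s_4_2_0_0 4 2 0 0 = true :=
  tab_D gtab4 0 _ _ 4 2 0 0 ok_4_2_0_0 x_4_2_0_1 d_4_2_0_1

theorem c_4_2_0 : runC gtab4 1 s_4_2_0_0 4 2 0 = true :=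
  tab_C gtab4 0 _ _ 4 2 0 d_4_2_0_0 x_4_2_1_0 c_4_2_1

theorem b_4_2 : runB gtab4 1 s_4_2_0_0 4 2 = true :=
  tab_B gtab4 0 _ _ 4 2 c_4_2_0 x_4_3_0_0 b_4_3

theorem d_4_1_2_0 : runD gtab4 0 [] 4 1 2 0 = true := rfl

theorem c_4_1_2 : runC gtab4 0 [] 4 1 2 = true := rfl

theorem d_4_1_1_1 : runD gtab4 0 [] 4 1 1 1 = true := rfl

theorem d_4_1_1_0 : runD gtab4 1 s_4_1_1_0 4 1 1 0 = true :=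
  tab_D gtab4 0 _ _ 4 1 1 0 ok_4_1_1_0 x_4_1_1_1 d_4_1_1_1

theorem c_4_1_1 : runC gtab4 1 s_4_1_1_0 4 1 1 = true :=
  tab_C gtab4 0 _ _ 4 1 1 d_4_1_1_0 x_4_1_2_0 c_4_1_2

theorem d_4_1_0_2 : runD gtab4 0 [] 4 1 0 2 = true := rfl

theorem d_4_1_0_1 : runD gtab4 1 [] 4 1 0 1 = true :=
  tab_D gtab4 0 _ _ 4 1 0 1 (by decide) (xop_nil _) d_4_1_0_2

theorem d_4_1_0_0 : runD gtab4 2 s_4_1_0_0 4 1 0 0 = true :=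
  tab_D gtab4 1 _ _ 4 1 0 0 ok_4_1_0_0 x_4_1_0_1 d_4_1_0_1

theorem c_4_1_0 : runC gtab4 2 s_4_1_0_0 4 1 0 = true :=
  tab_C gtab4 1 _ _ 4 1 0 d_4_1_0_0 x_4_1_1_0 c_4_1_1

theorem b_4_1 : runB gtab4 2 s_4_1_0_0 4 1 = true :=
  tab_B gtab4 1 _ _ 4 1 c_4_1_0 x_4_2_0_0 b_4_2

theorem d_4_0_3_0 : runD gtab4 0 [] 4 0 3 0 = true := rfl

theorem c_4_0_3 : runC gtab4 0 [] 4 0 3 = true := rfl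

theorem d_4_0_2_1 : runD gtab4 0 [] 4 0 2 1 = true := rfl

theorem d_4_0_2_0 : runD gtab4 1 s_4_0_2_0 4 0 2 0 = true :=
  tab_D gtab4 0 _ _ 4 0 2 0 ok_4_0_2_0 x_4_0_2_1 d_4_0_2_1

theorem c_4_0_2 : runC gtab4 1 s_4_0_2_0 4 0 2 = true :=
  tab_C gtab4 0 _ _ 4 0 2 d_4_0_2_0 x_4_0_3_0 c_4_0_3

theorem d_4_0_1_2 : runD gtab4 0 [] 4 0 1 2 = true := rfl

theorem d_4_0_1_1 : runD gtab4 1 [] 4 0 1 1 = true :=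
  tab_D gtab4 0 _ _ 4 0 1 1 (by decide) (xop_nil _) d_4_0_1_2

theorem d_4_0_1_0 : runD gtab4 2 s_4_0_1_0 4 0 1 0 = true :=
  tab_D gtab4 1 _ _ 4 0 1 0 ok_4_0_1_0 x_4_0_1_1 d_4_0_1_1

theorem c_4_0_1 : runC gtab4 2 s_4_0_1_0 4 0 1 = true :=
  tab_C gtab4 1 _ _ 4 0 1 d_4_0_1_0 x_4_0_2_0 c_4_0_2

theorem d_4_0_0_3 : runD gtab4 0 [] 4 0 0 3 = true := rfl

theorem d_4_0_0_2 : runD gtab4 1 [] 4 0 0 2 = true :=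
  tab_D gtab4 0 _ _ 4 0 0 2 (by decide) (xop_nil _) d_4_0_0_3

theorem d_4_0_0_1 : runD gtab4 2 [] 4 0 0 1 = true :=
  tab_D gtab4 1 _ _ 4 0 0 1 (by decide) (xop_nil _) d_4_0_0_2

theorem d_4_0_0_0 : runD gtab4 3 s_4_0_0_0 4 0 0 0 = true :=
  tab_D gtab4 2 _ _ 4 0 0 0 ok_4_0_0_0 x_4_0_0_1 d_4_0_0_1

theorem c_4_0_0 : runC gtab4 3 s_4_0_0_0 4 0 0 = true :=
  tab_C gtab4 2 _ _ 4 0 0 d_4_0_0_0 x_4_0_1_0 c_4_0_1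

theorem b_4_0 : runB gtab4 3 s_4_0_0_0 4 0 = true :=
  tab_B gtab4 2 _ _ 4 0 c_4_0_0 x_4_1_0_0 b_4_1

theorem a_4 : runA gtab4 3 s_4_0_0_0 4 = true :=
  tab_A gtab4 2 _ _ 4 b_4_0 x_5_0_0_0 a_5

theorem d_3_4_0_0 : runD gtab4 0 [] 3 4 0 0 = true := rfl

theorem c_3_4_0 : runC gtab4 0 [] 3 4 0 = true := rfl

theorem b_3_4 : runB gtab4 0 [] 3 4 = true := rfl

theorem d_3_3_1_0 : runD gtab4 0 [] 3 3 1 0 = true := rfl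

theorem c_3_3_1 : runC gtab4 0 [] 3 3 1 = true := rfl

theorem d_3_3_0_1 : runD gtab4 0 [] 3 3 0 1 = true := rfl

theorem d_3_3_0_0 : runD gtab4 1 s_3_3_0_0 3 3 0 0 = true :=
  tab_D gtab4 0 _ _ 3 3 0 0 ok_3_3_0_0 x_3_3_0_1 d_3_3_0_1

theorem c_3_3_0 : runC gtab4 1 s_3_3_0_0 3 3 0 = true :=
  tab_C gtab4 0 _ _ 3 3 0 d_3_3_0_0 x_3_3_1_0 c_3_3_1

theorem b_3_3 : runB gtab4 1 s_3_3_0_0 3 3 = true :=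
  tab_B gtab4 0 _ _ 3 3 c_3_3_0 x_3_4_0_0 b_3_4

theorem d_3_2_2_0 : runD gtab4 0 [] 3 2 2 0 = true := rfl

theorem c_3_2_2 : runC gtab4 0 [] 3 2 2 = true := rfl

theorem d_3_2_1_1 : runD gtab4 0 [] 3 2 1 1 = true := rfl

theorem d_3_2_1_0 : runD gtab4 1 s_3_2_1_0 3 2 1 0 = true :=
  tab_D gtab4 0 _ _ 3 2 1 0 ok_3_2_1_0 x_3_2_1_1 d_3_2_1_1

theorem c_3_2_1 : runC gtab4 1 s_3_2_1_0 3 2 1 = true :=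
  tab_C gtab4 0 _ _ 3 2 1 d_3_2_1_0 x_3_2_2_0 c_3_2_2

theorem d_3_2_0_2 : runD gtab4 0 [] 3 2 0 2 = true := rfl

theorem d_3_2_0_1 : runD gtab4 1 [] 3 2 0 1 = true :=
  tab_D gtab4 0 _ _ 3 2 0 1 (by decide) (xop_nil _) d_3_2_0_2

theorem d_3_2_0_0 : runD gtab4 2 s_3_2_0_0 3 2 0 0 = true :=
  tab_D gtab4 1 _ _ 3 2 0 0 ok_3_2_0_0 x_3_2_0_1 d_3_2_0_1

theorem c_3_2_0 : runC gtab4 2 s_3_2_0_0 3 2 0 = true :=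
  tab_C gtab4 1 _ _ 3 2 0 d_3_2_0_0 x_3_2_1_0 c_3_2_1

theorem b_3_2 : runB gtab4 2 s_3_2_0_0 3 2 = true :=
  tab_B gtab4 1 _ _ 3 2 c_3_2_0 x_3_3_0_0 b_3_3

theorem d_3_1_3_0 : runD gtab4 0 [] 3 1 3 0 = true := rfl

theorem c_3_1_3 : runC gtab4 0 [] 3 1 3 = true := rfl

theorem d_3_1_2_1 : runD gtab4 0 [] 3 1 2 1 = true := rfl

theorem d_3_1_2_0 : runD gtab4 1 s_3_1_2_0 3 1 2 0 = true :=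
  tab_D gtab4 0 _ _ 3 1 2 0 ok_3_1_2_0 x_3_1_2_1 d_3_1_2_1

theorem c_3_1_2 : runC gtab4 1 s_3_1_2_0 3 1 2 = true :=
  tab_C gtab4 0 _ _ 3 1 2 d_3_1_2_0 x_3_1_3_0 c_3_1_3

theorem d_3_1_1_2 : runD gtab4 0 [] 3 1 1 2 = true := rfl

theorem d_3_1_1_1 : runD gtab4 1 [] 3 1 1 1 = true :=
  tab_D gtab4 0 _ _ 3 1 1 1 (by decide) (xop_nil _) d_3_1_1_2

theorem d_3_1_1_0 : runD gtab4 2 s_3_1_1_0 3 1 1 0 = true :=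
  tab_D gtab4 1 _ _ 3 1 1 0 ok_3_1_1_0 x_3_1_1_1 d_3_1_1_1

theorem c_3_1_1 : runC gtab4 2 s_3_1_1_0 3 1 1 = true :=
  tab_C gtab4 1 _ _ 3 1 1 d_3_1_1_0 x_3_1_2_0 c_3_1_2

theorem d_3_1_0_3 : runD gtab4 0 [] 3 1 0 3 = true := rfl

theorem d_3_1_0_2 : runD gtab4 1 [] 3 1 0 2 = true :=
  tab_D gtab4 0 _ _ 3 1 0 2 (by decide) (xop_nil _) d_3_1_0_3

theorem d_3_1_0_1 : runD gtab4 2 s_3_1_0_1 3 1 0 1 = true :=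
  tab_D gtab4 1 _ _ 3 1 0 1 ok_3_1_0_1 x_3_1_0_2 d_3_1_0_2

theorem d_3_1_0_0 : runD gtab4 3 s_3_1_0_0 3 1 0 0 = true :=
  tab_D gtab4 2 _ _ 3 1 0 0 ok_3_1_0_0 x_3_1_0_1 d_3_1_0_1

theorem c_3_1_0 : runC gtab4 3 s_3_1_0_0 3 1 0 = true :=
  tab_C gtab4 2 _ _ 3 1 0 d_3_1_0_0 x_3_1_1_0 c_3_1_1

theorem b_3_1 : runB gtab4 3 s_3_1_0_0 3 1 = true :=
  tab_B gtab4 2 _ _ 3 1 c_3_1_0 x_3_2_0_0 b_3_2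

theorem d_3_0_4_0 : runD gtab4 0 [] 3 0 4 0 = true := rfl

theorem c_3_0_4 : runC gtab4 0 [] 3 0 4 = true := rfl

theorem d_3_0_3_1 : runD gtab4 0 [] 3 0 3 1 = true := rfl

theorem d_3_0_3_0 : runD gtab4 1 s_3_0_3_0 3 0 3 0 = true :=
  tab_D gtab4 0 _ _ 3 0 3 0 ok_3_0_3_0 x_3_0_3_1 d_3_0_3_1

theorem c_3_0_3 : runC gtab4 1 s_3_0_3_0 3 0 3 = true :=
  tab_C gtab4 0 _ _ 3 0 3 d_3_0_3_0 x_3_0_4_0 c_3_0_4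

theorem d_3_0_2_2 : runD gtab4 0 [] 3 0 2 2 = true := rfl

theorem d_3_0_2_1 : runD gtab4 1 [] 3 0 2 1 = true :=
  tab_D gtab4 0 _ _ 3 0 2 1 (by decide) (xop_nil _) d_3_0_2_2

theorem d_3_0_2_0 : runD gtab4 2 s_3_0_2_0 3 0 2 0 = true :=
  tab_D gtab4 1 _ _ 3 0 2 0 ok_3_0_2_0 x_3_0_2_1 d_3_0_2_1

theorem c_3_0_2 : runC gtab4 2 s_3_0_2_0 3 0 2 = true :=
  tab_C gtab4 1 _ _ 3 0 2 d_3_0_2_0 x_3_0_3_0 c_3_0_3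

theorem d_3_0_1_3 : runD gtab4 0 [] 3 0 1 3 = true := rfl

theorem d_3_0_1_2 : runD gtab4 1 [] 3 0 1 2 = true :=
  tab_D gtab4 0 _ _ 3 0 1 2 (by decide) (xop_nil _) d_3_0_1_3

theorem d_3_0_1_1 : runD gtab4 2 s_3_0_1_1 3 0 1 1 = true :=
  tab_D gtab4 1 _ _ 3 0 1 1 ok_3_0_1_1 x_3_0_1_2 d_3_0_1_2

theorem d_3_0_1_0 : runD gtab4 3 s_3_0_1_0 3 0 1 0 = true :=
  tab_D gtab4 2 _ _ 3 0 1 0 ok_3_0_1_0 x_3_0_1_1 d_3_0_1_1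

theorem c_3_0_1 : runC gtab4 3 s_3_0_1_0 3 0 1 = true :=
  tab_C gtab4 2 _ _ 3 0 1 d_3_0_1_0 x_3_0_2_0 c_3_0_2

theorem d_3_0_0_4 : runD gtab4 0 [] 3 0 0 4 = true := rfl

theorem d_3_0_0_3 : runD gtab4 1 [] 3 0 0 3 = true :=
  tab_D gtab4 0 _ _ 3 0 0 3 (by decide) (xop_nil _) d_3_0_0_4

theorem d_3_0_0_2 : runD gtab4 2 [] 3 0 0 2 = true :=
  tab_D gtab4 1 _ _ 3 0 0 2 (by decide) (xop_nil _) d_3_0_0_3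

theorem d_3_0_0_1 : runD gtab4 3 s_3_0_0_1 3 0 0 1 = true :=
  tab_D gtab4 2 _ _ 3 0 0 1 ok_3_0_0_1 x_3_0_0_2 d_3_0_0_2

theorem d_3_0_0_0 : runD gtab4 4 s_3_0_0_0 3 0 0 0 = true :=
  tab_D gtab4 3 _ _ 3 0 0 0 ok_3_0_0_0 x_3_0_0_1 d_3_0_0_1

theorem c_3_0_0 : runC gtab4 4 s_3_0_0_0 3 0 0 = true :=
  tab_C gtab4 3 _ _ 3 0 0 d_3_0_0_0 x_3_0_1_0 c_3_0_1

theorem b_3_0 : runB gtab4 4 s_3_0_0_0 3 0 = true :=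
  tab_B gtab4 3 _ _ 3 0 c_3_0_0 x_3_1_0_0 b_3_1

theorem a_3 : runA gtab4 4 s_3_0_0_0 3 = true :=
  tab_A gtab4 3 _ _ 3 b_3_0 x_4_0_0_0 a_4

theorem d_2_5_0_0 : runD gtab4 0 [] 2 5 0 0 = true := rfl

theorem c_2_5_0 : runC gtab4 0 [] 2 5 0 = true := rfl

theorem b_2_5 : runB gtab4 0 [] 2 5 = true := rfl

theorem d_2_4_1_0 : runD gtab4 0 [] 2 4 1 0 = true := rfl

theorem c_2_4_1 : runC gtab4 0 [] 2 4 1 = true := rfl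

theorem d_2_4_0_1 : runD gtab4 0 [] 2 4 0 1 = true := rfl

theorem d_2_4_0_0 : runD gtab4 1 s_2_4_0_0 2 4 0 0 = true :=
  tab_D gtab4 0 _ _ 2 4 0 0 ok_2_4_0_0 x_2_4_0_1 d_2_4_0_1

theorem c_2_4_0 : runC gtab4 1 s_2_4_0_0 2 4 0 = true :=
  tab_C gtab4 0 _ _ 2 4 0 d_2_4_0_0 x_2_4_1_0 c_2_4_1

theorem b_2_4 : runB gtab4 1 s_2_4_0_0 2 4 = true :=
  tab_B gtab4 0 _ _ 2 4 c_2_4_0 x_2_5_0_0 b_2_5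

theorem d_2_3_2_0 : runD gtab4 0 [] 2 3 2 0 = true := rfl

theorem c_2_3_2 : runC gtab4 0 [] 2 3 2 = true := rfl

theorem d_2_3_1_1 : runD gtab4 0 [] 2 3 1 1 = true := rfl

theorem d_2_3_1_0 : runD gtab4 1 s_2_3_1_0 2 3 1 0 = true :=
  tab_D gtab4 0 _ _ 2 3 1 0 ok_2_3_1_0 x_2_3_1_1 d_2_3_1_1

theorem c_2_3_1 : runC gtab4 1 s_2_3_1_0 2 3 1 = true :=
  tab_C gtab4 0 _ _ 2 3 1 d_2_3_1_0 x_2_3_2_0 c_2_3_2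

theorem d_2_3_0_2 : runD gtab4 0 [] 2 3 0 2 = true := rfl

theorem d_2_3_0_1 : runD gtab4 1 [] 2 3 0 1 = true :=
  tab_D gtab4 0 _ _ 2 3 0 1 (by decide) (xop_nil _) d_2_3_0_2

theorem d_2_3_0_0 : runD gtab4 2 s_2_3_0_0 2 3 0 0 = true :=
  tab_D gtab4 1 _ _ 2 3 0 0 ok_2_3_0_0 x_2_3_0_1 d_2_3_0_1

theorem c_2_3_0 : runC gtab4 2 s_2_3_0_0 2 3 0 = true :=
  tab_C gtab4 1 _ _ 2 3 0 d_2_3_0_0 x_2_3_1_0 c_2_3_1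

theorem b_2_3 : runB gtab4 2 s_2_3_0_0 2 3 = true :=
  tab_B gtab4 1 _ _ 2 3 c_2_3_0 x_2_4_0_0 b_2_4

theorem d_2_2_3_0 : runD gtab4 0 [] 2 2 3 0 = true := rfl

theorem c_2_2_3 : runC gtab4 0 [] 2 2 3 = true := rfl

theorem d_2_2_2_1 : runD gtab4 0 [] 2 2 2 1 = true := rfl

theorem d_2_2_2_0 : runD gtab4 1 s_2_2_2_0 2 2 2 0 = true :=
  tab_D gtab4 0 _ _ 2 2 2 0 ok_2_2_2_0 x_2_2_2_1 d_2_2_2_1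

theorem c_2_2_2 : runC gtab4 1 s_2_2_2_0 2 2 2 = true :=
  tab_C gtab4 0 _ _ 2 2 2 d_2_2_2_0 x_2_2_3_0 c_2_2_3

theorem d_2_2_1_2 : runD gtab4 0 [] 2 2 1 2 = true := rfl

theorem d_2_2_1_1 : runD gtab4 1 [] 2 2 1 1 = true :=
  tab_D gtab4 0 _ _ 2 2 1 1 (by decide) (xop_nil _) d_2_2_1_2

theorem d_2_2_1_0 : runD gtab4 2 s_2_2_1_0 2 2 1 0 = true :=
  tab_D gtab4 1 _ _ 2 2 1 0 ok_2_2_1_0 x_2_2_1_1 d_2_2_1_1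

theorem c_2_2_1 : runC gtab4 2 s_2_2_1_0 2 2 1 = true :=
  tab_C gtab4 1 _ _ 2 2 1 d_2_2_1_0 x_2_2_2_0 c_2_2_2

theorem d_2_2_0_3 : runD gtab4 0 [] 2 2 0 3 = true := rfl

theorem d_2_2_0_2 : runD gtab4 1 [] 2 2 0 2 = true :=
  tab_D gtab4 0 _ _ 2 2 0 2 (by decide) (xop_nil _) d_2_2_0_3

theorem d_2_2_0_1 : runD gtab4 2 s_2_2_0_1 2 2 0 1 = true :=
  tab_D gtab4 1 _ _ 2 2 0 1 ok_2_2_0_1 x_2_2_0_2 d_2_2_0_2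

theorem d_2_2_0_0 : runD gtab4 3 s_2_2_0_0 2 2 0 0 = true :=
  tab_D gtab4 2 _ _ 2 2 0 0 ok_2_2_0_0 x_2_2_0_1 d_2_2_0_1

theorem c_2_2_0 : runC gtab4 3 s_2_2_0_0 2 2 0 = true :=
  tab_C gtab4 2 _ _ 2 2 0 d_2_2_0_0 x_2_2_1_0 c_2_2_1

theorem b_2_2 : runB gtab4 3 s_2_2_0_0 2 2 = true :=
  tab_B gtab4 2 _ _ 2 2 c_2_2_0 x_2_3_0_0 b_2_3

theorem d_2_1_4_0 : runD gtab4 0 [] 2 1 4 0 = true := rfl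

theorem c_2_1_4 : runC gtab4 0 [] 2 1 4 = true := rfl

theorem d_2_1_3_1 : runD gtab4 0 [] 2 1 3 1 = true := rfl

theorem d_2_1_3_0 : runD gtab4 1 s_2_1_3_0 2 1 3 0 = true :=
  tab_D gtab4 0 _ _ 2 1 3 0 ok_2_1_3_0 x_2_1_3_1 d_2_1_3_1

theorem c_2_1_3 : runC gtab4 1 s_2_1_3_0 2 1 3 = true :=
  tab_C gtab4 0 _ _ 2 1 3 d_2_1_3_0 x_2_1_4_0 c_2_1_4

theorem d_2_1_2_2 : runD gtab4 0 [] 2 1 2 2 = true := rfl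

theorem d_2_1_2_1 : runD gtab4 1 [] 2 1 2 1 = true :=
  tab_D gtab4 0 _ _ 2 1 2 1 (by decide) (xop_nil _) d_2_1_2_2

theorem d_2_1_2_0 : runD gtab4 2 s_2_1_2_0 2 1 2 0 = true :=
  tab_D gtab4 1 _ _ 2 1 2 0 ok_2_1_2_0 x_2_1_2_1 d_2_1_2_1

theorem c_2_1_2 : runC gtab4 2 s_2_1_2_0 2 1 2 = true :=
  tab_C gtab4 1 _ _ 2 1 2 d_2_1_2_0 x_2_1_3_0 c_2_1_3

theorem d_2_1_1_3 : runD gtab4 0 [] 2 1 1 3 = true := rfl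

theorem d_2_1_1_2 : runD gtab4 1 [] 2 1 1 2 = true :=
  tab_D gtab4 0 _ _ 2 1 1 2 (by decide) (xop_nil _) d_2_1_1_3

theorem d_2_1_1_1 : runD gtab4 2 s_2_1_1_1 2 1 1 1 = true :=
  tab_D gtab4 1 _ _ 2 1 1 1 ok_2_1_1_1 x_2_1_1_2 d_2_1_1_2

theorem d_2_1_1_0 : runD gtab4 3 s_2_1_1_0 2 1 1 0 = true :=
  tab_D gtab4 2 _ _ 2 1 1 0 ok_2_1_1_0 x_2_1_1_1 d_2_1_1_1

theorem c_2_1_1 : runC gtab4 3 s_2_1_1_0 2 1 1 = true :=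
  tab_C gtab4 2 _ _ 2 1 1 d_2_1_1_0 x_2_1_2_0 c_2_1_2

theorem d_2_1_0_4 : runD gtab4 0 [] 2 1 0 4 = true := rfl

theorem d_2_1_0_3 : runD gtab4 1 [] 2 1 0 3 = true :=
  tab_D gtab4 0 _ _ 2 1 0 3 (by decide) (xop_nil _) d_2_1_0_4

theorem d_2_1_0_2 : runD gtab4 2 [] 2 1 0 2 = true :=
  tab_D gtab4 1 _ _ 2 1 0 2 (by decide) (xop_nil _) d_2_1_0_3

theorem d_2_1_0_1 : runD gtab4 3 s_2_1_0_1 2 1 0 1 = true :=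
  tab_D gtab4 2 _ _ 2 1 0 1 ok_2_1_0_1 x_2_1_0_2 d_2_1_0_2

theorem d_2_1_0_0 : runD gtab4 4 s_2_1_0_0 2 1 0 0 = true :=
  tab_D gtab4 3 _ _ 2 1 0 0 ok_2_1_0_0 x_2_1_0_1 d_2_1_0_1

theorem c_2_1_0 : runC gtab4 4 s_2_1_0_0 2 1 0 = true :=
  tab_C gtab4 3 _ _ 2 1 0 d_2_1_0_0 x_2_1_1_0 c_2_1_1

theorem b_2_1 : runB gtab4 4 s_2_1_0_0 2 1 = true :=
  tab_B gtab4 3 _ _ 2 1 c_2_1_0 x_2_2_0_0 b_2_2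

theorem d_2_0_5_0 : runD gtab4 0 [] 2 0 5 0 = true := rfl

theorem c_2_0_5 : runC gtab4 0 [] 2 0 5 = true := rfl

theorem d_2_0_4_1 : runD gtab4 0 [] 2 0 4 1 = true := rfl

theorem d_2_0_4_0 : runD gtab4 1 s_2_0_4_0 2 0 4 0 = true :=
  tab_D gtab4 0 _ _ 2 0 4 0 ok_2_0_4_0 x_2_0_4_1 d_2_0_4_1

theorem c_2_0_4 : runC gtab4 1 s_2_0_4_0 2 0 4 = true :=
  tab_C gtab4 0 _ _ 2 0 4 d_2_0_4_0 x_2_0_5_0 c_2_0_5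

theorem d_2_0_3_2 : runD gtab4 0 [] 2 0 3 2 = true := rfl

theorem d_2_0_3_1 : runD gtab4 1 [] 2 0 3 1 = true :=
  tab_D gtab4 0 _ _ 2 0 3 1 (by decide) (xop_nil _) d_2_0_3_2

theorem d_2_0_3_0 : runD gtab4 2 s_2_0_3_0 2 0 3 0 = true :=
  tab_D gtab4 1 _ _ 2 0 3 0 ok_2_0_3_0 x_2_0_3_1 d_2_0_3_1

theorem c_2_0_3 : runC gtab4 2 s_2_0_3_0 2 0 3 = true :=
  tab_C gtab4 1 _ _ 2 0 3 d_2_0_3_0 x_2_0_4_0 c_2_0_4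

theorem d_2_0_2_3 : runD gtab4 0 [] 2 0 2 3 = true := rfl

theorem d_2_0_2_2 : runD gtab4 1 [] 2 0 2 2 = true :=
  tab_D gtab4 0 _ _ 2 0 2 2 (by decide) (xop_nil _) d_2_0_2_3

theorem d_2_0_2_1 : runD gtab4 2 s_2_0_2_1 2 0 2 1 = true :=
  tab_D gtab4 1 _ _ 2 0 2 1 ok_2_0_2_1 x_2_0_2_2 d_2_0_2_2

theorem d_2_0_2_0 : runD gtab4 3 s_2_0_2_0 2 0 2 0 = true :=
  tab_D gtab4 2 _ _ 2 0 2 0 ok_2_0_2_0 x_2_0_2_1 d_2_0_2_1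

theorem c_2_0_2 : runC gtab4 3 s_2_0_2_0 2 0 2 = true :=
  tab_C gtab4 2 _ _ 2 0 2 d_2_0_2_0 x_2_0_3_0 c_2_0_3

theorem d_2_0_1_4 : runD gtab4 0 [] 2 0 1 4 = true := rfl

theorem d_2_0_1_3 : runD gtab4 1 [] 2 0 1 3 = true :=
  tab_D gtab4 0 _ _ 2 0 1 3 (by decide) (xop_nil _) d_2_0_1_4

theorem d_2_0_1_2 : runD gtab4 2 [] 2 0 1 2 = true :=
  tab_D gtab4 1 _ _ 2 0 1 2 (by decide) (xop_nil _) d_2_0_1_3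

theorem d_2_0_1_1 : runD gtab4 3 s_2_0_1_1 2 0 1 1 = true :=
  tab_D gtab4 2 _ _ 2 0 1 1 ok_2_0_1_1 x_2_0_1_2 d_2_0_1_2

theorem d_2_0_1_0 : runD gtab4 4 s_2_0_1_0 2 0 1 0 = true :=
  tab_D gtab4 3 _ _ 2 0 1 0 ok_2_0_1_0 x_2_0_1_1 d_2_0_1_1

theorem c_2_0_1 : runC gtab4 4 s_2_0_1_0 2 0 1 = true :=
  tab_C gtab4 3 _ _ 2 0 1 d_2_0_1_0 x_2_0_2_0 c_2_0_2

theorem d_2_0_0_5 : runD gtab4 0 [] 2 0 0 5 = true := rfl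

theorem d_2_0_0_4 : runD gtab4 1 [] 2 0 0 4 = true :=
  tab_D gtab4 0 _ _ 2 0 0 4 (by decide) (xop_nil _) d_2_0_0_5

theorem d_2_0_0_3 : runD gtab4 2 [] 2 0 0 3 = true :=
  tab_D gtab4 1 _ _ 2 0 0 3 (by decide) (xop_nil _) d_2_0_0_4

theorem d_2_0_0_2 : runD gtab4 3 [] 2 0 0 2 = true :=
  tab_D gtab4 2 _ _ 2 0 0 2 (by decide) (xop_nil _) d_2_0_0_3

theorem d_2_0_0_1 : runD gtab4 4 s_2_0_0_1 2 0 0 1 = true :=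
  tab_D gtab4 3 _ _ 2 0 0 1 ok_2_0_0_1 x_2_0_0_2 d_2_0_0_2

theorem d_2_0_0_0 : runD gtab4 5 s_2_0_0_0 2 0 0 0 = true :=
  tab_D gtab4 4 _ _ 2 0 0 0 ok_2_0_0_0 x_2_0_0_1 d_2_0_0_1

theorem c_2_0_0 : runC gtab4 5 s_2_0_0_0 2 0 0 = true :=
  tab_C gtab4 4 _ _ 2 0 0 d_2_0_0_0 x_2_0_1_0 c_2_0_1

theorem b_2_0 : runB gtab4 5 s_2_0_0_0 2 0 = true :=
  tab_B gtab4 4 _ _ 2 0 c_2_0_0 x_2_1_0_0 b_2_1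

theorem a_2 : runA gtab4 5 s_2_0_0_0 2 = true :=
  tab_A gtab4 4 _ _ 2 b_2_0 x_3_0_0_0 a_3

theorem d_1_6_0_0 : runD gtab4 0 [] 1 6 0 0 = true := rfl

theorem c_1_6_0 : runC gtab4 0 [] 1 6 0 = true := rfl

theorem b_1_6 : runB gtab4 0 [] 1 6 = true := rfl

theorem d_1_5_1_0 : runD gtab4 0 [] 1 5 1 0 = true := rfl

theorem c_1_5_1 : runC gtab4 0 [] 1 5 1 = true := rfl

theorem d_1_5_0_1 : runD gtab4 0 [] 1 5 0 1 = true := rfl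

theorem d_1_5_0_0 : runD gtab4 1 s_1_5_0_0 1 5 0 0 = true :=
  tab_D gtab4 0 _ _ 1 5 0 0 ok_1_5_0_0 x_1_5_0_1 d_1_5_0_1

theorem c_1_5_0 : runC gtab4 1 s_1_5_0_0 1 5 0 = true :=
  tab_C gtab4 0 _ _ 1 5 0 d_1_5_0_0 x_1_5_1_0 c_1_5_1

theorem b_1_5 : runB gtab4 1 s_1_5_0_0 1 5 = true :=
  tab_B gtab4 0 _ _ 1 5 c_1_5_0 x_1_6_0_0 b_1_6

theorem d_1_4_2_0 : runD gtab4 0 [] 1 4 2 0 = true := rfl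

theorem c_1_4_2 : runC gtab4 0 [] 1 4 2 = true := rfl

theorem d_1_4_1_1 : runD gtab4 0 [] 1 4 1 1 = true := rfl

theorem d_1_4_1_0 : runD gtab4 1 s_1_4_1_0 1 4 1 0 = true :=
  tab_D gtab4 0 _ _ 1 4 1 0 ok_1_4_1_0 x_1_4_1_1 d_1_4_1_1

theorem c_1_4_1 : runC gtab4 1 s_1_4_1_0 1 4 1 = true :=
  tab_C gtab4 0 _ _ 1 4 1 d_1_4_1_0 x_1_4_2_0 c_1_4_2

theorem d_1_4_0_2 : runD gtab4 0 [] 1 4 0 2 = true := rfl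

theorem d_1_4_0_1 : runD gtab4 1 [] 1 4 0 1 = true :=
  tab_D gtab4 0 _ _ 1 4 0 1 (by decide) (xop_nil _) d_1_4_0_2

theorem d_1_4_0_0 : runD gtab4 2 s_1_4_0_0 1 4 0 0 = true :=
  tab_D gtab4 1 _ _ 1 4 0 0 ok_1_4_0_0 x_1_4_0_1 d_1_4_0_1

theorem c_1_4_0 : runC gtab4 2 s_1_4_0_0 1 4 0 = true :=
  tab_C gtab4 1 _ _ 1 4 0 d_1_4_0_0 x_1_4_1_0 c_1_4_1

theorem b_1_4 : runB gtab4 2 s_1_4_0_0 1 4 = true :=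
  tab_B gtab4 1 _ _ 1 4 c_1_4_0 x_1_5_0_0 b_1_5

theorem d_1_3_3_0 : runD gtab4 0 [] 1 3 3 0 = true := rfl

theorem c_1_3_3 : runC gtab4 0 [] 1 3 3 = true := rfl

theorem d_1_3_2_1 : runD gtab4 0 [] 1 3 2 1 = true := rfl

theorem d_1_3_2_0 : runD gtab4 1 s_1_3_2_0 1 3 2 0 = true :=
  tab_D gtab4 0 _ _ 1 3 2 0 ok_1_3_2_0 x_1_3_2_1 d_1_3_2_1

theorem c_1_3_2 : runC gtab4 1 s_1_3_2_0 1 3 2 = true :=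
  tab_C gtab4 0 _ _ 1 3 2 d_1_3_2_0 x_1_3_3_0 c_1_3_3

theorem d_1_3_1_2 : runD gtab4 0 [] 1 3 1 2 = true := rfl

theorem d_1_3_1_1 : runD gtab4 1 [] 1 3 1 1 = true :=
  tab_D gtab4 0 _ _ 1 3 1 1 (by decide) (xop_nil _) d_1_3_1_2

theorem d_1_3_1_0 : runD gtab4 2 s_1_3_1_0 1 3 1 0 = true :=
  tab_D gtab4 1 _ _ 1 3 1 0 ok_1_3_1_0 x_1_3_1_1 d_1_3_1_1

theorem c_1_3_1 : runC gtab4 2 s_1_3_1_0 1 3 1 = true :=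
  tab_C gtab4 1 _ _ 1 3 1 d_1_3_1_0 x_1_3_2_0 c_1_3_2

theorem d_1_3_0_3 : runD gtab4 0 [] 1 3 0 3 = true := rfl

theorem d_1_3_0_2 : runD gtab4 1 [] 1 3 0 2 = true :=
  tab_D gtab4 0 _ _ 1 3 0 2 (by decide) (xop_nil _) d_1_3_0_3

theorem d_1_3_0_1 : runD gtab4 2 s_1_3_0_1 1 3 0 1 = true :=
  tab_D gtab4 1 _ _ 1 3 0 1 ok_1_3_0_1 x_1_3_0_2 d_1_3_0_2

theorem d_1_3_0_0 : runD gtab4 3 s_1_3_0_0 1 3 0 0 = true :=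
  tab_D gtab4 2 _ _ 1 3 0 0 ok_1_3_0_0 x_1_3_0_1 d_1_3_0_1

theorem c_1_3_0 : runC gtab4 3 s_1_3_0_0 1 3 0 = true :=
  tab_C gtab4 2 _ _ 1 3 0 d_1_3_0_0 x_1_3_1_0 c_1_3_1

theorem b_1_3 : runB gtab4 3 s_1_3_0_0 1 3 = true :=
  tab_B gtab4 2 _ _ 1 3 c_1_3_0 x_1_4_0_0 b_1_4

theorem d_1_2_4_0 : runD gtab4 0 [] 1 2 4 0 = true := rfl

theorem c_1_2_4 : runC gtab4 0 [] 1 2 4 = true := rfl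

theorem d_1_2_3_1 : runD gtab4 0 [] 1 2 3 1 = true := rfl

theorem d_1_2_3_0 : runD gtab4 1 s_1_2_3_0 1 2 3 0 = true :=
  tab_D gtab4 0 _ _ 1 2 3 0 ok_1_2_3_0 x_1_2_3_1 d_1_2_3_1

theorem c_1_2_3 : runC gtab4 1 s_1_2_3_0 1 2 3 = true :=
  tab_C gtab4 0 _ _ 1 2 3 d_1_2_3_0 x_1_2_4_0 c_1_2_4

theorem d_1_2_2_2 : runD gtab4 0 [] 1 2 2 2 = true := rfl

theorem d_1_2_2_1 : runD gtab4 1 [] 1 2 2 1 = true :=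
  tab_D gtab4 0 _ _ 1 2 2 1 (by decide) (xop_nil _) d_1_2_2_2

theorem d_1_2_2_0 : runD gtab4 2 s_1_2_2_0 1 2 2 0 = true :=
  tab_D gtab4 1 _ _ 1 2 2 0 ok_1_2_2_0 x_1_2_2_1 d_1_2_2_1

theorem c_1_2_2 : runC gtab4 2 s_1_2_2_0 1 2 2 = true :=
  tab_C gtab4 1 _ _ 1 2 2 d_1_2_2_0 x_1_2_3_0 c_1_2_3

theorem d_1_2_1_3 : runD gtab4 0 [] 1 2 1 3 = true := rfl

theorem d_1_2_1_2 : runD gtab4 1 [] 1 2 1 2 = true :=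
  tab_D gtab4 0 _ _ 1 2 1 2 (by decide) (xop_nil _) d_1_2_1_3

theorem d_1_2_1_1 : runD gtab4 2 s_1_2_1_1 1 2 1 1 = true :=
  tab_D gtab4 1 _ _ 1 2 1 1 ok_1_2_1_1 x_1_2_1_2 d_1_2_1_2

theorem d_1_2_1_0 : runD gtab4 3 s_1_2_1_0 1 2 1 0 = true :=
  tab_D gtab4 2 _ _ 1 2 1 0 ok_1_2_1_0 x_1_2_1_1 d_1_2_1_1

theorem c_1_2_1 : runC gtab4 3 s_1_2_1_0 1 2 1 = true :=
  tab_C gtab4 2 _ _ 1 2 1 d_1_2_1_0 x_1_2_2_0 c_1_2_2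

theorem d_1_2_0_4 : runD gtab4 0 [] 1 2 0 4 = true := rfl

theorem d_1_2_0_3 : runD gtab4 1 [] 1 2 0 3 = true :=
  tab_D gtab4 0 _ _ 1 2 0 3 (by decide) (xop_nil _) d_1_2_0_4

theorem d_1_2_0_2 : runD gtab4 2 [] 1 2 0 2 = true :=
  tab_D gtab4 1 _ _ 1 2 0 2 (by decide) (xop_nil _) d_1_2_0_3

theorem d_1_2_0_1 : runD gtab4 3 s_1_2_0_1 1 2 0 1 = true :=
  tab_D gtab4 2 _ _ 1 2 0 1 ok_1_2_0_1 x_1_2_0_2 d_1_2_0_2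

theorem d_1_2_0_0 : runD gtab4 4 s_1_2_0_0 1 2 0 0 = true :=
  tab_D gtab4 3 _ _ 1 2 0 0 ok_1_2_0_0 x_1_2_0_1 d_1_2_0_1

theorem c_1_2_0 : runC gtab4 4 s_1_2_0_0 1 2 0 = true :=
  tab_C gtab4 3 _ _ 1 2 0 d_1_2_0_0 x_1_2_1_0 c_1_2_1

theorem b_1_2 : runB gtab4 4 s_1_2_0_0 1 2 = true :=
  tab_B gtab4 3 _ _ 1 2 c_1_2_0 x_1_3_0_0 b_1_3

theorem d_1_1_5_0 : runD gtab4 0 [] 1 1 5 0 = true := rfl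

theorem c_1_1_5 : runC gtab4 0 [] 1 1 5 = true := rfl

theorem d_1_1_4_1 : runD gtab4 0 [] 1 1 4 1 = true := rfl

theorem d_1_1_4_0 : runD gtab4 1 s_1_1_4_0 1 1 4 0 = true :=
  tab_D gtab4 0 _ _ 1 1 4 0 ok_1_1_4_0 x_1_1_4_1 d_1_1_4_1

theorem c_1_1_4 : runC gtab4 1 s_1_1_4_0 1 1 4 = true :=
  tab_C gtab4 0 _ _ 1 1 4 d_1_1_4_0 x_1_1_5_0 c_1_1_5

theorem d_1_1_3_2 : runD gtab4 0 [] 1 1 3 2 = true := rfl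

theorem d_1_1_3_1 : runD gtab4 1 [] 1 1 3 1 = true :=
  tab_D gtab4 0 _ _ 1 1 3 1 (by decide) (xop_nil _) d_1_1_3_2

theorem d_1_1_3_0 : runD gtab4 2 s_1_1_3_0 1 1 3 0 = true :=
  tab_D gtab4 1 _ _ 1 1 3 0 ok_1_1_3_0 x_1_1_3_1 d_1_1_3_1

theorem c_1_1_3 : runC gtab4 2 s_1_1_3_0 1 1 3 = true :=
  tab_C gtab4 1 _ _ 1 1 3 d_1_1_3_0 x_1_1_4_0 c_1_1_4

theorem d_1_1_2_3 : runD gtab4 0 [] 1 1 2 3 = true := rfl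

theorem d_1_1_2_2 : runD gtab4 1 [] 1 1 2 2 = true :=
  tab_D gtab4 0 _ _ 1 1 2 2 (by decide) (xop_nil _) d_1_1_2_3

theorem d_1_1_2_1 : runD gtab4 2 s_1_1_2_1 1 1 2 1 = true :=
  tab_D gtab4 1 _ _ 1 1 2 1 ok_1_1_2_1 x_1_1_2_2 d_1_1_2_2

theorem d_1_1_2_0 : runD gtab4 3 s_1_1_2_0 1 1 2 0 = true :=
  tab_D gtab4 2 _ _ 1 1 2 0 ok_1_1_2_0 x_1_1_2_1 d_1_1_2_1

theorem c_1_1_2 : runC gtab4 3 s_1_1_2_0 1 1 2 = true :=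
  tab_C gtab4 2 _ _ 1 1 2 d_1_1_2_0 x_1_1_3_0 c_1_1_3

theorem d_1_1_1_4 : runD gtab4 0 [] 1 1 1 4 = true := rfl

theorem d_1_1_1_3 : runD gtab4 1 [] 1 1 1 3 = true :=
  tab_D gtab4 0 _ _ 1 1 1 3 (by decide) (xop_nil _) d_1_1_1_4

theorem d_1_1_1_2 : runD gtab4 2 [] 1 1 1 2 = true :=
  tab_D gtab4 1 _ _ 1 1 1 2 (by decide) (xop_nil _) d_1_1_1_3

theorem d_1_1_1_1 : runD gtab4 3 s_1_1_1_1 1 1 1 1 = true :=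
  tab_D gtab4 2 _ _ 1 1 1 1 ok_1_1_1_1 x_1_1_1_2 d_1_1_1_2

theorem d_1_1_1_0 : runD gtab4 4 s_1_1_1_0 1 1 1 0 = true :=
  tab_D gtab4 3 _ _ 1 1 1 0 ok_1_1_1_0 x_1_1_1_1 d_1_1_1_1

theorem c_1_1_1 : runC gtab4 4 s_1_1_1_0 1 1 1 = true :=
  tab_C gtab4 3 _ _ 1 1 1 d_1_1_1_0 x_1_1_2_0 c_1_1_2

theorem d_1_1_0_5 : runD gtab4 0 [] 1 1 0 5 = true := rfl

theorem d_1_1_0_4 : runD gtab4 1 [] 1 1 0 4 = true :=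
  tab_D gtab4 0 _ _ 1 1 0 4 (by decide) (xop_nil _) d_1_1_0_5

theorem d_1_1_0_3 : runD gtab4 2 [] 1 1 0 3 = true :=
  tab_D gtab4 1 _ _ 1 1 0 3 (by decide) (xop_nil _) d_1_1_0_4

theorem d_1_1_0_2 : runD gtab4 3 [] 1 1 0 2 = true :=
  tab_D gtab4 2 _ _ 1 1 0 2 (by decide) (xop_nil _) d_1_1_0_3

theorem d_1_1_0_1 : runD gtab4 4 s_1_1_0_1 1 1 0 1 = true :=
  tab_D gtab4 3 _ _ 1 1 0 1 ok_1_1_0_1 x_1_1_0_2 d_1_1_0_2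

theorem d_1_1_0_0 : runD gtab4 5 s_1_1_0_0 1 1 0 0 = true :=
  tab_D gtab4 4 _ _ 1 1 0 0 ok_1_1_0_0 x_1_1_0_1 d_1_1_0_1

theorem c_1_1_0 : runC gtab4 5 s_1_1_0_0 1 1 0 = true :=
  tab_C gtab4 4 _ _ 1 1 0 d_1_1_0_0 x_1_1_1_0 c_1_1_1

theorem b_1_1 : runB gtab4 5 s_1_1_0_0 1 1 = true :=
  tab_B gtab4 4 _ _ 1 1 c_1_1_0 x_1_2_0_0 b_1_2

theorem d_1_0_6_0 : runD gtab4 0 [] 1 0 6 0 = true := rfl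

theorem c_1_0_6 : runC gtab4 0 [] 1 0 6 = true := rfl

theorem d_1_0_5_1 : runD gtab4 0 [] 1 0 5 1 = true := rfl

theorem d_1_0_5_0 : runD gtab4 1 s_1_0_5_0 1 0 5 0 = true :=
  tab_D gtab4 0 _ _ 1 0 5 0 ok_1_0_5_0 x_1_0_5_1 d_1_0_5_1

theorem c_1_0_5 : runC gtab4 1 s_1_0_5_0 1 0 5 = true :=
  tab_C gtab4 0 _ _ 1 0 5 d_1_0_5_0 x_1_0_6_0 c_1_0_6

theorem d_1_0_4_2 : runD gtab4 0 [] 1 0 4 2 = true := rfl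

theorem d_1_0_4_1 : runD gtab4 1 [] 1 0 4 1 = true :=
  tab_D gtab4 0 _ _ 1 0 4 1 (by decide) (xop_nil _) d_1_0_4_2

theorem d_1_0_4_0 : runD gtab4 2 s_1_0_4_0 1 0 4 0 = true :=
  tab_D gtab4 1 _ _ 1 0 4 0 ok_1_0_4_0 x_1_0_4_1 d_1_0_4_1

theorem c_1_0_4 : runC gtab4 2 s_1_0_4_0 1 0 4 = true :=
  tab_C gtab4 1 _ _ 1 0 4 d_1_0_4_0 x_1_0_5_0 c_1_0_5

theorem d_1_0_3_3 : runD gtab4 0 [] 1 0 3 3 = true := rfl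

theorem d_1_0_3_2 : runD gtab4 1 [] 1 0 3 2 = true :=
  tab_D gtab4 0 _ _ 1 0 3 2 (by decide) (xop_nil _) d_1_0_3_3

theorem d_1_0_3_1 : runD gtab4 2 s_1_0_3_1 1 0 3 1 = true :=
  tab_D gtab4 1 _ _ 1 0 3 1 ok_1_0_3_1 x_1_0_3_2 d_1_0_3_2

theorem d_1_0_3_0 : runD gtab4 3 s_1_0_3_0 1 0 3 0 = true :=
  tab_D gtab4 2 _ _ 1 0 3 0 ok_1_0_3_0 x_1_0_3_1 d_1_0_3_1

theorem c_1_0_3 : runC gtab4 3 s_1_0_3_0 1 0 3 = true :=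
  tab_C gtab4 2 _ _ 1 0 3 d_1_0_3_0 x_1_0_4_0 c_1_0_4

theorem d_1_0_2_4 : runD gtab4 0 [] 1 0 2 4 = true := rfl

theorem d_1_0_2_3 : runD gtab4 1 [] 1 0 2 3 = true :=
  tab_D gtab4 0 _ _ 1 0 2 3 (by decide) (xop_nil _) d_1_0_2_4

theorem d_1_0_2_2 : runD gtab4 2 [] 1 0 2 2 = true :=
  tab_D gtab4 1 _ _ 1 0 2 2 (by decide) (xop_nil _) d_1_0_2_3

theorem d_1_0_2_1 : runD gtab4 3 s_1_0_2_1 1 0 2 1 = true :=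
  tab_D gtab4 2 _ _ 1 0 2 1 ok_1_0_2_1 x_1_0_2_2 d_1_0_2_2

theorem d_1_0_2_0 : runD gtab4 4 s_1_0_2_0 1 0 2 0 = true :=
  tab_D gtab4 3 _ _ 1 0 2 0 ok_1_0_2_0 x_1_0_2_1 d_1_0_2_1

theorem c_1_0_2 : runC gtab4 4 s_1_0_2_0 1 0 2 = true :=
  tab_C gtab4 3 _ _ 1 0 2 d_1_0_2_0 x_1_0_3_0 c_1_0_3

theorem d_1_0_1_5 : runD gtab4 0 [] 1 0 1 5 = true := rfl

theorem d_1_0_1_4 : runD gtab4 1 [] 1 0 1 4 = true :=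
  tab_D gtab4 0 _ _ 1 0 1 4 (by decide) (xop_nil _) d_1_0_1_5

theorem d_1_0_1_3 : runD gtab4 2 [] 1 0 1 3 = true :=
  tab_D gtab4 1 _ _ 1 0 1 3 (by decide) (xop_nil _) d_1_0_1_4

theorem d_1_0_1_2 : runD gtab4 3 s_1_0_1_2 1 0 1 2 = true :=
  tab_D gtab4 2 _ _ 1 0 1 2 ok_1_0_1_2 x_1_0_1_3 d_1_0_1_3

theorem d_1_0_1_1 : runD gtab4 4 s_1_0_1_1 1 0 1 1 = true :=
  tab_D gtab4 3 _ _ 1 0 1 1 ok_1_0_1_1 x_1_0_1_2 d_1_0_1_2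

theorem d_1_0_1_0 : runD gtab4 5 s_1_0_1_0 1 0 1 0 = true :=
  tab_D gtab4 4 _ _ 1 0 1 0 ok_1_0_1_0 x_1_0_1_1 d_1_0_1_1

theorem c_1_0_1 : runC gtab4 5 s_1_0_1_0 1 0 1 = true :=
  tab_C gtab4 4 _ _ 1 0 1 d_1_0_1_0 x_1_0_2_0 c_1_0_2

theorem d_1_0_0_6 : runD gtab4 0 [] 1 0 0 6 = true := rfl

theorem d_1_0_0_5 : runD gtab4 1 [] 1 0 0 5 = true :=
  tab_D gtab4 0 _ _ 1 0 0 5 (by decide) (xop_nil _) d_1_0_0_6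

theorem d_1_0_0_4 : runD gtab4 2 [] 1 0 0 4 = true :=
  tab_D gtab4 1 _ _ 1 0 0 4 (by decide) (xop_nil _) d_1_0_0_5

theorem d_1_0_0_3 : runD gtab4 3 [] 1 0 0 3 = true :=
  tab_D gtab4 2 _ _ 1 0 0 3 (by decide) (xop_nil _) d_1_0_0_4

theorem d_1_0_0_2 : runD gtab4 4 s_1_0_0_2 1 0 0 2 = true :=
  tab_D gtab4 3 _ _ 1 0 0 2 ok_1_0_0_2 x_1_0_0_3 d_1_0_0_3

theorem d_1_0_0_1 : runD gtab4 5 s_1_0_0_1 1 0 0 1 = true :=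
  tab_D gtab4 4 _ _ 1 0 0 1 ok_1_0_0_1 x_1_0_0_2 d_1_0_0_2

theorem d_1_0_0_0 : runD gtab4 6 s_1_0_0_0 1 0 0 0 = true :=
  tab_D gtab4 5 _ _ 1 0 0 0 ok_1_0_0_0 x_1_0_0_1 d_1_0_0_1

theorem c_1_0_0 : runC gtab4 6 s_1_0_0_0 1 0 0 = true :=
  tab_C gtab4 5 _ _ 1 0 0 d_1_0_0_0 x_1_0_1_0 c_1_0_1

theorem b_1_0 : runB gtab4 6 s_1_0_0_0 1 0 = true :=
  tab_B gtab4 5 _ _ 1 0 c_1_0_0 x_1_1_0_0 b_1_1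

theorem a_1 : runA gtab4 6 s_1_0_0_0 1 = true :=
  tab_A gtab4 5 _ _ 1 b_1_0 x_2_0_0_0 a_2

theorem d_0_7_0_0 : runD gtab4 0 [] 0 7 0 0 = true := rfl

theorem c_0_7_0 : runC gtab4 0 [] 0 7 0 = true := rfl

theorem b_0_7 : runB gtab4 0 [] 0 7 = true := rfl

theorem d_0_6_1_0 : runD gtab4 0 [] 0 6 1 0 = true := rfl

theorem c_0_6_1 : runC gtab4 0 [] 0 6 1 = true := rfl

theorem d_0_6_0_1 : runD gtab4 0 [] 0 6 0 1 = true := rfl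

theorem d_0_6_0_0 : runD gtab4 1 s_0_6_0_0 0 6 0 0 = true :=
  tab_D gtab4 0 _ _ 0 6 0 0 ok_0_6_0_0 x_0_6_0_1 d_0_6_0_1

theorem c_0_6_0 : runC gtab4 1 s_0_6_0_0 0 6 0 = true :=
  tab_C gtab4 0 _ _ 0 6 0 d_0_6_0_0 x_0_6_1_0 c_0_6_1

theorem b_0_6 : runB gtab4 1 s_0_6_0_0 0 6 = true :=
  tab_B gtab4 0 _ _ 0 6 c_0_6_0 x_0_7_0_0 b_0_7

theorem d_0_5_2_0 : runD gtab4 0 [] 0 5 2 0 = true := rfl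

theorem c_0_5_2 : runC gtab4 0 [] 0 5 2 = true := rfl

theorem d_0_5_1_1 : runD gtab4 0 [] 0 5 1 1 = true := rfl

theorem d_0_5_1_0 : runD gtab4 1 s_0_5_1_0 0 5 1 0 = true :=
  tab_D gtab4 0 _ _ 0 5 1 0 ok_0_5_1_0 x_0_5_1_1 d_0_5_1_1

theorem c_0_5_1 : runC gtab4 1 s_0_5_1_0 0 5 1 = true :=
  tab_C gtab4 0 _ _ 0 5 1 d_0_5_1_0 x_0_5_2_0 c_0_5_2

theorem d_0_5_0_2 : runD gtab4 0 [] 0 5 0 2 = true := rfl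

theorem d_0_5_0_1 : runD gtab4 1 [] 0 5 0 1 = true :=
  tab_D gtab4 0 _ _ 0 5 0 1 (by decide) (xop_nil _) d_0_5_0_2

theorem d_0_5_0_0 : runD gtab4 2 s_0_5_0_0 0 5 0 0 = true :=
  tab_D gtab4 1 _ _ 0 5 0 0 ok_0_5_0_0 x_0_5_0_1 d_0_5_0_1

theorem c_0_5_0 : runC gtab4 2 s_0_5_0_0 0 5 0 = true :=
  tab_C gtab4 1 _ _ 0 5 0 d_0_5_0_0 x_0_5_1_0 c_0_5_1

theorem b_0_5 : runB gtab4 2 s_0_5_0_0 0 5 = true :=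
  tab_B gtab4 1 _ _ 0 5 c_0_5_0 x_0_6_0_0 b_0_6

theorem d_0_4_3_0 : runD gtab4 0 [] 0 4 3 0 = true := rfl

theorem c_0_4_3 : runC gtab4 0 [] 0 4 3 = true := rfl

theorem d_0_4_2_1 : runD gtab4 0 [] 0 4 2 1 = true := rfl

theorem d_0_4_2_0 : runD gtab4 1 s_0_4_2_0 0 4 2 0 = true :=
  tab_D gtab4 0 _ _ 0 4 2 0 ok_0_4_2_0 x_0_4_2_1 d_0_4_2_1

theorem c_0_4_2 : runC gtab4 1 s_0_4_2_0 0 4 2 = true :=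
  tab_C gtab4 0 _ _ 0 4 2 d_0_4_2_0 x_0_4_3_0 c_0_4_3

theorem d_0_4_1_2 : runD gtab4 0 [] 0 4 1 2 = true := rfl

theorem d_0_4_1_1 : runD gtab4 1 [] 0 4 1 1 = true :=
  tab_D gtab4 0 _ _ 0 4 1 1 (by decide) (xop_nil _) d_0_4_1_2

theorem d_0_4_1_0 : runD gtab4 2 s_0_4_1_0 0 4 1 0 = true :=
  tab_D gtab4 1 _ _ 0 4 1 0 ok_0_4_1_0 x_0_4_1_1 d_0_4_1_1

theorem c_0_4_1 : runC gtab4 2 s_0_4_1_0 0 4 1 = true :=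
  tab_C gtab4 1 _ _ 0 4 1 d_0_4_1_0 x_0_4_2_0 c_0_4_2

theorem d_0_4_0_3 : runD gtab4 0 [] 0 4 0 3 = true := rfl

theorem d_0_4_0_2 : runD gtab4 1 [] 0 4 0 2 = true :=
  tab_D gtab4 0 _ _ 0 4 0 2 (by decide) (xop_nil _) d_0_4_0_3

theorem d_0_4_0_1 : runD gtab4 2 s_0_4_0_1 0 4 0 1 = true :=
  tab_D gtab4 1 _ _ 0 4 0 1 ok_0_4_0_1 x_0_4_0_2 d_0_4_0_2

theorem d_0_4_0_0 : runD gtab4 3 s_0_4_0_0 0 4 0 0 = true :=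
  tab_D gtab4 2 _ _ 0 4 0 0 ok_0_4_0_0 x_0_4_0_1 d_0_4_0_1

theorem c_0_4_0 : runC gtab4 3 s_0_4_0_0 0 4 0 = true :=
  tab_C gtab4 2 _ _ 0 4 0 d_0_4_0_0 x_0_4_1_0 c_0_4_1

theorem b_0_4 : runB gtab4 3 s_0_4_0_0 0 4 = true :=
  tab_B gtab4 2 _ _ 0 4 c_0_4_0 x_0_5_0_0 b_0_5

theorem d_0_3_4_0 : runD gtab4 0 [] 0 3 4 0 = true := rfl

theorem c_0_3_4 : runC gtab4 0 [] 0 3 4 = true := rfl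

theorem d_0_3_3_1 : runD gtab4 0 [] 0 3 3 1 = true := rfl

theorem d_0_3_3_0 : runD gtab4 1 s_0_3_3_0 0 3 3 0 = true :=
  tab_D gtab4 0 _ _ 0 3 3 0 ok_0_3_3_0 x_0_3_3_1 d_0_3_3_1

theorem c_0_3_3 : runC gtab4 1 s_0_3_3_0 0 3 3 = true :=
  tab_C gtab4 0 _ _ 0 3 3 d_0_3_3_0 x_0_3_4_0 c_0_3_4

theorem d_0_3_2_2 : runD gtab4 0 [] 0 3 2 2 = true := rfl

theorem d_0_3_2_1 : runD gtab4 1 [] 0 3 2 1 = true :=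
  tab_D gtab4 0 _ _ 0 3 2 1 (by decide) (xop_nil _) d_0_3_2_2

theorem d_0_3_2_0 : runD gtab4 2 s_0_3_2_0 0 3 2 0 = true :=
  tab_D gtab4 1 _ _ 0 3 2 0 ok_0_3_2_0 x_0_3_2_1 d_0_3_2_1

theorem c_0_3_2 : runC gtab4 2 s_0_3_2_0 0 3 2 = true :=
  tab_C gtab4 1 _ _ 0 3 2 d_0_3_2_0 x_0_3_3_0 c_0_3_3

theorem d_0_3_1_3 : runD gtab4 0 [] 0 3 1 3 = true := rfl

theorem d_0_3_1_2 : runD gtab4 1 [] 0 3 1 2 = true :=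
  tab_D gtab4 0 _ _ 0 3 1 2 (by decide) (xop_nil _) d_0_3_1_3

theorem d_0_3_1_1 : runD gtab4 2 s_0_3_1_1 0 3 1 1 = true :=
  tab_D gtab4 1 _ _ 0 3 1 1 ok_0_3_1_1 x_0_3_1_2 d_0_3_1_2

theorem d_0_3_1_0 : runD gtab4 3 s_0_3_1_0 0 3 1 0 = true :=
  tab_D gtab4 2 _ _ 0 3 1 0 ok_0_3_1_0 x_0_3_1_1 d_0_3_1_1

theorem c_0_3_1 : runC gtab4 3 s_0_3_1_0 0 3 1 = true :=
  tab_C gtab4 2 _ _ 0 3 1 d_0_3_1_0 x_0_3_2_0 c_0_3_2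

theorem d_0_3_0_4 : runD gtab4 0 [] 0 3 0 4 = true := rfl

theorem d_0_3_0_3 : runD gtab4 1 [] 0 3 0 3 = true :=
  tab_D gtab4 0 _ _ 0 3 0 3 (by decide) (xop_nil _) d_0_3_0_4

theorem d_0_3_0_2 : runD gtab4 2 [] 0 3 0 2 = true :=
  tab_D gtab4 1 _ _ 0 3 0 2 (by decide) (xop_nil _) d_0_3_0_3

theorem d_0_3_0_1 : runD gtab4 3 s_0_3_0_1 0 3 0 1 = true :=
  tab_D gtab4 2 _ _ 0 3 0 1 ok_0_3_0_1 x_0_3_0_2 d_0_3_0_2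

theorem d_0_3_0_0 : runD gtab4 4 s_0_3_0_0 0 3 0 0 = true :=
  tab_D gtab4 3 _ _ 0 3 0 0 ok_0_3_0_0 x_0_3_0_1 d_0_3_0_1

theorem c_0_3_0 : runC gtab4 4 s_0_3_0_0 0 3 0 = true :=
  tab_C gtab4 3 _ _ 0 3 0 d_0_3_0_0 x_0_3_1_0 c_0_3_1

theorem b_0_3 : runB gtab4 4 s_0_3_0_0 0 3 = true :=
  tab_B gtab4 3 _ _ 0 3 c_0_3_0 x_0_4_0_0 b_0_4

theorem d_0_2_5_0 : runD gtab4 0 [] 0 2 5 0 = true := rfl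

theorem c_0_2_5 : runC gtab4 0 [] 0 2 5 = true := rfl

theorem d_0_2_4_1 : runD gtab4 0 [] 0 2 4 1 = true := rfl

theorem d_0_2_4_0 : runD gtab4 1 s_0_2_4_0 0 2 4 0 = true :=
  tab_D gtab4 0 _ _ 0 2 4 0 ok_0_2_4_0 x_0_2_4_1 d_0_2_4_1

theorem c_0_2_4 : runC gtab4 1 s_0_2_4_0 0 2 4 = true :=
  tab_C gtab4 0 _ _ 0 2 4 d_0_2_4_0 x_0_2_5_0 c_0_2_5

theorem d_0_2_3_2 : runD gtab4 0 [] 0 2 3 2 = true := rfl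

theorem d_0_2_3_1 : runD gtab4 1 [] 0 2 3 1 = true :=
  tab_D gtab4 0 _ _ 0 2 3 1 (by decide) (xop_nil _) d_0_2_3_2

theorem d_0_2_3_0 : runD gtab4 2 s_0_2_3_0 0 2 3 0 = true :=
  tab_D gtab4 1 _ _ 0 2 3 0 ok_0_2_3_0 x_0_2_3_1 d_0_2_3_1

theorem c_0_2_3 : runC gtab4 2 s_0_2_3_0 0 2 3 = true :=
  tab_C gtab4 1 _ _ 0 2 3 d_0_2_3_0 x_0_2_4_0 c_0_2_4

theorem d_0_2_2_3 : runD gtab4 0 [] 0 2 2 3 = true := rfl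

theorem d_0_2_2_2 : runD gtab4 1 [] 0 2 2 2 = true :=
  tab_D gtab4 0 _ _ 0 2 2 2 (by decide) (xop_nil _) d_0_2_2_3

theorem d_0_2_2_1 : runD gtab4 2 s_0_2_2_1 0 2 2 1 = true :=
  tab_D gtab4 1 _ _ 0 2 2 1 ok_0_2_2_1 x_0_2_2_2 d_0_2_2_2

theorem d_0_2_2_0 : runD gtab4 3 s_0_2_2_0 0 2 2 0 = true :=
  tab_D gtab4 2 _ _ 0 2 2 0 ok_0_2_2_0 x_0_2_2_1 d_0_2_2_1

theorem c_0_2_2 : runC gtab4 3 s_0_2_2_0 0 2 2 = true :=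
  tab_C gtab4 2 _ _ 0 2 2 d_0_2_2_0 x_0_2_3_0 c_0_2_3

theorem d_0_2_1_4 : runD gtab4 0 [] 0 2 1 4 = true := rfl

theorem d_0_2_1_3 : runD gtab4 1 [] 0 2 1 3 = true :=
  tab_D gtab4 0 _ _ 0 2 1 3 (by decide) (xop_nil _) d_0_2_1_4

theorem d_0_2_1_2 : runD gtab4 2 [] 0 2 1 2 = true :=
  tab_D gtab4 1 _ _ 0 2 1 2 (by decide) (xop_nil _) d_0_2_1_3

theorem d_0_2_1_1 : runD gtab4 3 s_0_2_1_1 0 2 1 1 = true :=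
  tab_D gtab4 2 _ _ 0 2 1 1 ok_0_2_1_1 x_0_2_1_2 d_0_2_1_2

theorem d_0_2_1_0 : runD gtab4 4 s_0_2_1_0 0 2 1 0 = true :=
  tab_D gtab4 3 _ _ 0 2 1 0 ok_0_2_1_0 x_0_2_1_1 d_0_2_1_1

theorem c_0_2_1 : runC gtab4 4 s_0_2_1_0 0 2 1 = true :=
  tab_C gtab4 3 _ _ 0 2 1 d_0_2_1_0 x_0_2_2_0 c_0_2_2

theorem d_0_2_0_5 : runD gtab4 0 [] 0 2 0 5 = true := rfl

theorem d_0_2_0_4 : runD gtab4 1 [] 0 2 0 4 = true :=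
  tab_D gtab4 0 _ _ 0 2 0 4 (by decide) (xop_nil _) d_0_2_0_5

theorem d_0_2_0_3 : runD gtab4 2 [] 0 2 0 3 = true :=
  tab_D gtab4 1 _ _ 0 2 0 3 (by decide) (xop_nil _) d_0_2_0_4

theorem d_0_2_0_2 : runD gtab4 3 s_0_2_0_2 0 2 0 2 = true :=
  tab_D gtab4 2 _ _ 0 2 0 2 ok_0_2_0_2 x_0_2_0_3 d_0_2_0_3

theorem d_0_2_0_1 : runD gtab4 4 s_0_2_0_1 0 2 0 1 = true :=
  tab_D gtab4 3 _ _ 0 2 0 1 ok_0_2_0_1 x_0_2_0_2 d_0_2_0_2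

theorem d_0_2_0_0 : runD gtab4 5 s_0_2_0_0 0 2 0 0 = true :=
  tab_D gtab4 4 _ _ 0 2 0 0 ok_0_2_0_0 x_0_2_0_1 d_0_2_0_1

theorem c_0_2_0 : runC gtab4 5 s_0_2_0_0 0 2 0 = true :=
  tab_C gtab4 4 _ _ 0 2 0 d_0_2_0_0 x_0_2_1_0 c_0_2_1

theorem b_0_2 : runB gtab4 5 s_0_2_0_0 0 2 = true :=
  tab_B gtab4 4 _ _ 0 2 c_0_2_0 x_0_3_0_0 b_0_3

theorem d_0_1_6_0 : runD gtab4 0 [] 0 1 6 0 = true := rfl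

theorem c_0_1_6 : runC gtab4 0 [] 0 1 6 = true := rfl

theorem d_0_1_5_1 : runD gtab4 0 [] 0 1 5 1 = true := rfl

theorem d_0_1_5_0 : runD gtab4 1 s_0_1_5_0 0 1 5 0 = true :=
  tab_D gtab4 0 _ _ 0 1 5 0 ok_0_1_5_0 x_0_1_5_1 d_0_1_5_1

theorem c_0_1_5 : runC gtab4 1 s_0_1_5_0 0 1 5 = true :=
  tab_C gtab4 0 _ _ 0 1 5 d_0_1_5_0 x_0_1_6_0 c_0_1_6

theorem d_0_1_4_2 : runD gtab4 0 [] 0 1 4 2 = true := rfl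

theorem d_0_1_4_1 : runD gtab4 1 [] 0 1 4 1 = true :=
  tab_D gtab4 0 _ _ 0 1 4 1 (by decide) (xop_nil _) d_0_1_4_2

theorem d_0_1_4_0 : runD gtab4 2 s_0_1_4_0 0 1 4 0 = true :=
  tab_D gtab4 1 _ _ 0 1 4 0 ok_0_1_4_0 x_0_1_4_1 d_0_1_4_1

theorem c_0_1_4 : runC gtab4 2 s_0_1_4_0 0 1 4 = true :=
  tab_C gtab4 1 _ _ 0 1 4 d_0_1_4_0 x_0_1_5_0 c_0_1_5

theorem d_0_1_3_3 : runD gtab4 0 [] 0 1 3 3 = true := rfl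

theorem d_0_1_3_2 : runD gtab4 1 [] 0 1 3 2 = true :=
  tab_D gtab4 0 _ _ 0 1 3 2 (by decide) (xop_nil _) d_0_1_3_3

theorem d_0_1_3_1 : runD gtab4 2 s_0_1_3_1 0 1 3 1 = true :=
  tab_D gtab4 1 _ _ 0 1 3 1 ok_0_1_3_1 x_0_1_3_2 d_0_1_3_2

theorem d_0_1_3_0 : runD gtab4 3 s_0_1_3_0 0 1 3 0 = true :=
  tab_D gtab4 2 _ _ 0 1 3 0 ok_0_1_3_0 x_0_1_3_1 d_0_1_3_1

theorem c_0_1_3 : runC gtab4 3 s_0_1_3_0 0 1 3 = true :=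
  tab_C gtab4 2 _ _ 0 1 3 d_0_1_3_0 x_0_1_4_0 c_0_1_4

theorem d_0_1_2_4 : runD gtab4 0 [] 0 1 2 4 = true := rfl

theorem d_0_1_2_3 : runD gtab4 1 [] 0 1 2 3 = true :=
  tab_D gtab4 0 _ _ 0 1 2 3 (by decide) (xop_nil _) d_0_1_2_4

theorem d_0_1_2_2 : runD gtab4 2 [] 0 1 2 2 = true :=
  tab_D gtab4 1 _ _ 0 1 2 2 (by decide) (xop_nil _) d_0_1_2_3

theorem d_0_1_2_1 : runD gtab4 3 s_0_1_2_1 0 1 2 1 = true :=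
  tab_D gtab4 2 _ _ 0 1 2 1 ok_0_1_2_1 x_0_1_2_2 d_0_1_2_2

theorem d_0_1_2_0 : runD gtab4 4 s_0_1_2_0 0 1 2 0 = true :=
  tab_D gtab4 3 _ _ 0 1 2 0 ok_0_1_2_0 x_0_1_2_1 d_0_1_2_1

theorem c_0_1_2 : runC gtab4 4 s_0_1_2_0 0 1 2 = true :=
  tab_C gtab4 3 _ _ 0 1 2 d_0_1_2_0 x_0_1_3_0 c_0_1_3

theorem d_0_1_1_5 : runD gtab4 0 [] 0 1 1 5 = true := rfl

theorem d_0_1_1_4 : runD gtab4 1 [] 0 1 1 4 = true :=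
  tab_D gtab4 0 _ _ 0 1 1 4 (by decide) (xop_nil _) d_0_1_1_5

theorem d_0_1_1_3 : runD gtab4 2 [] 0 1 1 3 = true :=
  tab_D gtab4 1 _ _ 0 1 1 3 (by decide) (xop_nil _) d_0_1_1_4

theorem d_0_1_1_2 : runD gtab4 3 [] 0 1 1 2 = true :=
  tab_D gtab4 2 _ _ 0 1 1 2 (by decide) (xop_nil _) d_0_1_1_3

theorem d_0_1_1_1 : runD gtab4 4 s_0_1_1_1 0 1 1 1 = true :=
  tab_D gtab4 3 _ _ 0 1 1 1 ok_0_1_1_1 x_0_1_1_2 d_0_1_1_2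

theorem d_0_1_1_0 : runD gtab4 5 s_0_1_1_0 0 1 1 0 = true :=
  tab_D gtab4 4 _ _ 0 1 1 0 ok_0_1_1_0 x_0_1_1_1 d_0_1_1_1

theorem c_0_1_1 : runC gtab4 5 s_0_1_1_0 0 1 1 = true :=
  tab_C gtab4 4 _ _ 0 1 1 d_0_1_1_0 x_0_1_2_0 c_0_1_2

theorem d_0_1_0_6 : runD gtab4 0 [] 0 1 0 6 = true := rfl

theorem d_0_1_0_5 : runD gtab4 1 [] 0 1 0 5 = true :=
  tab_D gtab4 0 _ _ 0 1 0 5 (by decide) (xop_nil _) d_0_1_0_6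

theorem d_0_1_0_4 : runD gtab4 2 [] 0 1 0 4 = true :=
  tab_D gtab4 1 _ _ 0 1 0 4 (by decide) (xop_nil _) d_0_1_0_5

theorem d_0_1_0_3 : runD gtab4 3 [] 0 1 0 3 = true :=
  tab_D gtab4 2 _ _ 0 1 0 3 (by decide) (xop_nil _) d_0_1_0_4

theorem d_0_1_0_2 : runD gtab4 4 s_0_1_0_2 0 1 0 2 = true :=
  tab_D gtab4 3 _ _ 0 1 0 2 ok_0_1_0_2 x_0_1_0_3 d_0_1_0_3

theorem d_0_1_0_1 : runD gtab4 5 s_0_1_0_1 0 1 0 1 = true :=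
  tab_D gtab4 4 _ _ 0 1 0 1 ok_0_1_0_1 x_0_1_0_2 d_0_1_0_2

theorem d_0_1_0_0 : runD gtab4 6 s_0_1_0_0 0 1 0 0 = true :=
  tab_D gtab4 5 _ _ 0 1 0 0 ok_0_1_0_0 x_0_1_0_1 d_0_1_0_1

theorem c_0_1_0 : runC gtab4 6 s_0_1_0_0 0 1 0 = true :=
  tab_C gtab4 5 _ _ 0 1 0 d_0_1_0_0 x_0_1_1_0 c_0_1_1

theorem b_0_1 : runB gtab4 6 s_0_1_0_0 0 1 = true :=
  tab_B gtab4 5 _ _ 0 1 c_0_1_0 x_0_2_0_0 b_0_2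

theorem d_0_0_7_0 : runD gtab4 0 [] 0 0 7 0 = true := rfl

theorem c_0_0_7 : runC gtab4 0 [] 0 0 7 = true := rfl

theorem d_0_0_6_1 : runD gtab4 0 [] 0 0 6 1 = true := rfl

theorem d_0_0_6_0 : runD gtab4 1 s_0_0_6_0 0 0 6 0 = true :=
  tab_D gtab4 0 _ _ 0 0 6 0 ok_0_0_6_0 x_0_0_6_1 d_0_0_6_1

theorem c_0_0_6 : runC gtab4 1 s_0_0_6_0 0 0 6 = true :=
  tab_C gtab4 0 _ _ 0 0 6 d_0_0_6_0 x_0_0_7_0 c_0_0_7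

theorem d_0_0_5_2 : runD gtab4 0 [] 0 0 5 2 = true := rfl

theorem d_0_0_5_1 : runD gtab4 1 [] 0 0 5 1 = true :=
  tab_D gtab4 0 _ _ 0 0 5 1 (by decide) (xop_nil _) d_0_0_5_2

theorem d_0_0_5_0 : runD gtab4 2 s_0_0_5_0 0 0 5 0 = true :=
  tab_D gtab4 1 _ _ 0 0 5 0 ok_0_0_5_0 x_0_0_5_1 d_0_0_5_1

theorem c_0_0_5 : runC gtab4 2 s_0_0_5_0 0 0 5 = true :=
  tab_C gtab4 1 _ _ 0 0 5 d_0_0_5_0 x_0_0_6_0 c_0_0_6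

theorem d_0_0_4_3 : runD gtab4 0 [] 0 0 4 3 = true := rfl

theorem d_0_0_4_2 : runD gtab4 1 [] 0 0 4 2 = true :=
  tab_D gtab4 0 _ _ 0 0 4 2 (by decide) (xop_nil _) d_0_0_4_3

theorem d_0_0_4_1 : runD gtab4 2 s_0_0_4_1 0 0 4 1 = true :=
  tab_D gtab4 1 _ _ 0 0 4 1 ok_0_0_4_1 x_0_0_4_2 d_0_0_4_2

theorem d_0_0_4_0 : runD gtab4 3 s_0_0_4_0 0 0 4 0 = true :=
  tab_D gtab4 2 _ _ 0 0 4 0 ok_0_0_4_0 x_0_0_4_1 d_0_0_4_1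

theorem c_0_0_4 : runC gtab4 3 s_0_0_4_0 0 0 4 = true :=
  tab_C gtab4 2 _ _ 0 0 4 d_0_0_4_0 x_0_0_5_0 c_0_0_5

theorem d_0_0_3_4 : runD gtab4 0 [] 0 0 3 4 = true := rfl

theorem d_0_0_3_3 : runD gtab4 1 [] 0 0 3 3 = true :=
  tab_D gtab4 0 _ _ 0 0 3 3 (by decide) (xop_nil _) d_0_0_3_4

theorem d_0_0_3_2 : runD gtab4 2 [] 0 0 3 2 = true :=
  tab_D gtab4 1 _ _ 0 0 3 2 (by decide) (xop_nil _) d_0_0_3_3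

theorem d_0_0_3_1 : runD gtab4 3 s_0_0_3_1 0 0 3 1 = true :=
  tab_D gtab4 2 _ _ 0 0 3 1 ok_0_0_3_1 x_0_0_3_2 d_0_0_3_2

theorem d_0_0_3_0 : runD gtab4 4 s_0_0_3_0 0 0 3 0 = true :=
  tab_D gtab4 3 _ _ 0 0 3 0 ok_0_0_3_0 x_0_0_3_1 d_0_0_3_1

theorem c_0_0_3 : runC gtab4 4 s_0_0_3_0 0 0 3 = true :=
  tab_C gtab4 3 _ _ 0 0 3 d_0_0_3_0 x_0_0_4_0 c_0_0_4

theorem d_0_0_2_5 : runD gtab4 0 [] 0 0 2 5 = true := rfl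

theorem d_0_0_2_4 : runD gtab4 1 [] 0 0 2 4 = true :=
  tab_D gtab4 0 _ _ 0 0 2 4 (by decide) (xop_nil _) d_0_0_2_5

theorem d_0_0_2_3 : runD gtab4 2 [] 0 0 2 3 = true :=
  tab_D gtab4 1 _ _ 0 0 2 3 (by decide) (xop_nil _) d_0_0_2_4

theorem d_0_0_2_2 : runD gtab4 3 [] 0 0 2 2 = true :=
  tab_D gtab4 2 _ _ 0 0 2 2 (by decide) (xop_nil _) d_0_0_2_3

theorem d_0_0_2_1 : runD gtab4 4 s_0_0_2_1 0 0 2 1 = true :=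
  tab_D gtab4 3 _ _ 0 0 2 1 ok_0_0_2_1 x_0_0_2_2 d_0_0_2_2

theorem d_0_0_2_0 : runD gtab4 5 s_0_0_2_0 0 0 2 0 = true :=
  tab_D gtab4 4 _ _ 0 0 2 0 ok_0_0_2_0 x_0_0_2_1 d_0_0_2_1

theorem c_0_0_2 : runC gtab4 5 s_0_0_2_0 0 0 2 = true :=
  tab_C gtab4 4 _ _ 0 0 2 d_0_0_2_0 x_0_0_3_0 c_0_0_3

theorem d_0_0_1_6 : runD gtab4 0 [] 0 0 1 6 = true := rfl

theorem d_0_0_1_5 : runD gtab4 1 [] 0 0 1 5 = true :=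
  tab_D gtab4 0 _ _ 0 0 1 5 (by decide) (xop_nil _) d_0_0_1_6

theorem d_0_0_1_4 : runD gtab4 2 [] 0 0 1 4 = true :=
  tab_D gtab4 1 _ _ 0 0 1 4 (by decide) (xop_nil _) d_0_0_1_5

theorem d_0_0_1_3 : runD gtab4 3 [] 0 0 1 3 = true :=
  tab_D gtab4 2 _ _ 0 0 1 3 (by decide) (xop_nil _) d_0_0_1_4

theorem d_0_0_1_2 : runD gtab4 4 s_0_0_1_2 0 0 1 2 = true :=
  tab_D gtab4 3 _ _ 0 0 1 2 ok_0_0_1_2 x_0_0_1_3 d_0_0_1_3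

theorem d_0_0_1_1 : runD gtab4 5 s_0_0_1_1 0 0 1 1 = true :=
  tab_D gtab4 4 _ _ 0 0 1 1 ok_0_0_1_1 x_0_0_1_2 d_0_0_1_2

theorem d_0_0_1_0 : runD gtab4 6 s_0_0_1_0 0 0 1 0 = true :=
  tab_D gtab4 5 _ _ 0 0 1 0 ok_0_0_1_0 x_0_0_1_1 d_0_0_1_1

theorem c_0_0_1 : runC gtab4 6 s_0_0_1_0 0 0 1 = true :=
  tab_C gtab4 5 _ _ 0 0 1 d_0_0_1_0 x_0_0_2_0 c_0_0_2

theorem d_0_0_0_7 : runD gtab4 0 [] 0 0 0 7 = true := rfl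

theorem d_0_0_0_6 : runD gtab4 1 [] 0 0 0 6 = true :=
  tab_D gtab4 0 _ _ 0 0 0 6 (by decide) (xop_nil _) d_0_0_0_7

theorem d_0_0_0_5 : runD gtab4 2 [] 0 0 0 5 = true :=
  tab_D gtab4 1 _ _ 0 0 0 5 (by decide) (xop_nil _) d_0_0_0_6

theorem d_0_0_0_4 : runD gtab4 3 [] 0 0 0 4 = true :=
  tab_D gtab4 2 _ _ 0 0 0 4 (by decide) (xop_nil _) d_0_0_0_5

theorem d_0_0_0_3 : runD gtab4 4 [] 0 0 0 3 = true :=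
  tab_D gtab4 3 _ _ 0 0 0 3 (by decide) (xop_nil _) d_0_0_0_4

theorem d_0_0_0_2 : runD gtab4 5 s_0_0_0_2 0 0 0 2 = true :=
  tab_D gtab4 4 _ _ 0 0 0 2 ok_0_0_0_2 x_0_0_0_3 d_0_0_0_3

theorem d_0_0_0_1 : runD gtab4 6 s_0_0_0_1 0 0 0 1 = true :=
  tab_D gtab4 5 _ _ 0 0 0 1 ok_0_0_0_1 x_0_0_0_2 d_0_0_0_2

theorem d_0_0_0_0 : runD gtab4 7 om4 0 0 0 0 = true :=
  tab_D gtab4 6 _ _ 0 0 0 0 ok_0_0_0_0 x_0_0_0_1 d_0_0_0_1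

theorem c_0_0_0 : runC gtab4 7 om4 0 0 0 = true :=
  tab_C gtab4 6 _ _ 0 0 0 d_0_0_0_0 x_0_0_1_0 c_0_0_1

theorem b_0_0 : runB gtab4 7 om4 0 0 = true :=
  tab_B gtab4 6 _ _ 0 0 c_0_0_0 x_0_1_0_0 b_0_1

theorem a_0 : runA gtab4 7 om4 0 = true :=
  tab_A gtab4 6 _ _ 0 b_0_0 x_1_0_0_0 a_1

theorem tab4 : runA gtab4 7 om4 0 = true := a_0

end Pool.Agent.H52.O4
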