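import Pool.Agent.H52.O4.Spec

/-!
# Order four: the values of tuples of rows

`valAlt`, `valStep`, `valZero`.
-/

set_option autoImplicit false

open Polynomial

namespace Pool.Agent.H52.O4

/-- the window of coefficients -/
noncomputable def Val_cf (κ m : ℕ) : ℝ[X] →ₗ[ℝ] (Fin m → ℝ) :=
  LinearMap.pi fun j => Polynomial.lcoeff ℝ (κ + j)

/-- the determinant as an alternating map of the rows -/
noncomputable def Val_D (κ m : ℕ) : ℝ[X] [⋀^Fin m]→ₗ[ℝ] ℝ :=
  (Matrix.detRowAlternating (n := Fin m) (R := ℝ)).compLinearMap (Val_cf κ m)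

theorem Val_D_apply (κ m : ℕ) (v : Fin m → ℝ[X]) :
    Val_D κ m v = Matrix.det (Matrix.of fun i j : Fin m => (v i).coeff (κ + j)) := rfl

/-- the determinant of a list of rows (the first `m` entries) -/
noncomputable def Val_L (κ m : ℕ) (L : List ℝ[X]) : ℝ :=
  Val_D κ m fun i => L.getD i 0

theorem Val_update {m : ℕ} (s t : List ℝ[X]) (f g : ℝ[X]) (h : s.length < m) :
    (fun i : Fin m => (s ++ g :: t).getD i 0)
      = Function.update (fun i : Fin m => (s ++ f :: t).getD i 0) ⟨s.length, h⟩ g := by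
  funext i
  by_cases hi : i = ⟨s.length, h⟩
  · subst hi
    simp
  · rw [Function.update_of_ne hi]
    have h1 : (i : ℕ) ≠ s.length := fun h2 => hi (Fin.ext h2)
    rcases lt_or_gt_of_ne h1 with h2 | h2
    · rw [List.getD_append _ _ _ _ h2, List.getD_append _ _ _ _ h2]
    · rw [List.getD_append_right _ _ _ _ h2.le, List.getD_append_right _ _ _ _ h2.le]
      obtain ⟨k, hk⟩ : ∃ k, (i : ℕ) - s.length = k + 1 := ⟨(i : ℕ) - s.length - 1, by omega⟩
      rw [hk]
      simp

theorem Val_add {κ m : ℕ} (s t : List ℝ[X]) (f g : ℝ[X]) (h : s.length < m) :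
    Val_L κ m (s ++ (f + g) :: t) = Val_L κ m (s ++ f :: t) + Val_L κ m (s ++ g :: t) := by
  unfold Val_L
  rw [Val_update s t 0 (f + g) h, Val_update s t 0 f h, Val_update s t 0 g h]
  exact AlternatingMap.map_update_add _ _ _ _ _

theorem Val_smul {κ m : ℕ} (s t : List ℝ[X]) (c : ℝ) (f : ℝ[X]) (h : s.length < m) :
    Val_L κ m (s ++ (C c * f) :: t) = c * Val_L κ m (s ++ f :: t) := by
  unfold Val_L
  rw [Val_update s t 0 (C c * f) h, Val_update s t 0 f h, ← Polynomial.smul_eq_C_mul]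
  exact AlternatingMap.map_update_smul _ _ _ _ _

theorem Val_swap {κ m : ℕ} (s t : List ℝ[X]) (f g : ℝ[X]) (h : s.length + 1 < m) :
    Val_L κ m (s ++ f :: g :: t) = - Val_L κ m (s ++ g :: f :: t) := by
  unfold Val_L
  have h0 : s.length < m := by omega
  have hne : (⟨s.length, h0⟩ : Fin m) ≠ ⟨s.length + 1, h⟩ := by
    intro h2
    have := congrArg Fin.val h2
    simp at this
  rw [← AlternatingMap.map_swap _ _ hne]
  congr 1
  funext i
  simp only [Function.comp_apply]
  by_cases h1 : i = ⟨s.length, h0⟩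
  · subst h1
    rw [Equiv.swap_apply_left]
    simp
  · by_cases h2 : i = ⟨s.length + 1, h⟩
    · subst h2
      rw [Equiv.swap_apply_right]
      simp
    · rw [Equiv.swap_apply_of_ne_of_ne h1 h2]
      have h3 : (i : ℕ) ≠ s.length := fun h4 => h1 (Fin.ext h4)
      have h5 : (i : ℕ) ≠ s.length + 1 := fun h4 => h2 (Fin.ext h4)
      rcases lt_or_gt_of_ne h3 with h6 | h6
      · rw [List.getD_append _ _ _ _ h6, List.getD_append _ _ _ _ h6]
      · rw [List.getD_append_right _ _ _ _ h6.le, List.getD_append_right _ _ _ _ h6.le]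
        obtain ⟨k, hk⟩ : ∃ k, (i : ℕ) - s.length = k + 2 := ⟨(i : ℕ) - s.length - 2, by omega⟩
        rw [hk]
        simp

theorem Val_val (G F : List ℝ) (κ : ℕ) (t : List ℕ) :
    val G F κ t = Val_L κ t.length (t.map (rw0 G F)) := by
  unfold val Val_L
  rw [Val_D_apply]
  congr 1
  ext i j
  simp

theorem valAlt : ValAltSt := by
  intro G F κ s x y t
  rw [Val_val, Val_val]
  have e1 : (s ++ x :: y :: t).length = s.length + (t.length + 2) := by simp
  have e2 : (s ++ y :: x :: t).length = s.length + (t.length + 2) := by simp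
  rw [e1, e2, List.map_append, List.map_cons, List.map_cons, List.map_append, List.map_cons,
    List.map_cons]
  exact Val_swap _ _ _ _ (by rw [List.length_map]; omega)

/-! ### operators -/

theorem Val_opW_len {t : List ℕ} : ∀ {W : ℕ → ℕ → ℝ} {ℓ ℓ' : List ℕ → ℝ},
    (∀ s, s.length = t.length → ℓ s = ℓ' s) → opW W ℓ t = opW W ℓ' t := by
  induction t with
  | nil =>
    intro W ℓ ℓ' h
    rw [opW, opW, h [] rfl]
  | cons n t ih =>
    intro W ℓ ℓ' h
    rw [opW, opW]
    rw [ih (ℓ := fun s => ℓ (n :: s)) (ℓ' := fun s => ℓ' (n :: s))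
        (fun s hs => h _ (by simp [hs])),
      ih (ℓ := fun s => ℓ ((n + 8) :: s)) (ℓ' := fun s => ℓ' ((n + 8) :: s))
        (fun s hs => h _ (by simp [hs])),
      ih (ℓ := fun s => ℓ ((n - 1) :: s)) (ℓ' := fun s => ℓ' ((n - 1) :: s))
        (fun s hs => h _ (by simp [hs]))]

theorem Val_opW_wt {t : List ℕ} : ∀ {W W' : ℕ → ℕ → ℝ} {ℓ : List ℕ → ℝ},
    (∀ l i, l + i ≤ t.length → W l i = W' l i) → opW W ℓ t = opW W' ℓ t := by
  induction t with
  | nil =>
    intro W W' ℓ h
    rw [opW, opW, h 0 0 le_rfl]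
  | cons n t ih =>
    intro W W' ℓ h
    rw [List.length_cons] at h
    rw [opW, opW]
    rw [ih (W := W) (W' := W') (fun l i hl => h l i (by omega)),
      ih (W := fun l i => W l (i + 1)) (W' := fun l i => W' l (i + 1))
        (fun l i hl => h l (i + 1) (by omega)),
      ih (W := fun l i => W (l + 1) i) (W' := fun l i => W' (l + 1) i)
        (fun l i hl => h (l + 1) i (by omega))]

theorem Val_opW_add {t : List ℕ} : ∀ {W W' : ℕ → ℕ → ℝ} {ℓ : List ℕ → ℝ},
    opW (fun l i => W l i + W' l i) ℓ t = opW W ℓ t + opW W' ℓ t := by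
  induction t with
  | nil =>
    intro W W' ℓ
    rw [opW, opW, opW]
    ring
  | cons n t ih =>
    intro W W' ℓ
    rw [opW, opW, opW, ih, ih, ih]
    split_ifs <;> ring

theorem Val_opW_smul {t : List ℕ} : ∀ {c : ℝ} {W : ℕ → ℕ → ℝ} {ℓ : List ℕ → ℝ},
    opW (fun l i => c * W l i) ℓ t = c * opW W ℓ t := by
  induction t with
  | nil =>
    intro c W ℓ
    rw [opW, opW]
    ring
  | cons n t ih =>
    intro c W ℓ
    rw [opW, opW, ih, ih, ih]
    split_ifs <;> ring

theorem Val_expand {κ m : ℕ} {ρ σ : ℕ → ℝ[X]} {y w : ℝ}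
    (hρ : ∀ n, ρ n = σ n + C y * σ (n + 8) + (if n % 8 = 0 then 0 else C w * σ (n - 1))) :
    ∀ (t : List ℕ) (P : List ℝ[X]), P.length + t.length ≤ m →
      Val_L κ m (P ++ t.map ρ)
        = opW (fun l i => w ^ l * y ^ i) (fun s => Val_L κ m (P ++ s.map σ)) t := by
  intro t
  induction t with
  | nil =>
    intro P _
    rw [opW]
    simp
  | cons n t ih =>
    intro P hP
    rw [List.length_cons] at hP
    have hlt : P.length < m := by omega
    have step : ∀ f : ℝ[X], P ++ f :: t.map ρ = (P ++ [f]) ++ t.map ρ := by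
      intro f
      simp
    have hlen : ∀ f : ℝ[X], (P ++ [f]).length + t.length ≤ m := by
      intro f
      rw [List.length_append, List.length_singleton]
      omega
    have ex : ∀ k, Val_L κ m (P ++ σ k :: t.map ρ)
        = opW (fun l i => w ^ l * y ^ i) (fun s => Val_L κ m (P ++ (k :: s).map σ)) t := by
      intro k
      rw [step, ih _ (hlen _)]
      congr 1
      funext s
      simp
    rw [opW, List.map_cons, hρ n]
    have e1 : (fun l i => w ^ l * y ^ (i + 1)) = fun (l i : ℕ) => y * (w ^ l * y ^ i) := by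
      funext l i
      ring
    have e2 : (fun l i => w ^ (l + 1) * y ^ i) = fun (l i : ℕ) => w * (w ^ l * y ^ i) := by
      funext l i
      ring
    rw [e1, e2, Val_opW_smul, Val_opW_smul, ← ex, ← ex, ← ex]
    rw [Val_add _ _ _ _ hlt, Val_add _ _ _ _ hlt, Val_smul _ _ _ _ hlt]
    congr 1
    split_ifs with h0
    · have := Val_smul (κ := κ) (m := m) P (t.map ρ) 0 0 hlt
      simpa using this
    · rw [Val_smul _ _ _ _ hlt]

theorem Val_rowG (G F : List ℝ) (y : ℝ) (n : ℕ) :
    rw0 (y :: G) F n = rw0 G F n + C y * rw0 G F (n + 8) +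
      (if n % 8 = 0 then 0 else C 0 * rw0 G F (n - 1)) := by
  have e1 : (n + 8) / 8 = n / 8 + 1 := by omega
  have e2 : (n + 8) % 8 = n % 8 := by omega
  have e3 : (if n % 8 = 0 then (0 : ℝ[X]) else C 0 * rw0 G F (n - 1)) = 0 := by
    split_ifs <;> simp
  rw [e3, rw0, rw0, rw0, e1, e2, gp, pow_succ]
  ring

theorem Val_rowF (G F : List ℝ) (y : ℝ) (n : ℕ) :
    rw0 G (y :: F) n = rw0 G F n + C y * rw0 G F (n + 8) +
      (if n % 8 = 0 then 0 else C (1 + y) * rw0 G F (n - 1)) := by
  have e1 : (n + 8) / 8 = n / 8 + 1 := by omega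
  have e2 : (n + 8) % 8 = n % 8 := by omega
  rcases hk : n % 8 with _ | k
  · rw [if_pos rfl, rw0, rw0, rw0, e1, e2, hk, fk, pow_succ]
    ring
  · have e3 : (n - 1) / 8 = n / 8 := by omega
    have e4 : (n - 1) % 8 = k := by omega
    rw [if_neg (by omega), rw0, rw0, rw0, rw0, e1, e2, e3, e4, hk, fk, pow_succ]
    ring

theorem Val_one (G F G' F' : List ℝ) (κ : ℕ) (t : List ℕ) (y w : ℝ)
    (hρ : ∀ n, rw0 G' F' n = rw0 G F n + C y * rw0 G F (n + 8)
      + (if n % 8 = 0 then 0 else C w * rw0 G F (n - 1))) :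
    val G' F' κ t = opW (fun l i => w ^ l * y ^ i) (val G F κ) t := by
  rw [Val_val]
  have h := Val_expand (κ := κ) (m := t.length) hρ t [] (by simp)
  rw [List.nil_append] at h
  rw [h]
  apply Val_opW_len
  intro s hs
  rw [List.nil_append, Val_val, hs]

theorem valStep : ValStepSt := by
  intro G F κ y t ht
  rw [Val_one G F G (y :: F) κ t y (1 + y) (Val_rowF G F y),
    Val_one G F (y :: G) F κ t y 0 (Val_rowG G F y)]
  unfold opX
  rw [← Val_opW_smul (c := y), ← Val_opW_smul (c := y ^ 2), ← Val_opW_smul (c := y ^ 3),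
    ← Val_opW_add, ← Val_opW_add, ← Val_opW_add, ← Val_opW_smul, ← Val_opW_add]
  apply Val_opW_wt
  intro l i hl
  have h4 : l + i ≤ 4 := hl.trans ht
  have hl4 : l ≤ 4 := by omega
  have hi4 : i ≤ 4 := by omega
  interval_cases l <;> interval_cases i <;> first | omega | (simp [wt, Nat.choose]; try ring)

theorem valZero : ValZeroSt := by
  intro G κ t ht
  have h : ∃ n ∈ t, n % 8 ≠ 0 := by
    by_contra hcon
    push Not at hcon
    have : isB t = true := by
      rw [isB, List.all_eq_true]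
      intro n hn
      simpa using hcon n hn
    rw [this] at ht
    simp at ht
  obtain ⟨n, hn, hn8⟩ := h
  obtain ⟨i, hi⟩ := List.get_of_mem hn
  rw [val]
  apply Matrix.det_eq_zero_of_row_eq_zero i
  intro j
  obtain ⟨k, hk⟩ := Nat.exists_eq_succ_of_ne_zero hn8
  rw [Matrix.of_apply, hi, rw0, hk, fk]
  simp

end Pool.Agent.H52.O4
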