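import Pool.Agent.H52.O4.Alg
import Pool.Agent.H52.O4.Nrm
import Pool.Agent.H52.O4.Val
import Pool.Agent.H52.O4.Pf
import Pool.Agent.H52.O4.ExcB
import Pool.Agent.H52.O4.Run
import Pool.Agent.H37.O4.RowD
import Pool.Agent.H52.O4.Main
import Pool.Agent.H52.O4.Tab

/-!
# Order four: solid minors of orders three and four
-/

set_option autoImplicit false

namespace Pool.Agent.H52.O4

theorem main : MainSt :=
  main_of alt com xopOk valAlt valStep valZero pf pfPos XB.qpos XB.excOk run okOk
    (Pool.Agent.H37.O4.row_of valAlt) tab3 tab4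

end Pool.Agent.H52.O4
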