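import Pool.Agent.H52.O4.Spec

/-!
# Order four: nonnegativity of sums over words and the exchange inequality
-/

set_option autoImplicit false

namespace Pool.Agent.H52.O4

lemma exc_Q_add (f g : ℕ → ℕ → ℕ → ℕ → ℝ) (ys : List ℝ) :
    Q (fun a b c d => f a b c d + g a b c d) ys = Q f ys + Q g ys := by
  induction ys generalizing f g with
  | nil => simp [Q]
  | cons y ys ih =>
    simp only [Q]
    rw [ih (fun a b c d => f (a + 1) b c d) (fun a b c d => g (a + 1) b c d),
      ih (fun a b c d => f a (b + 1) c d) (fun a b c d => g a (b + 1) c d),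
      ih (fun a b c d => f a b (c + 1) d) (fun a b c d => g a b (c + 1) d),
      ih (fun a b c d => f a b c (d + 1)) (fun a b c d => g a b c (d + 1))]
    ring

lemma exc_Q_mul (r : ℝ) (f : ℕ → ℕ → ℕ → ℕ → ℝ) (ys : List ℝ) :
    Q (fun a b c d => r * f a b c d) ys = r * Q f ys := by
  induction ys generalizing f with
  | nil => simp [Q]
  | cons y ys ih =>
    simp only [Q]
    rw [ih (fun a b c d => f (a + 1) b c d), ih (fun a b c d => f a (b + 1) c d),
      ih (fun a b c d => f a b (c + 1) d), ih (fun a b c d => f a b c (d + 1))]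
    ring

theorem Q_add (f g : ℕ → ℕ → ℕ → ℕ → ℝ) (ys : List ℝ) :
    Q (fun a b c d => f a b c d + g a b c d) ys = Q f ys + Q g ys := exc_Q_add f g ys

theorem Q_smul (r : ℝ) (f : ℕ → ℕ → ℕ → ℕ → ℝ) (ys : List ℝ) :
    Q (fun a b c d => r * f a b c d) ys = r * Q f ys := exc_Q_mul r f ys

theorem Q_congr (f g : ℕ → ℕ → ℕ → ℕ → ℝ) (ys : List ℝ)
    (h : ∀ a b c d, a + b + c + d = ys.length → f a b c d = g a b c d) : Q f ys = Q g ys := by
  induction ys generalizing f g with
  | nil => simpa [Q] using h 0 0 0 0 (by simp)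
  | cons y ys ih =>
    simp only [Q]
    rw [ih (fun a b c d => f (a + 1) b c d) (fun a b c d => g (a + 1) b c d)
        (fun a b c d e => h _ _ _ _ (by simp only [List.length_cons]; omega)),
      ih (fun a b c d => f a (b + 1) c d) (fun a b c d => g a (b + 1) c d)
        (fun a b c d e => h _ _ _ _ (by simp only [List.length_cons]; omega)),
      ih (fun a b c d => f a b (c + 1) d) (fun a b c d => g a b (c + 1) d)
        (fun a b c d e => h _ _ _ _ (by simp only [List.length_cons]; omega)),
      ih (fun a b c d => f a b c (d + 1)) (fun a b c d => g a b c (d + 1))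
        (fun a b c d e => h _ _ _ _ (by simp only [List.length_cons]; omega))]

theorem Q_zero (ys : List ℝ) : Q (fun _ _ _ _ => 0) ys = 0 := by
  induction ys with
  | nil => simp [Q]
  | cons y ys ih => simp only [Q, ih]; ring

theorem Q_sum {α : Type} (L : List α) (f : α → ℕ → ℕ → ℕ → ℕ → ℝ) (ys : List ℝ) :
    Q (fun a b c d => (L.map fun x => f x a b c d).sum) ys = (L.map fun x => Q (f x) ys).sum := by
  induction L with
  | nil => simpa using Q_zero ys
  | cons x L ih =>
    simp only [List.map_cons, List.sum_cons]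
    rw [Q_add, ih]

theorem qpos : QposSt := by
  intro f ys
  induction ys generalizing f with
  | nil =>
    intro _ h
    simpa [Q] using h 0 0 0 0 (by simp)
  | cons y ys ih =>
    intro hy h
    have hy0 : 0 ≤ y := hy y (by simp)
    have hys : ∀ z ∈ ys, 0 ≤ z := fun z hz => hy z (by simp [hz])
    have h0 := ih (fun a b c d => f (a + 1) b c d) hys
      (fun a b c d e => h _ _ _ _ (by simp only [List.length_cons]; omega))
    have h1 := ih (fun a b c d => f a (b + 1) c d) hys
      (fun a b c d e => h _ _ _ _ (by simp only [List.length_cons]; omega))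
    have h2 := ih (fun a b c d => f a b (c + 1) d) hys
      (fun a b c d e => h _ _ _ _ (by simp only [List.length_cons]; omega))
    have h3 := ih (fun a b c d => f a b c (d + 1)) hys
      (fun a b c d e => h _ _ _ _ (by simp only [List.length_cons]; omega))
    simp only [Q]
    positivity

/-- One exchange partner fixed. -/
noncomputable def excR (y : ℝ) (g : ℕ → ℕ → ℕ → ℕ → ℝ) : ℕ → ℕ → ℕ → ℕ → ℝ :=
  fun a b c d => (c : ℝ) * g a b (c - 1) d - 2 * y * (b : ℝ) * g a (b - 1) c d
    + y ^ 2 * (a : ℝ) * g (a - 1) b c d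

/-- The exchange operator. -/
noncomputable def excP (g : ℕ → ℕ → ℕ → ℕ → ℝ) : ℕ → ℕ → ℕ → ℕ → ℝ :=
  fun a b c d => (a : ℝ) * (c : ℝ) * g (a - 1) b (c - 1) d
    - (b : ℝ) * ((b : ℝ) - 1) * g a (b - 2) c d

lemma exc_R_cons (y : ℝ) (g : ℕ → ℕ → ℕ → ℕ → ℝ) (z : ℝ) (zs : List ℝ) :
    Q (excR y g) (z :: zs) =
      Q (excR y (fun a b c d => g (a + 1) b c d)) zs
      + z * Q (excR y (fun a b c d => g a (b + 1) c d)) zs
      + z ^ 2 * Q (excR y (fun a b c d => g a b (c + 1) d)) zs
      + z ^ 3 * Q (excR y (fun a b c d => g a b c (d + 1))) zs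
      + (y - z) ^ 2 * Q g zs := by
  have e0 : (fun a b c d => excR y g (a + 1) b c d) =
      fun a b c d => excR y (fun a b c d => g (a + 1) b c d) a b c d + y ^ 2 * g a b c d := by
    funext a b c d
    cases a with
    | zero => simp [excR]
    | succ a => simp [excR]; ring
  have e1 : (fun a b c d => excR y g a (b + 1) c d) =
      fun a b c d => excR y (fun a b c d => g a (b + 1) c d) a b c d
        + (-(2 * y)) * g a b c d := by
    funext a b c d
    cases b with
    | zero => simp [excR]; ring
    | succ b => simp [excR]; ring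
  have e2 : (fun a b c d => excR y g a b (c + 1) d) =
      fun a b c d => excR y (fun a b c d => g a b (c + 1) d) a b c d + 1 * g a b c d := by
    funext a b c d
    cases c with
    | zero => simp [excR]; ring
    | succ c => simp [excR]; ring
  have e3 : (fun a b c d => excR y g a b c (d + 1)) =
      fun a b c d => excR y (fun a b c d => g a b c (d + 1)) a b c d := by
    funext a b c d
    simp [excR]
  rw [Q, e0, e1, e2, e3, exc_Q_add, exc_Q_add, exc_Q_add, exc_Q_mul, exc_Q_mul, exc_Q_mul]
  ring

lemma exc_R_nonneg (y : ℝ) (zs : List ℝ) (hz : ∀ z ∈ zs, 0 ≤ z) (g : ℕ → ℕ → ℕ → ℕ → ℝ)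
    (h : ∀ a b c d, a + b + c + d + 1 = zs.length → 0 ≤ g a b c d) : 0 ≤ Q (excR y g) zs := by
  induction zs generalizing g with
  | nil => simp [Q, excR]
  | cons z zs ih =>
    have hz0 : 0 ≤ z := hz z (by simp)
    have hzs : ∀ w ∈ zs, 0 ≤ w := fun w hw => hz w (by simp [hw])
    have h0 := ih hzs (fun a b c d => g (a + 1) b c d)
      (fun a b c d e => h _ _ _ _ (by simp only [List.length_cons]; omega))
    have h1 := ih hzs (fun a b c d => g a (b + 1) c d)
      (fun a b c d e => h _ _ _ _ (by simp only [List.length_cons]; omega))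
    have h2 := ih hzs (fun a b c d => g a b (c + 1) d)
      (fun a b c d e => h _ _ _ _ (by simp only [List.length_cons]; omega))
    have h3 := ih hzs (fun a b c d => g a b c (d + 1))
      (fun a b c d e => h _ _ _ _ (by simp only [List.length_cons]; omega))
    have h4 : 0 ≤ Q g zs := qpos g zs hzs
      (fun a b c d e => h _ _ _ _ (by simp only [List.length_cons]; omega))
    rw [exc_R_cons]
    positivity

lemma exc_P_cons (g : ℕ → ℕ → ℕ → ℕ → ℝ) (y : ℝ) (ys : List ℝ) :
    Q (excP g) (y :: ys) =
      Q (excP (fun a b c d => g (a + 1) b c d)) ys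
      + y * Q (excP (fun a b c d => g a (b + 1) c d)) ys
      + y ^ 2 * Q (excP (fun a b c d => g a b (c + 1) d)) ys
      + y ^ 3 * Q (excP (fun a b c d => g a b c (d + 1))) ys
      + Q (excR y g) ys := by
  have e0 : (fun a b c d => excP g (a + 1) b c d) =
      fun a b c d => excP (fun a b c d => g (a + 1) b c d) a b c d
        + (c : ℝ) * g a b (c - 1) d := by
    funext a b c d
    cases a with
    | zero => simp [excP]; ring
    | succ a => simp [excP]; ring
  have e1 : (fun a b c d => excP g a (b + 1) c d) =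
      fun a b c d => excP (fun a b c d => g a (b + 1) c d) a b c d
        + (-2) * ((b : ℝ) * g a (b - 1) c d) := by
    funext a b c d
    match b with
    | 0 => simp [excP]
    | 1 => simp [excP]; ring
    | b + 2 => simp [excP]; ring
  have e2 : (fun a b c d => excP g a b (c + 1) d) =
      fun a b c d => excP (fun a b c d => g a b (c + 1) d) a b c d
        + (a : ℝ) * g (a - 1) b c d := by
    funext a b c d
    cases c with
    | zero => simp [excP]; ring
    | succ c => simp [excP]; ring
  have e3 : (fun a b c d => excP g a b c (d + 1)) =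
      fun a b c d => excP (fun a b c d => g a b c (d + 1)) a b c d := by
    funext a b c d
    simp [excP]
  have e4 : Q (excR y g) ys = Q (fun a b c d => (c : ℝ) * g a b (c - 1) d) ys
      + (-(2 * y)) * Q (fun a b c d => (b : ℝ) * g a (b - 1) c d) ys
      + y ^ 2 * Q (fun a b c d => (a : ℝ) * g (a - 1) b c d) ys := by
    rw [← exc_Q_mul, ← exc_Q_mul, ← exc_Q_add, ← exc_Q_add]
    congr 1
    funext a b c d
    simp only [excR]
    ring
  rw [Q, e0, e1, e2, e3, exc_Q_add, exc_Q_add, exc_Q_add, exc_Q_mul, e4]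
  ring

lemma exc_P_nonneg (ys : List ℝ) (hy : ∀ y ∈ ys, 0 ≤ y) (g : ℕ → ℕ → ℕ → ℕ → ℝ)
    (h : ∀ a b c d, a + b + c + d + 2 = ys.length → 0 ≤ g a b c d) : 0 ≤ Q (excP g) ys := by
  induction ys generalizing g with
  | nil => simp [Q, excP]
  | cons y ys ih =>
    have hy0 : 0 ≤ y := hy y (by simp)
    have hys : ∀ w ∈ ys, 0 ≤ w := fun w hw => hy w (by simp [hw])
    have h0 := ih hys (fun a b c d => g (a + 1) b c d)
      (fun a b c d e => h _ _ _ _ (by simp only [List.length_cons]; omega))
    have h1 := ih hys (fun a b c d => g a (b + 1) c d)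
      (fun a b c d e => h _ _ _ _ (by simp only [List.length_cons]; omega))
    have h2 := ih hys (fun a b c d => g a b (c + 1) d)
      (fun a b c d e => h _ _ _ _ (by simp only [List.length_cons]; omega))
    have h3 := ih hys (fun a b c d => g a b c (d + 1))
      (fun a b c d e => h _ _ _ _ (by simp only [List.length_cons]; omega))
    have h4 : 0 ≤ Q (excR y g) ys := exc_R_nonneg y ys hys g
      (fun a b c d e => h _ _ _ _ (by simp only [List.length_cons]; omega))
    rw [exc_P_cons]
    positivity

theorem excOk : ExcSt := by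
  intro m ys hy
  obtain ⟨m0, m1, m2, m3⟩ := m
  have e : (fun a b c d => (exc (m0, m1, m2, m3) (a, b, c, d) : ℝ)) =
      excP (fun a b c d => if (a, b, c, d) = (m0, m1, m2, m3) then (1 : ℝ) else 0) := by
    funext a b c d
    simp only [exc, excP, Prod.mk.injEq]
    by_cases h1 : a = m0 + 1 ∧ b = m1 ∧ c = m2 + 1 ∧ d = m3
    · obtain ⟨rfl, rfl, rfl, rfl⟩ := h1
      simp
      ring
    · rw [if_neg h1]
      have h1' : (a : ℝ) * (c : ℝ) *
          (if a - 1 = m0 ∧ b = m1 ∧ c - 1 = m2 ∧ d = m3 then (1 : ℝ) else 0) = 0 := by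
        rcases Nat.eq_zero_or_pos a with ha | ha
        · simp [ha]
        · rcases Nat.eq_zero_or_pos c with hc | hc
          · simp [hc]
          · rw [if_neg (by omega), mul_zero]
      rw [h1', zero_sub]
      by_cases h2 : a = m0 ∧ b = m1 + 2 ∧ c = m2 ∧ d = m3
      · obtain ⟨rfl, rfl, rfl, rfl⟩ := h2
        rw [if_pos ⟨rfl, rfl, rfl, rfl⟩, if_pos ⟨rfl, by omega, rfl, rfl⟩]
        push_cast
        ring
      · rw [if_neg h2]
        have h2' : (b : ℝ) * ((b : ℝ) - 1) *
            (if a = m0 ∧ b - 2 = m1 ∧ c = m2 ∧ d = m3 then (1 : ℝ) else 0) = 0 := by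
          match b with
          | 0 => simp
          | 1 => simp
          | b + 2 => rw [if_neg (by omega), mul_zero]
        rw [h2']
        simp
  rw [e]
  refine exc_P_nonneg ys hy _ ?_
  intro a b c d _
  split_ifs <;> norm_num

end Pool.Agent.H52.O4
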