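import Pool.Agent.H52.O4.Spec
import Pool.Agent.H53.ATP.Fek

/-!
# Order four: from `MainSt` to all minors of order at most four of the triangles
-/

set_option autoImplicit false

open Polynomial

namespace Pool.Agent.H52.O4

open Pool.Agent.H73.TP

theorem fin_fk_zero (F : List ℝ) : fk F 0 = (F.map fun y => (1 + C y * X : ℝ[X])).prod := by
  induction F with
  | nil => simp [fk]
  | cons y F ih => simp [fk, ih]

theorem fin_fk_ofFn {n : ℕ} (y : Fin n → ℝ) : fk (List.ofFn y) 0 = pr y Finset.univ := by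
  rw [fin_fk_zero, List.map_ofFn, List.prod_ofFn]
  rfl

theorem fin_rwi {n r : ℕ} (y : Fin n → ℝ) (hy : rowP r n = pr y Finset.univ) :
    ∀ i : ℕ, rwi (List.ofFn y) (1 + ((r : ℝ) - 1) + ((r : ℝ) - 1) * n) (1 + ((r : ℝ) - 1)) i
      = rowP r (n + i) := by
  intro i
  induction i with
  | zero => simp only [rwi, fin_fk_ofFn, Nat.add_zero, hy]
  | succ i ih =>
    rw [rwi, ih, ← Nat.add_assoc, rowP]
    congr 1
    rw [List.length_ofFn]
    push_cast
    ring

theorem fin_sol {n r : ℕ} (y : Fin n → ℝ) (hy : rowP r n = pr y Finset.univ)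
    (m κ : ℕ) :
    sol (List.ofFn y) (1 + ((r : ℝ) - 1) + ((r : ℝ) - 1) * n) (1 + ((r : ℝ) - 1)) m κ
      = Matrix.det (Matrix.of fun i j : Fin m => (rowP r (n + i)).coeff (κ + j)) := by
  unfold sol
  simp only [fin_rwi y hy]

/-- All solid minors of order at most four with `k ≤ n` are positive. -/
theorem fin_solid (hM : MainSt) (r : ℕ) (hr : 1 ≤ r) (m : ℕ) (hm : m ≤ 4) (n k : ℕ)
    (hk : k ≤ n) :
    0 < Matrix.det (Matrix.of fun i j : Fin m => (rowP r (n + i)).coeff (k + j)) := by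
  obtain ⟨y, hy, hyp⟩ := rowP_prod r hr n
  have hr1 : (1 : ℝ) ≤ r := by exact_mod_cast hr
  have hn0 : (0 : ℝ) ≤ n := Nat.cast_nonneg n
  have hF : ∀ z ∈ List.ofFn y, 0 < z := by
    intro z hz
    rw [List.mem_ofFn] at hz
    obtain ⟨i, rfl⟩ := hz
    exact hy i
  have hlen : k ≤ (List.ofFn y).length := by rw [List.length_ofFn]; exact hk
  have h34 := (hM (List.ofFn y) (((r : ℝ) - 1) * n) ((r : ℝ) - 1) k
    (mul_nonneg (by linarith) hn0) (by linarith)).2 hF hlen
  rw [fin_sol y hyp, fin_sol y hyp] at h34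
  interval_cases m
  · rw [Matrix.det_isEmpty]; exact one_pos
  · rw [Matrix.det_fin_one]
    simpa using rowP_pos r hr n k hk
  · rw [Matrix.det_fin_two]
    have h := rowP_two r hr n k hk
    simpa [w2] using h
  · exact h34.1
  · exact h34.2

/-- All minors of order at most four. -/
theorem fin_minor (hM : MainSt) (r : ℕ) (hr : 1 ≤ r) (m : ℕ) (hm : m ≤ 4) (f g : Fin m → ℕ)
    (hf : StrictMono f) (hg : StrictMono g) :
    0 ≤ Matrix.det (Matrix.of fun i j => (rowP r (f i)).coeff (g j)) ∧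
    ((∀ i, g i ≤ f i) → 0 < Matrix.det (Matrix.of fun i j => (rowP r (f i)).coeff (g j))) :=
  Pool.Agent.H53.ATP.fek (fun n k => (rowP r n).coeff k) 4 0
    (fun n k h => rowP_zero r hr n k h)
    (fun m hm n _ k hk => fin_solid hM r hr m hm n k hk) m hm f g hf hg (fun _ => Nat.zero_le _)

/-- The rows of the triangle. -/
theorem fin_coeff (r : ℕ) (E : ℕ → ℕ → ℤ) (h00 : E 0 0 = 1) (h0 : ∀ k, E 0 (k + 1) = 0)
    (hc : ∀ n, E (n + 1) 0 = E n 0)
    (hs : ∀ n k : ℕ, E (n + 1) (k + 1) =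
      ((k : ℤ) + 2) * E n (k + 1) + ((r : ℤ) * (n : ℤ) - (k : ℤ)) * E n k) :
    ∀ n k, ((E (n + 1) k : ℤ) : ℝ) = (rowP r n).coeff k := by
  intro n
  induction n with
  | zero =>
    intro k
    rcases k with _ | k
    · rw [hc, h00]; simp [rowP]
    · rw [hs, h0]
      rcases k with _ | k
      · simp [rowP, coeff_one]
      · rw [h0]; simp [rowP, coeff_one]
  | succ n ih =>
    intro k
    rcases k with _ | k
    · rw [hc, ih, rowP, opA_coeff_zero]
    · rw [hs, rowP, opA_coeff_succ, ← ih, ← ih]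
      push_cast; ring

/-- From `MainSt` to the theorem on the triangles. -/
theorem fin_main (hM : MainSt) (r : ℕ) (hr : 1 ≤ r) (E : ℕ → ℕ → ℤ) (h00 : E 0 0 = 1)
    (h0 : ∀ k : ℕ, E 0 (k + 1) = 0) (hc : ∀ n : ℕ, E (n + 1) 0 = E n 0)
    (hs : ∀ n k : ℕ, E (n + 1) (k + 1) =
      ((k : ℤ) + 2) * E n (k + 1) + ((r : ℤ) * (n : ℤ) - (k : ℤ)) * E n k)
    (m : ℕ) (hm : m ≤ 4) (f g : Fin m → ℕ) (hf : StrictMono f) (hg : StrictMono g) :
    0 ≤ Matrix.det (Matrix.of fun i j => E (f i) (g j)) ∧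
    ((∀ i, g i < f i) → 0 < Matrix.det (Matrix.of fun i j => E (f i) (g j))) := by
  have hE := fin_coeff r E h00 h0 hc hs
  have hEa : ∀ n k, ((E n k : ℤ) : ℝ) = (rowP r (n - 1)).coeff k := by
    intro n k
    rcases n with _ | n
    · rcases k with _ | k
      · rw [h00]; simp [rowP]
      · rw [h0]; simp [rowP, coeff_one]
    · rw [hE]; simp
  have hE01 : ∀ k, E 0 k = E 1 k := by
    intro k
    have : ((E 0 k : ℤ) : ℝ) = ((E 1 k : ℤ) : ℝ) := by rw [hEa, hEa]
    exact_mod_cast this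
  have hcast : ((Matrix.det (Matrix.of fun i j => E (f i) (g j)) : ℤ) : ℝ)
      = Matrix.det (Matrix.of fun i j => (rowP r (f i - 1)).coeff (g j)) := by
    have h : ((Matrix.det (Matrix.of fun i j => E (f i) (g j)) : ℤ) : ℝ) = _ :=
      RingHom.map_det (Int.castRingHom ℝ) (Matrix.of fun i j => E (f i) (g j))
    rw [h]
    congr 1
    ext i j
    exact hEa _ _
  by_cases hf' : StrictMono fun i => f i - 1
  · have h := fin_minor hM r hr m hm (fun i => f i - 1) g hf' hg
    rw [← hcast] at h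
    refine ⟨by exact_mod_cast h.1, fun hlt => ?_⟩
    have := h.2 fun i => by have := hlt i; omega
    exact_mod_cast this
  · have hex : ∃ i j : Fin m, i < j ∧ f i = 0 ∧ f j = 1 := by
      by_contra hno
      push Not at hno
      apply hf'
      intro i j hij
      have h1 := hf hij
      have h2 := hno i j hij
      show f i - 1 < f j - 1
      by_cases h3 : f i = 0
      · have := h2 h3; omega
      · omega
    obtain ⟨i, j, hij, hi, hj⟩ := hex
    have hz : Matrix.det (Matrix.of fun i j => E (f i) (g j)) = 0 := by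
      refine Matrix.det_zero_of_row_eq (ne_of_lt hij) ?_
      funext k
      simp only [Matrix.of_apply, hi, hj]
      exact hE01 _
    refine ⟨hz.ge, fun hlt => ?_⟩
    have := hlt i
    omega

end Pool.Agent.H52.O4
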