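import Pool.Agent.H52.O4.RowF

/-!
# `RowSt`
-/

set_option autoImplicit false

open Polynomial

namespace Pool.Agent.H52.O4

theorem rowG_val (F : List ℝ) (κ a b c d : ℕ) : val [] F κ [a, b, c, d] =
    d4 (fun j => (rw0 [] F a).coeff (κ + j)) (fun j => (rw0 [] F b).coeff (κ + j))
      (fun j => (rw0 [] F c).coeff (κ + j)) (fun j => (rw0 [] F d).coeff (κ + j)) := by
  have h : val [] F κ [a, b, c, d] = Matrix.det (Matrix.of fun i j : Fin 4 =>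
      (rw0 [] F ([a, b, c, d].get i)).coeff (κ + j)) := rfl
  rw [h, d4_det]
  rfl

theorem rowG_sol (F : List ℝ) (q r : ℝ) (κ : ℕ) : sol F q r 4 κ =
    d4 (fun j => (rwi F q r 0).coeff (κ + j)) (fun j => (rwi F q r 1).coeff (κ + j))
      (fun j => (rwi F q r 2).coeff (κ + j)) (fun j => (rwi F q r 3).coeff (κ + j)) := by
  unfold sol
  rw [d4_det]
  rfl

theorem rowG_exp (q r : ℝ) (w : ℕ → Fin 4 → ℝ) :
    d4 (w 0) (w 0 + q • w 8 + w 9) (w 0 + (3 * q + r) • w 8 + (3 : ℝ) • w 9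
      + (q * (q + r - 1)) • w 16 + (2 * q + r) • w 17 + (2 : ℝ) • w 18)
      (w 0 + (7 * q + 4 * r) • w 8 + (7 : ℝ) • w 9
      + ((q + 2 * r - 1) * (3 * q + r) + 3 * (q * (q + r - 1))) • w 16
      + ((3 * q + r) + 3 * (q + 2 * r) + 3 * (2 * q + r)) • w 17 + (12 : ℝ) • w 18
      + (q * (q + r - 1) * (q + 2 * r - 2)) • w 24
      + (q * (q + r - 1) + (2 * q + r) * (q + 2 * r - 1)) • w 25
      + (2 * (2 * q + r) + 2 * (q + 2 * r)) • w 26 + (6 : ℝ) • w 27)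
    = (((- r) * ((q + 2 * r - 1) * (3 * q + r) + 3 * (q * (q + r - 1)))) + (-(q * (q * (q + r - 1))) * 7) + ((q * (q + r - 1)) * (7 * q + 4 * r))) * d4 (w 0) (w 8) (w 9) (w 16)
      + (((- r) * ((3 * q + r) + 3 * (q + 2 * r) + 3 * (2 * q + r))) + (-(q * (2 * q + r)) * 7) + ((2 * q + r) * (7 * q + 4 * r))) * d4 (w 0) (w 8) (w 9) (w 17)
      + (((- r) * 12) + (-(2 * q) * 7) + (2 * (7 * q + 4 * r))) * d4 (w 0) (w 8) (w 9) (w 18)
      + (((- r) * (q * (q + r - 1) * (q + 2 * r - 2)))) * d4 (w 0) (w 8) (w 9) (w 24)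
      + (((- r) * (q * (q + r - 1) + (2 * q + r) * (q + 2 * r - 1)))) * d4 (w 0) (w 8) (w 9) (w 25)
      + (((- r) * (2 * (2 * q + r) + 2 * (q + 2 * r)))) * d4 (w 0) (w 8) (w 9) (w 26)
      + (((- r) * 6)) * d4 (w 0) (w 8) (w 9) (w 27)
      + (((q * (q * (q + r - 1))) * ((3 * q + r) + 3 * (q + 2 * r) + 3 * (2 * q + r))) + (-(q * (2 * q + r)) * ((q + 2 * r - 1) * (3 * q + r) + 3 * (q * (q + r - 1))))) * d4 (w 0) (w 8) (w 16) (w 17)
      + (((q * (q * (q + r - 1))) * 12) + (-(2 * q) * ((q + 2 * r - 1) * (3 * q + r) + 3 * (q * (q + r - 1))))) * d4 (w 0) (w 8) (w 16) (w 18)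
      + (((q * (q * (q + r - 1))) * (q * (q + r - 1) * (q + 2 * r - 2)))) * d4 (w 0) (w 8) (w 16) (w 24)
      + (((q * (q * (q + r - 1))) * (q * (q + r - 1) + (2 * q + r) * (q + 2 * r - 1)))) * d4 (w 0) (w 8) (w 16) (w 25)
      + (((q * (q * (q + r - 1))) * (2 * (2 * q + r) + 2 * (q + 2 * r)))) * d4 (w 0) (w 8) (w 16) (w 26)
      + (((q * (q * (q + r - 1))) * 6)) * d4 (w 0) (w 8) (w 16) (w 27)
      + (((q * (2 * q + r)) * 12) + (-(2 * q) * ((3 * q + r) + 3 * (q + 2 * r) + 3 * (2 * q + r)))) * d4 (w 0) (w 8) (w 17) (w 18)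
      + (((q * (2 * q + r)) * (q * (q + r - 1) * (q + 2 * r - 2)))) * d4 (w 0) (w 8) (w 17) (w 24)
      + (((q * (2 * q + r)) * (q * (q + r - 1) + (2 * q + r) * (q + 2 * r - 1)))) * d4 (w 0) (w 8) (w 17) (w 25)
      + (((q * (2 * q + r)) * (2 * (2 * q + r) + 2 * (q + 2 * r)))) * d4 (w 0) (w 8) (w 17) (w 26)
      + (((q * (2 * q + r)) * 6)) * d4 (w 0) (w 8) (w 17) (w 27)
      + (((2 * q) * (q * (q + r - 1) * (q + 2 * r - 2)))) * d4 (w 0) (w 8) (w 18) (w 24)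
      + (((2 * q) * (q * (q + r - 1) + (2 * q + r) * (q + 2 * r - 1)))) * d4 (w 0) (w 8) (w 18) (w 25)
      + (((2 * q) * (2 * (2 * q + r) + 2 * (q + 2 * r)))) * d4 (w 0) (w 8) (w 18) (w 26)
      + (((2 * q) * 6)) * d4 (w 0) (w 8) (w 18) (w 27)
      + (((q * (q + r - 1)) * ((3 * q + r) + 3 * (q + 2 * r) + 3 * (2 * q + r))) + (-(2 * q + r) * ((q + 2 * r - 1) * (3 * q + r) + 3 * (q * (q + r - 1))))) * d4 (w 0) (w 9) (w 16) (w 17)
      + (((q * (q + r - 1)) * 12) + (-2 * ((q + 2 * r - 1) * (3 * q + r) + 3 * (q * (q + r - 1))))) * d4 (w 0) (w 9) (w 16) (w 18)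
      + (((q * (q + r - 1)) * (q * (q + r - 1) * (q + 2 * r - 2)))) * d4 (w 0) (w 9) (w 16) (w 24)
      + (((q * (q + r - 1)) * (q * (q + r - 1) + (2 * q + r) * (q + 2 * r - 1)))) * d4 (w 0) (w 9) (w 16) (w 25)
      + (((q * (q + r - 1)) * (2 * (2 * q + r) + 2 * (q + 2 * r)))) * d4 (w 0) (w 9) (w 16) (w 26)
      + (((q * (q + r - 1)) * 6)) * d4 (w 0) (w 9) (w 16) (w 27)
      + (((2 * q + r) * 12) + (-2 * ((3 * q + r) + 3 * (q + 2 * r) + 3 * (2 * q + r)))) * d4 (w 0) (w 9) (w 17) (w 18)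
      + (((2 * q + r) * (q * (q + r - 1) * (q + 2 * r - 2)))) * d4 (w 0) (w 9) (w 17) (w 24)
      + (((2 * q + r) * (q * (q + r - 1) + (2 * q + r) * (q + 2 * r - 1)))) * d4 (w 0) (w 9) (w 17) (w 25)
      + (((2 * q + r) * (2 * (2 * q + r) + 2 * (q + 2 * r)))) * d4 (w 0) (w 9) (w 17) (w 26)
      + (((2 * q + r) * 6)) * d4 (w 0) (w 9) (w 17) (w 27)
      + ((2 * (q * (q + r - 1) * (q + 2 * r - 2)))) * d4 (w 0) (w 9) (w 18) (w 24)
      + ((2 * (q * (q + r - 1) + (2 * q + r) * (q + 2 * r - 1)))) * d4 (w 0) (w 9) (w 18) (w 25)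
      + ((2 * (2 * (2 * q + r) + 2 * (q + 2 * r)))) * d4 (w 0) (w 9) (w 18) (w 26)
      + ((2 * 6)) * d4 (w 0) (w 9) (w 18) (w 27) := by
  rw [d4_stage]
  simp only [d4_add, d4_smul, d4_z1, d4_z2, d4_z3]
  rw [d4_swap (w 0) (w 8) (w 16) (w 9), d4_swap (w 0) (w 8) (w 17) (w 9),
    d4_swap (w 0) (w 8) (w 17) (w 16), d4_swap (w 0) (w 8) (w 18) (w 9),
    d4_swap (w 0) (w 8) (w 18) (w 16), d4_swap (w 0) (w 8) (w 18) (w 17),
    ← d4_rot (w 0) (w 8) (w 9) (w 16), ← d4_rot (w 0) (w 8) (w 9) (w 17),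
    d4_swap (w 0) (w 9) (w 17) (w 16), ← d4_rot (w 0) (w 8) (w 9) (w 18),
    d4_swap (w 0) (w 9) (w 18) (w 16), d4_swap (w 0) (w 9) (w 18) (w 17)]
  ring

theorem row4 (F : List ℝ) (p u : ℝ) (κ : ℕ) :
    sol F (1 + u + p) (1 + u) 4 κ = sem p u (val [] F κ) om4 := by
  have hq : ∃ q, q = 1 + u + p := ⟨_, rfl⟩
  have hr : ∃ r, r = 1 + u := ⟨_, rfl⟩
  obtain ⟨q, hq⟩ := hq
  obtain ⟨r, hr⟩ := hr
  rw [← hq, ← hr]
  obtain ⟨w, hw⟩ : ∃ w : ℕ → Fin 4 → ℝ, w = fun n (j : Fin 4) => (rw0 [] F n).coeff (κ + j) := ⟨_, rfl⟩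
  have hval : ∀ a b c d : ℕ, val [] F κ [a, b, c, d] = d4 (w a) (w b) (w c) (w d) := by
    intro a b c d; rw [rowG_val, hw]
  have h0 : (fun j : Fin 4 => (rwi F q r 0).coeff (κ + j)) = w 0 := by
    rw [rowB_zero, hw]
  have h1 : (fun j : Fin 4 => (rwi F q r 1).coeff (κ + j)) = w 0 + q • w 8 + w 9 := by
    funext j; rw [rowB_one, hw]
    simp only [coeff_add, coeff_C_mul, Pi.add_apply, Pi.smul_apply, smul_eq_mul]
  have h2 : (fun j : Fin 4 => (rwi F q r 2).coeff (κ + j)) = w 0 + (3 * q + r) • w 8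
      + (3 : ℝ) • w 9 + (q * (q + r - 1)) • w 16 + (2 * q + r) • w 17 + (2 : ℝ) • w 18 := by
    funext j; rw [rowB_two, hw]
    simp only [coeff_add, coeff_C_mul, Pi.add_apply, Pi.smul_apply, smul_eq_mul]
  have h3 : (fun j : Fin 4 => (rwi F q r 3).coeff (κ + j)) = w 0 + (7 * q + 4 * r) • w 8
      + (7 : ℝ) • w 9
      + ((q + 2 * r - 1) * (3 * q + r) + 3 * (q * (q + r - 1))) • w 16
      + ((3 * q + r) + 3 * (q + 2 * r) + 3 * (2 * q + r)) • w 17 + (12 : ℝ) • w 18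
      + (q * (q + r - 1) * (q + 2 * r - 2)) • w 24
      + (q * (q + r - 1) + (2 * q + r) * (q + 2 * r - 1)) • w 25
      + (2 * (2 * q + r) + 2 * (q + 2 * r)) • w 26 + (6 : ℝ) • w 27 := by
    funext j; rw [rowB_three, hw]
    simp only [coeff_add, coeff_C_mul, Pi.add_apply, Pi.smul_apply, smul_eq_mul]
  rw [rowG_sol, h0, h1, h2, h3, rowG_exp]
  unfold sem om4
  simp only [List.map_cons, List.map_nil, List.sum_cons, List.sum_nil, hval]
  simp only [ev, evAux, if_true, if_false, Nat.reduceAdd, Nat.reduceSub,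
    OfNat.ofNat_ne_zero, one_ne_zero]
  generalize d4 (w 0) (w 8) (w 9) (w 16) = D0
  generalize d4 (w 0) (w 8) (w 9) (w 17) = D1
  generalize d4 (w 0) (w 8) (w 9) (w 18) = D2
  generalize d4 (w 0) (w 8) (w 9) (w 24) = D3
  generalize d4 (w 0) (w 8) (w 9) (w 25) = D4
  generalize d4 (w 0) (w 8) (w 9) (w 26) = D5
  generalize d4 (w 0) (w 8) (w 9) (w 27) = D6
  generalize d4 (w 0) (w 8) (w 16) (w 17) = D7
  generalize d4 (w 0) (w 8) (w 16) (w 18) = D8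
  generalize d4 (w 0) (w 8) (w 16) (w 24) = D9
  generalize d4 (w 0) (w 8) (w 16) (w 25) = D10
  generalize d4 (w 0) (w 8) (w 16) (w 26) = D11
  generalize d4 (w 0) (w 8) (w 16) (w 27) = D12
  generalize d4 (w 0) (w 8) (w 17) (w 18) = D13
  generalize d4 (w 0) (w 8) (w 17) (w 24) = D14
  generalize d4 (w 0) (w 8) (w 17) (w 25) = D15
  generalize d4 (w 0) (w 8) (w 17) (w 26) = D16
  generalize d4 (w 0) (w 8) (w 17) (w 27) = D17
  generalize d4 (w 0) (w 8) (w 18) (w 24) = D18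
  generalize d4 (w 0) (w 8) (w 18) (w 25) = D19
  generalize d4 (w 0) (w 8) (w 18) (w 26) = D20
  generalize d4 (w 0) (w 8) (w 18) (w 27) = D21
  generalize d4 (w 0) (w 9) (w 16) (w 17) = D22
  generalize d4 (w 0) (w 9) (w 16) (w 18) = D23
  generalize d4 (w 0) (w 9) (w 16) (w 24) = D24
  generalize d4 (w 0) (w 9) (w 16) (w 25) = D25
  generalize d4 (w 0) (w 9) (w 16) (w 26) = D26
  generalize d4 (w 0) (w 9) (w 16) (w 27) = D27
  generalize d4 (w 0) (w 9) (w 17) (w 18) = D28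
  generalize d4 (w 0) (w 9) (w 17) (w 24) = D29
  generalize d4 (w 0) (w 9) (w 17) (w 25) = D30
  generalize d4 (w 0) (w 9) (w 17) (w 26) = D31
  generalize d4 (w 0) (w 9) (w 17) (w 27) = D32
  generalize d4 (w 0) (w 9) (w 18) (w 24) = D33
  generalize d4 (w 0) (w 9) (w 18) (w 25) = D34
  generalize d4 (w 0) (w 9) (w 18) (w 26) = D35
  generalize d4 (w 0) (w 9) (w 18) (w 27) = D36
  subst hq hr
  push_cast
  ring

theorem row : RowSt := fun F p u κ => ⟨row3 F p u κ, row4 F p u κ⟩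

end Pool.Agent.H52.O4
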