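import Pool.Agent.H52.O4.RowT

/-!
# Step (3) of `RowSt` for order four
-/

set_option autoImplicit false

open Polynomial

namespace Pool.Agent.H52.O4

/-- 4 x 4 determinant, Laplace expansion along the first two rows. -/
def d4 (a b c d : Fin 4 → ℝ) : ℝ :=
  (a 0 * b 1 - a 1 * b 0) * (c 2 * d 3 - c 3 * d 2) - (a 0 * b 2 - a 2 * b 0) * (c 1 * d 3 - c 3 * d 1)
    + (a 0 * b 3 - a 3 * b 0) * (c 1 * d 2 - c 2 * d 1)
    + (a 1 * b 2 - a 2 * b 1) * (c 0 * d 3 - c 3 * d 0)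
    - (a 1 * b 3 - a 3 * b 1) * (c 0 * d 2 - c 2 * d 0)
    + (a 2 * b 3 - a 3 * b 2) * (c 0 * d 1 - c 1 * d 0)

theorem d4_det (M : Matrix (Fin 4) (Fin 4) ℝ) : M.det = d4 (M 0) (M 1) (M 2) (M 3) := by
  rw [Matrix.det_succ_row_zero]
  simp only [Fin.sum_univ_succ, Matrix.det_fin_three, Matrix.submatrix_apply, d4]
  simp [Fin.succAbove, Fin.lt_def]
  ring

theorem d4_add (a b c d d' : Fin 4 → ℝ) : d4 a b c (d + d') = d4 a b c d + d4 a b c d' := by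
  simp only [d4, Pi.add_apply]; ring

theorem d4_smul (a b c d : Fin 4 → ℝ) (x : ℝ) : d4 a b c (x • d) = x * d4 a b c d := by
  simp only [d4, Pi.smul_apply, smul_eq_mul]; ring

theorem d4_swap (a b c d : Fin 4 → ℝ) : d4 a b c d = - d4 a b d c := by
  simp only [d4]; ring

theorem d4_rot (a b c d : Fin 4 → ℝ) : d4 a b c d = d4 a c d b := by
  simp only [d4]; ring

theorem d4_z1 (a b c : Fin 4 → ℝ) : d4 a b c a = 0 := by
  simp only [d4]; ring

theorem d4_z2 (a b c : Fin 4 → ℝ) : d4 a b c b = 0 := by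
  simp only [d4]; ring

theorem d4_z3 (a b c : Fin 4 → ℝ) : d4 a b c c = 0 := by
  simp only [d4]; ring

theorem d4_stage (q r : ℝ) (e0 e8 e9 e16 e17 e18 v : Fin 4 → ℝ) :
    d4 e0 (e0 + q • e8 + e9) (e0 + (3 * q + r) • e8 + (3 : ℝ) • e9 + (q * (q + r - 1)) • e16
      + (2 * q + r) • e17 + (2 : ℝ) • e18) v
    = - r * d4 e0 e8 e9 v + q * (q * (q + r - 1)) * d4 e0 e8 e16 v
      + q * (2 * q + r) * d4 e0 e8 e17 v + 2 * q * d4 e0 e8 e18 v
      + q * (q + r - 1) * d4 e0 e9 e16 v + (2 * q + r) * d4 e0 e9 e17 v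
      + 2 * d4 e0 e9 e18 v := by
  simp only [d4, Pi.add_apply, Pi.smul_apply, smul_eq_mul]
  ring

end Pool.Agent.H52.O4
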