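import Pool.Agent.H52.O4.RowA

/-!
# Step (3) of `RowSt` for order three
-/

set_option autoImplicit false

open Polynomial

namespace Pool.Agent.H52.O4

theorem rowT_val (F : List ℝ) (κ a b c : ℕ) : val [] F κ [a, b, c] =
    (rw0 [] F a).coeff κ * ((rw0 [] F b).coeff (κ + 1) * (rw0 [] F c).coeff (κ + 2)
      - (rw0 [] F b).coeff (κ + 2) * (rw0 [] F c).coeff (κ + 1))
    - (rw0 [] F a).coeff (κ + 1) * ((rw0 [] F b).coeff κ * (rw0 [] F c).coeff (κ + 2)
      - (rw0 [] F b).coeff (κ + 2) * (rw0 [] F c).coeff κ)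
    + (rw0 [] F a).coeff (κ + 2) * ((rw0 [] F b).coeff κ * (rw0 [] F c).coeff (κ + 1)
      - (rw0 [] F b).coeff (κ + 1) * (rw0 [] F c).coeff κ) := by
  have h : val [] F κ [a, b, c] = Matrix.det (Matrix.of fun i j : Fin 3 =>
      (rw0 [] F ([a, b, c].get i)).coeff (κ + j)) := rfl
  rw [h, Matrix.det_fin_three]
  have h0 : [a, b, c].get (0 : Fin 3) = a := rfl
  have h1 : [a, b, c].get (1 : Fin 3) = b := rfl
  have h2 : [a, b, c].get (2 : Fin 3) = c := rfl
  simp only [Matrix.of_apply, h0, h1, h2, Fin.val_zero, Fin.val_one, Fin.val_two, add_zero]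
  ring

theorem rowT_sol (F : List ℝ) (q r : ℝ) (κ : ℕ) : sol F q r 3 κ =
    (rwi F q r 0).coeff κ * ((rwi F q r 1).coeff (κ + 1) * (rwi F q r 2).coeff (κ + 2)
      - (rwi F q r 1).coeff (κ + 2) * (rwi F q r 2).coeff (κ + 1))
    - (rwi F q r 0).coeff (κ + 1) * ((rwi F q r 1).coeff κ * (rwi F q r 2).coeff (κ + 2)
      - (rwi F q r 1).coeff (κ + 2) * (rwi F q r 2).coeff κ)
    + (rwi F q r 0).coeff (κ + 2) * ((rwi F q r 1).coeff κ * (rwi F q r 2).coeff (κ + 1)
      - (rwi F q r 1).coeff (κ + 1) * (rwi F q r 2).coeff κ) := by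
  unfold sol
  rw [Matrix.det_fin_three]
  simp only [Matrix.of_apply, Fin.val_zero, Fin.val_one, Fin.val_two, add_zero]
  ring

theorem row3 (F : List ℝ) (p u : ℝ) (κ : ℕ) :
    sol F (1 + u + p) (1 + u) 3 κ = sem p u (val [] F κ) om3 := by
  rw [rowT_sol, rowB_zero, rowB_one, rowB_two]
  unfold sem om3
  simp only [List.map_cons, List.map_nil, List.sum_cons, List.sum_nil, rowT_val]
  simp only [ev, evAux, if_true, if_false, Nat.reduceAdd, Nat.reduceSub,
    OfNat.ofNat_ne_zero, one_ne_zero]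
  simp only [coeff_add, coeff_C_mul]
  generalize (rw0 [] F 0).coeff κ = a0
  generalize (rw0 [] F 0).coeff (κ + 1) = a1
  generalize (rw0 [] F 0).coeff (κ + 2) = a2
  generalize (rw0 [] F 8).coeff κ = b0
  generalize (rw0 [] F 8).coeff (κ + 1) = b1
  generalize (rw0 [] F 8).coeff (κ + 2) = b2
  generalize (rw0 [] F 9).coeff κ = c0
  generalize (rw0 [] F 9).coeff (κ + 1) = c1
  generalize (rw0 [] F 9).coeff (κ + 2) = c2
  generalize (rw0 [] F 16).coeff κ = d0
  generalize (rw0 [] F 16).coeff (κ + 1) = d1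
  generalize (rw0 [] F 16).coeff (κ + 2) = d2
  generalize (rw0 [] F 17).coeff κ = e0
  generalize (rw0 [] F 17).coeff (κ + 1) = e1
  generalize (rw0 [] F 17).coeff (κ + 2) = e2
  generalize (rw0 [] F 18).coeff κ = f0
  generalize (rw0 [] F 18).coeff (κ + 1) = f1
  generalize (rw0 [] F 18).coeff (κ + 2) = f2
  push_cast
  ring

end Pool.Agent.H52.O4
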