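import Pool.Agent.H52.O4.TabP1

/-!
# Order four: the kernel check of the table, piece 2
-/

set_option autoImplicit false

namespace Pool.Agent.H52.O4

open Pool.Agent.H52.O4F (xq)

theorem x_1_1_2_0 : xop 2 s_1_1_1_0 = s_1_1_2_0 := xq (by decide +kernel)

theorem ok_1_1_2_1 : okAt gtab4 s_1_1_2_1 (1, 1, 2, 1) = true := by decide +kernel

theorem x_1_1_2_1 : xop 3 s_1_1_2_0 = s_1_1_2_1 := xq (by decide +kernel)

theorem x_1_1_2_2 : xop 3 s_1_1_2_1 = [] := xq (by decide +kernel)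

theorem ok_1_1_3_0 : okAt gtab4 s_1_1_3_0 (1, 1, 3, 0) = true := by decide +kernel

theorem x_1_1_3_0 : xop 2 s_1_1_2_0 = s_1_1_3_0 := xq (by decide +kernel)

theorem x_1_1_3_1 : xop 3 s_1_1_3_0 = [] := xq (by decide +kernel)

theorem ok_1_1_4_0 : okAt gtab4 s_1_1_4_0 (1, 1, 4, 0) = true := by decide +kernel

theorem x_1_1_4_0 : xop 2 s_1_1_3_0 = s_1_1_4_0 := xq (by decide +kernel)

theorem x_1_1_4_1 : xop 3 s_1_1_4_0 = [] := xq (by decide +kernel)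

theorem x_1_1_5_0 : xop 2 s_1_1_4_0 = [] := xq (by decide +kernel)

theorem ok_1_2_0_0 : okAt gtab4 s_1_2_0_0 (1, 2, 0, 0) = true := by decide +kernel

theorem x_1_2_0_0 : xop 1 s_1_1_0_0 = s_1_2_0_0 := xq (by decide +kernel)

theorem ok_1_2_0_1 : okAt gtab4 s_1_2_0_1 (1, 2, 0, 1) = true := by decide +kernel

theorem x_1_2_0_1 : xop 3 s_1_2_0_0 = s_1_2_0_1 := xq (by decide +kernel)

theorem x_1_2_0_2 : xop 3 s_1_2_0_1 = [] := xq (by decide +kernel)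

theorem ok_1_2_1_0 : okAt gtab4 s_1_2_1_0 (1, 2, 1, 0) = true := by decide +kernel

theorem x_1_2_1_0 : xop 2 s_1_2_0_0 = s_1_2_1_0 := xq (by decide +kernel)

theorem ok_1_2_1_1 : okAt gtab4 s_1_2_1_1 (1, 2, 1, 1) = true := by decide +kernel

theorem x_1_2_1_1 : xop 3 s_1_2_1_0 = s_1_2_1_1 := xq (by decide +kernel)

theorem x_1_2_1_2 : xop 3 s_1_2_1_1 = [] := xq (by decide +kernel)

theorem ok_1_2_2_0 : okAt gtab4 s_1_2_2_0 (1, 2, 2, 0) = true := by decide +kernel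

theorem x_1_2_2_0 : xop 2 s_1_2_1_0 = s_1_2_2_0 := xq (by decide +kernel)

theorem x_1_2_2_1 : xop 3 s_1_2_2_0 = [] := xq (by decide +kernel)

theorem ok_1_2_3_0 : okAt gtab4 s_1_2_3_0 (1, 2, 3, 0) = true := by decide +kernel

theorem x_1_2_3_0 : xop 2 s_1_2_2_0 = s_1_2_3_0 := xq (by decide +kernel)

theorem x_1_2_3_1 : xop 3 s_1_2_3_0 = [] := xq (by decide +kernel)

theorem x_1_2_4_0 : xop 2 s_1_2_3_0 = [] := xq (by decide +kernel)

theorem ok_1_3_0_0 : okAt gtab4 s_1_3_0_0 (1, 3, 0, 0) = true := by decide +kernel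

theorem x_1_3_0_0 : xop 1 s_1_2_0_0 = s_1_3_0_0 := xq (by decide +kernel)

theorem ok_1_3_0_1 : okAt gtab4 s_1_3_0_1 (1, 3, 0, 1) = true := by decide +kernel

theorem x_1_3_0_1 : xop 3 s_1_3_0_0 = s_1_3_0_1 := xq (by decide +kernel)

theorem x_1_3_0_2 : xop 3 s_1_3_0_1 = [] := xq (by decide +kernel)

theorem ok_1_3_1_0 : okAt gtab4 s_1_3_1_0 (1, 3, 1, 0) = true := by decide +kernel

theorem x_1_3_1_0 : xop 2 s_1_3_0_0 = s_1_3_1_0 := xq (by decide +kernel)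

theorem x_1_3_1_1 : xop 3 s_1_3_1_0 = [] := xq (by decide +kernel)

theorem ok_1_3_2_0 : okAt gtab4 s_1_3_2_0 (1, 3, 2, 0) = true := by decide +kernel

theorem x_1_3_2_0 : xop 2 s_1_3_1_0 = s_1_3_2_0 := xq (by decide +kernel)

theorem x_1_3_2_1 : xop 3 s_1_3_2_0 = [] := xq (by decide +kernel)

theorem x_1_3_3_0 : xop 2 s_1_3_2_0 = [] := xq (by decide +kernel)

theorem ok_1_4_0_0 : okAt gtab4 s_1_4_0_0 (1, 4, 0, 0) = true := by decide +kernel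

theorem x_1_4_0_0 : xop 1 s_1_3_0_0 = s_1_4_0_0 := xq (by decide +kernel)

theorem x_1_4_0_1 : xop 3 s_1_4_0_0 = [] := xq (by decide +kernel)

theorem ok_1_4_1_0 : okAt gtab4 s_1_4_1_0 (1, 4, 1, 0) = true := by decide +kernel

theorem x_1_4_1_0 : xop 2 s_1_4_0_0 = s_1_4_1_0 := xq (by decide +kernel)

theorem x_1_4_1_1 : xop 3 s_1_4_1_0 = [] := xq (by decide +kernel)

theorem x_1_4_2_0 : xop 2 s_1_4_1_0 = [] := xq (by decide +kernel)

theorem ok_1_5_0_0 : okAt gtab4 s_1_5_0_0 (1, 5, 0, 0) = true := by decide +kernel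

theorem x_1_5_0_0 : xop 1 s_1_4_0_0 = s_1_5_0_0 := xq (by decide +kernel)

theorem x_1_5_0_1 : xop 3 s_1_5_0_0 = [] := xq (by decide +kernel)

theorem x_1_5_1_0 : xop 2 s_1_5_0_0 = [] := xq (by decide +kernel)

theorem x_1_6_0_0 : xop 1 s_1_5_0_0 = [] := xq (by decide +kernel)

theorem ok_2_0_0_0 : okAt gtab4 s_2_0_0_0 (2, 0, 0, 0) = true := by decide +kernel

theorem x_2_0_0_0 : xop 0 s_1_0_0_0 = s_2_0_0_0 := xq (by decide +kernel)

theorem ok_2_0_0_1 : okAt gtab4 s_2_0_0_1 (2, 0, 0, 1) = true := by decide +kernel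

theorem x_2_0_0_1 : xop 3 s_2_0_0_0 = s_2_0_0_1 := xq (by decide +kernel)

theorem x_2_0_0_2 : xop 3 s_2_0_0_1 = [] := xq (by decide +kernel)

theorem ok_2_0_1_0 : okAt gtab4 s_2_0_1_0 (2, 0, 1, 0) = true := by decide +kernel

theorem x_2_0_1_0 : xop 2 s_2_0_0_0 = s_2_0_1_0 := xq (by decide +kernel)

theorem ok_2_0_1_1 : okAt gtab4 s_2_0_1_1 (2, 0, 1, 1) = true := by decide +kernel

theorem x_2_0_1_1 : xop 3 s_2_0_1_0 = s_2_0_1_1 := xq (by decide +kernel)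

theorem x_2_0_1_2 : xop 3 s_2_0_1_1 = [] := xq (by decide +kernel)

theorem ok_2_0_2_0 : okAt gtab4 s_2_0_2_0 (2, 0, 2, 0) = true := by decide +kernel

theorem x_2_0_2_0 : xop 2 s_2_0_1_0 = s_2_0_2_0 := xq (by decide +kernel)

theorem ok_2_0_2_1 : okAt gtab4 s_2_0_2_1 (2, 0, 2, 1) = true := by decide +kernel

theorem x_2_0_2_1 : xop 3 s_2_0_2_0 = s_2_0_2_1 := xq (by decide +kernel)

theorem x_2_0_2_2 : xop 3 s_2_0_2_1 = [] := xq (by decide +kernel)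

theorem ok_2_0_3_0 : okAt gtab4 s_2_0_3_0 (2, 0, 3, 0) = true := by decide +kernel

theorem x_2_0_3_0 : xop 2 s_2_0_2_0 = s_2_0_3_0 := xq (by decide +kernel)

theorem x_2_0_3_1 : xop 3 s_2_0_3_0 = [] := xq (by decide +kernel)

theorem ok_2_0_4_0 : okAt gtab4 s_2_0_4_0 (2, 0, 4, 0) = true := by decide +kernel

theorem x_2_0_4_0 : xop 2 s_2_0_3_0 = s_2_0_4_0 := xq (by decide +kernel)

theorem x_2_0_4_1 : xop 3 s_2_0_4_0 = [] := xq (by decide +kernel)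

theorem x_2_0_5_0 : xop 2 s_2_0_4_0 = [] := xq (by decide +kernel)

theorem ok_2_1_0_0 : okAt gtab4 s_2_1_0_0 (2, 1, 0, 0) = true := by decide +kernel

theorem x_2_1_0_0 : xop 1 s_2_0_0_0 = s_2_1_0_0 := xq (by decide +kernel)

theorem ok_2_1_0_1 : okAt gtab4 s_2_1_0_1 (2, 1, 0, 1) = true := by decide +kernel

theorem x_2_1_0_1 : xop 3 s_2_1_0_0 = s_2_1_0_1 := xq (by decide +kernel)

theorem x_2_1_0_2 : xop 3 s_2_1_0_1 = [] := xq (by decide +kernel)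

theorem ok_2_1_1_0 : okAt gtab4 s_2_1_1_0 (2, 1, 1, 0) = true := by decide +kernel

theorem x_2_1_1_0 : xop 2 s_2_1_0_0 = s_2_1_1_0 := xq (by decide +kernel)

theorem ok_2_1_1_1 : okAt gtab4 s_2_1_1_1 (2, 1, 1, 1) = true := by decide +kernel

theorem x_2_1_1_1 : xop 3 s_2_1_1_0 = s_2_1_1_1 := xq (by decide +kernel)

theorem x_2_1_1_2 : xop 3 s_2_1_1_1 = [] := xq (by decide +kernel)

theorem ok_2_1_2_0 : okAt gtab4 s_2_1_2_0 (2, 1, 2, 0) = true := by decide +kernel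

theorem x_2_1_2_0 : xop 2 s_2_1_1_0 = s_2_1_2_0 := xq (by decide +kernel)

theorem x_2_1_2_1 : xop 3 s_2_1_2_0 = [] := xq (by decide +kernel)

theorem ok_2_1_3_0 : okAt gtab4 s_2_1_3_0 (2, 1, 3, 0) = true := by decide +kernel

theorem x_2_1_3_0 : xop 2 s_2_1_2_0 = s_2_1_3_0 := xq (by decide +kernel)

theorem x_2_1_3_1 : xop 3 s_2_1_3_0 = [] := xq (by decide +kernel)

theorem x_2_1_4_0 : xop 2 s_2_1_3_0 = [] := xq (by decide +kernel)

theorem ok_2_2_0_0 : okAt gtab4 s_2_2_0_0 (2, 2, 0, 0) = true := by decide +kernel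

theorem x_2_2_0_0 : xop 1 s_2_1_0_0 = s_2_2_0_0 := xq (by decide +kernel)

theorem ok_2_2_0_1 : okAt gtab4 s_2_2_0_1 (2, 2, 0, 1) = true := by decide +kernel

theorem x_2_2_0_1 : xop 3 s_2_2_0_0 = s_2_2_0_1 := xq (by decide +kernel)

theorem x_2_2_0_2 : xop 3 s_2_2_0_1 = [] := xq (by decide +kernel)

theorem ok_2_2_1_0 : okAt gtab4 s_2_2_1_0 (2, 2, 1, 0) = true := by decide +kernel

theorem x_2_2_1_0 : xop 2 s_2_2_0_0 = s_2_2_1_0 := xq (by decide +kernel)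

theorem x_2_2_1_1 : xop 3 s_2_2_1_0 = [] := xq (by decide +kernel)

theorem ok_2_2_2_0 : okAt gtab4 s_2_2_2_0 (2, 2, 2, 0) = true := by decide +kernel

theorem x_2_2_2_0 : xop 2 s_2_2_1_0 = s_2_2_2_0 := xq (by decide +kernel)

theorem x_2_2_2_1 : xop 3 s_2_2_2_0 = [] := xq (by decide +kernel)

theorem x_2_2_3_0 : xop 2 s_2_2_2_0 = [] := xq (by decide +kernel)

theorem ok_2_3_0_0 : okAt gtab4 s_2_3_0_0 (2, 3, 0, 0) = true := by decide +kernel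

theorem x_2_3_0_0 : xop 1 s_2_2_0_0 = s_2_3_0_0 := xq (by decide +kernel)

theorem x_2_3_0_1 : xop 3 s_2_3_0_0 = [] := xq (by decide +kernel)

theorem ok_2_3_1_0 : okAt gtab4 s_2_3_1_0 (2, 3, 1, 0) = true := by decide +kernel

theorem x_2_3_1_0 : xop 2 s_2_3_0_0 = s_2_3_1_0 := xq (by decide +kernel)

theorem x_2_3_1_1 : xop 3 s_2_3_1_0 = [] := xq (by decide +kernel)

theorem x_2_3_2_0 : xop 2 s_2_3_1_0 = [] := xq (by decide +kernel)

theorem ok_2_4_0_0 : okAt gtab4 s_2_4_0_0 (2, 4, 0, 0) = true := by decide +kernel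

theorem x_2_4_0_0 : xop 1 s_2_3_0_0 = s_2_4_0_0 := xq (by decide +kernel)

theorem x_2_4_0_1 : xop 3 s_2_4_0_0 = [] := xq (by decide +kernel)

theorem x_2_4_1_0 : xop 2 s_2_4_0_0 = [] := xq (by decide +kernel)

theorem x_2_5_0_0 : xop 1 s_2_4_0_0 = [] := xq (by decide +kernel)

theorem ok_3_0_0_0 : okAt gtab4 s_3_0_0_0 (3, 0, 0, 0) = true := by decide +kernel

theorem x_3_0_0_0 : xop 0 s_2_0_0_0 = s_3_0_0_0 := xq (by decide +kernel)

theorem ok_3_0_0_1 : okAt gtab4 s_3_0_0_1 (3, 0, 0, 1) = true := by decide +kernel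

theorem x_3_0_0_1 : xop 3 s_3_0_0_0 = s_3_0_0_1 := xq (by decide +kernel)

theorem x_3_0_0_2 : xop 3 s_3_0_0_1 = [] := xq (by decide +kernel)

theorem ok_3_0_1_0 : okAt gtab4 s_3_0_1_0 (3, 0, 1, 0) = true := by decide +kernel

theorem x_3_0_1_0 : xop 2 s_3_0_0_0 = s_3_0_1_0 := xq (by decide +kernel)

theorem ok_3_0_1_1 : okAt gtab4 s_3_0_1_1 (3, 0, 1, 1) = true := by decide +kernel

theorem x_3_0_1_1 : xop 3 s_3_0_1_0 = s_3_0_1_1 := xq (by decide +kernel)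

theorem x_3_0_1_2 : xop 3 s_3_0_1_1 = [] := xq (by decide +kernel)

theorem ok_3_0_2_0 : okAt gtab4 s_3_0_2_0 (3, 0, 2, 0) = true := by decide +kernel

theorem x_3_0_2_0 : xop 2 s_3_0_1_0 = s_3_0_2_0 := xq (by decide +kernel)

theorem x_3_0_2_1 : xop 3 s_3_0_2_0 = [] := xq (by decide +kernel)

theorem ok_3_0_3_0 : okAt gtab4 s_3_0_3_0 (3, 0, 3, 0) = true := by decide +kernel

theorem x_3_0_3_0 : xop 2 s_3_0_2_0 = s_3_0_3_0 := xq (by decide +kernel)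

theorem x_3_0_3_1 : xop 3 s_3_0_3_0 = [] := xq (by decide +kernel)

theorem x_3_0_4_0 : xop 2 s_3_0_3_0 = [] := xq (by decide +kernel)

theorem ok_3_1_0_0 : okAt gtab4 s_3_1_0_0 (3, 1, 0, 0) = true := by decide +kernel

theorem x_3_1_0_0 : xop 1 s_3_0_0_0 = s_3_1_0_0 := xq (by decide +kernel)

theorem ok_3_1_0_1 : okAt gtab4 s_3_1_0_1 (3, 1, 0, 1) = true := by decide +kernel

theorem x_3_1_0_1 : xop 3 s_3_1_0_0 = s_3_1_0_1 := xq (by decide +kernel)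

theorem x_3_1_0_2 : xop 3 s_3_1_0_1 = [] := xq (by decide +kernel)

theorem ok_3_1_1_0 : okAt gtab4 s_3_1_1_0 (3, 1, 1, 0) = true := by decide +kernel

theorem x_3_1_1_0 : xop 2 s_3_1_0_0 = s_3_1_1_0 := xq (by decide +kernel)

theorem x_3_1_1_1 : xop 3 s_3_1_1_0 = [] := xq (by decide +kernel)

theorem ok_3_1_2_0 : okAt gtab4 s_3_1_2_0 (3, 1, 2, 0) = true := by decide +kernel

theorem x_3_1_2_0 : xop 2 s_3_1_1_0 = s_3_1_2_0 := xq (by decide +kernel)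

theorem x_3_1_2_1 : xop 3 s_3_1_2_0 = [] := xq (by decide +kernel)

theorem x_3_1_3_0 : xop 2 s_3_1_2_0 = [] := xq (by decide +kernel)

theorem ok_3_2_0_0 : okAt gtab4 s_3_2_0_0 (3, 2, 0, 0) = true := by decide +kernel

theorem x_3_2_0_0 : xop 1 s_3_1_0_0 = s_3_2_0_0 := xq (by decide +kernel)

theorem x_3_2_0_1 : xop 3 s_3_2_0_0 = [] := xq (by decide +kernel)

theorem ok_3_2_1_0 : okAt gtab4 s_3_2_1_0 (3, 2, 1, 0) = true := by decide +kernel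

theorem x_3_2_1_0 : xop 2 s_3_2_0_0 = s_3_2_1_0 := xq (by decide +kernel)

theorem x_3_2_1_1 : xop 3 s_3_2_1_0 = [] := xq (by decide +kernel)

theorem x_3_2_2_0 : xop 2 s_3_2_1_0 = [] := xq (by decide +kernel)

theorem ok_3_3_0_0 : okAt gtab4 s_3_3_0_0 (3, 3, 0, 0) = true := by decide +kernel

theorem x_3_3_0_0 : xop 1 s_3_2_0_0 = s_3_3_0_0 := xq (by decide +kernel)

theorem x_3_3_0_1 : xop 3 s_3_3_0_0 = [] := xq (by decide +kernel)

theorem x_3_3_1_0 : xop 2 s_3_3_0_0 = [] := xq (by decide +kernel)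

theorem x_3_4_0_0 : xop 1 s_3_3_0_0 = [] := xq (by decide +kernel)

theorem ok_4_0_0_0 : okAt gtab4 s_4_0_0_0 (4, 0, 0, 0) = true := by decide +kernel

theorem x_4_0_0_0 : xop 0 s_3_0_0_0 = s_4_0_0_0 := xq (by decide +kernel)

theorem x_4_0_0_1 : xop 3 s_4_0_0_0 = [] := xq (by decide +kernel)

theorem ok_4_0_1_0 : okAt gtab4 s_4_0_1_0 (4, 0, 1, 0) = true := by decide +kernel

theorem x_4_0_1_0 : xop 2 s_4_0_0_0 = s_4_0_1_0 := xq (by decide +kernel)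

theorem x_4_0_1_1 : xop 3 s_4_0_1_0 = [] := xq (by decide +kernel)

theorem ok_4_0_2_0 : okAt gtab4 s_4_0_2_0 (4, 0, 2, 0) = true := by decide +kernel

theorem x_4_0_2_0 : xop 2 s_4_0_1_0 = s_4_0_2_0 := xq (by decide +kernel)

theorem x_4_0_2_1 : xop 3 s_4_0_2_0 = [] := xq (by decide +kernel)

theorem x_4_0_3_0 : xop 2 s_4_0_2_0 = [] := xq (by decide +kernel)

theorem ok_4_1_0_0 : okAt gtab4 s_4_1_0_0 (4, 1, 0, 0) = true := by decide +kernel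

theorem x_4_1_0_0 : xop 1 s_4_0_0_0 = s_4_1_0_0 := xq (by decide +kernel)

theorem x_4_1_0_1 : xop 3 s_4_1_0_0 = [] := xq (by decide +kernel)

theorem ok_4_1_1_0 : okAt gtab4 s_4_1_1_0 (4, 1, 1, 0) = true := by decide +kernel

theorem x_4_1_1_0 : xop 2 s_4_1_0_0 = s_4_1_1_0 := xq (by decide +kernel)

theorem x_4_1_1_1 : xop 3 s_4_1_1_0 = [] := xq (by decide +kernel)

theorem x_4_1_2_0 : xop 2 s_4_1_1_0 = [] := xq (by decide +kernel)

theorem ok_4_2_0_0 : okAt gtab4 s_4_2_0_0 (4, 2, 0, 0) = true := by decide +kernel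

theorem x_4_2_0_0 : xop 1 s_4_1_0_0 = s_4_2_0_0 := xq (by decide +kernel)

theorem x_4_2_0_1 : xop 3 s_4_2_0_0 = [] := xq (by decide +kernel)

theorem x_4_2_1_0 : xop 2 s_4_2_0_0 = [] := xq (by decide +kernel)

theorem x_4_3_0_0 : xop 1 s_4_2_0_0 = [] := xq (by decide +kernel)

theorem ok_5_0_0_0 : okAt gtab4 s_5_0_0_0 (5, 0, 0, 0) = true := by decide +kernel

theorem x_5_0_0_0 : xop 0 s_4_0_0_0 = s_5_0_0_0 := xq (by decide +kernel)

theorem x_5_0_0_1 : xop 3 s_5_0_0_0 = [] := xq (by decide +kernel)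

theorem ok_5_0_1_0 : okAt gtab4 s_5_0_1_0 (5, 0, 1, 0) = true := by decide +kernel

theorem x_5_0_1_0 : xop 2 s_5_0_0_0 = s_5_0_1_0 := xq (by decide +kernel)

theorem x_5_0_1_1 : xop 3 s_5_0_1_0 = [] := xq (by decide +kernel)

theorem x_5_0_2_0 : xop 2 s_5_0_1_0 = [] := xq (by decide +kernel)

theorem ok_5_1_0_0 : okAt gtab4 s_5_1_0_0 (5, 1, 0, 0) = true := by decide +kernel

theorem x_5_1_0_0 : xop 1 s_5_0_0_0 = s_5_1_0_0 := xq (by decide +kernel)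

theorem x_5_1_0_1 : xop 3 s_5_1_0_0 = [] := xq (by decide +kernel)

theorem x_5_1_1_0 : xop 2 s_5_1_0_0 = [] := xq (by decide +kernel)

theorem x_5_2_0_0 : xop 1 s_5_1_0_0 = [] := xq (by decide +kernel)

theorem ok_6_0_0_0 : okAt gtab4 s_6_0_0_0 (6, 0, 0, 0) = true := by decide +kernel

theorem x_6_0_0_0 : xop 0 s_5_0_0_0 = s_6_0_0_0 := xq (by decide +kernel)

theorem x_6_0_0_1 : xop 3 s_6_0_0_0 = [] := xq (by decide +kernel)

theorem x_6_0_1_0 : xop 2 s_6_0_0_0 = [] := xq (by decide +kernel)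

theorem x_6_1_0_0 : xop 1 s_6_0_0_0 = [] := xq (by decide +kernel)

theorem x_7_0_0_0 : xop 0 s_6_0_0_0 = [] := xq (by decide +kernel)

end Pool.Agent.H52.O4
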