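import Pool.Agent.H52.O4F.FastP

/-!
# Order four: the kernel check of the table, intermediate states
-/

set_option autoImplicit false

namespace Pool.Agent.H52.O4

open Pool.Agent.H52.O4F (xq)

/-- State `0 0 0 1`. -/
def s_0_0_0_1 : St :=
  [([-6,-6,0], [8,17,25,26]), ([-8,-18,-6,-10,-6,0], [8,17,24,26]), ([-4,-4,0], [8,16,17,26]),
   ([-6,-6,0], [8,16,17,35]), ([-16,-32,-4,-16,-4,0], [8,16,17,25]),
   ([-12,-24,-6,-12,-6,0], [8,16,17,34]), ([-15,-50,-14,-55,-30,-2,-20,-16,-2,0], [8,16,17,24]),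
   ([-9,-27,-11,-27,-21,-3,-9,-10,-3,0], [8,17,24,25]),
   ([-7,-25,-9,-29,-21,-3,-11,-12,-3,0], [8,16,17,33]),
   ([-1,-7,-3,-17,-15,-3,-17,-23,-9,-1,-6,-11,-6,-1,0], [8,16,17,32]),
   ([-6,-12,-6,-6,-6,0], [8,16,25,26]), ([-8,-26,-14,-28,-30,-6,-10,-16,-6,0], [8,16,24,26]),
   ([-9,-36,-20,-54,-59,-14,-36,-58,-27,-3,-9,-19,-13,-3,0], [8,16,24,25])]

/-- State `0 0 0 2`. -/
def s_0_0_0_2 : St :=
  [([-8,-26,-6,-28,-12,0,-10,-6,0,0], [16,24,25,32]), ([-6,-12,0,-6,0,0], [16,24,25,33])]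

/-- State `0 0 1 0`. -/
def s_0_0_1_0 : St :=
  [([12], [0,8,17,26]), ([12], [8,9,17,26]), ([12], [8,17,18,26]), ([12], [0,8,17,35]),
   ([12], [8,9,17,35]), ([12], [0,8,26,35]), ([32,32,12], [0,8,17,25]), ([32,32,12], [8,9,17,25]),
   ([-14,-14,0], [0,8,25,26]), ([-6,-6,0], [0,17,25,26]), ([-6,-6,0], [8,9,25,26]),
   ([24,24,12], [8,17,18,25]), ([24,24,12], [0,8,17,34]), ([24,24,12], [8,9,17,34]),
   ([24,24,12], [0,8,26,34]), ([24,58,26,34,32,6], [0,8,17,24]), ([24,58,26,34,32,6], [8,9,17,24]),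
   ([-18,-40,-14,-22,-14,0], [0,8,24,26]), ([-8,-18,-6,-10,-6,0], [0,17,24,26]),
   ([-8,-18,-6,-10,-6,0], [8,9,24,26]), ([14,36,18,22,24,6], [8,17,18,24]),
   ([14,36,18,22,24,6], [0,8,17,33]), ([14,36,18,22,24,6], [8,9,17,33]),
   ([14,36,18,22,24,6], [0,8,26,33]), ([2,12,6,22,24,6,12,22,12,2], [0,8,17,32]),
   ([2,12,6,22,24,6,12,22,12,2], [8,9,17,32]), ([2,12,6,22,24,6,12,22,12,2], [0,8,26,32]),
   ([20,20,12], [0,8,16,26]), ([-6,-12,12,-6,6,6], [8,16,17,26]), ([-4,-4,0], [0,16,17,26]),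
   ([16,16,12], [8,9,16,26]), ([24,24,12], [0,8,16,35]), ([-6,-6,0], [0,16,17,35]),
   ([18,18,12], [8,9,16,35]), ([18,18,12], [0,8,25,35]), ([-6,-6,0], [8,16,17,27]),
   ([58,116,52,58,52,12], [0,8,16,25]), ([5,11,33,7,51,27,1,18,21,6], [8,16,17,25]),
   ([-16,-32,-4,-16,-4,0], [0,16,17,25]), ([48,96,48,48,48,12], [8,9,16,25]),
   ([48,96,48,48,48,12], [0,8,16,34]), ([-12,-24,-6,-12,-6,0], [0,16,17,34]),
   ([36,72,42,36,42,12], [8,9,16,34]), ([36,72,42,36,42,12], [0,8,25,34]),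
   ([46,156,72,174,164,36,64,92,42,6], [0,8,16,24]),
   ([6,25,27,37,83,34,23,79,69,17,5,23,32,17,3], [8,16,17,24]),
   ([-15,-50,-14,-55,-30,-2,-20,-16,-2,0], [0,16,17,24]),
   ([39,132,64,147,146,34,54,82,40,6], [8,9,16,24]),
   ([-20,-59,-25,-58,-47,-7,-19,-22,-7,0], [0,8,24,25]),
   ([-9,-27,-11,-27,-21,-3,-9,-10,-3,0], [0,17,24,25]),
   ([-9,-27,-11,-27,-21,-3,-9,-10,-3,0], [8,9,24,25]),
   ([28,100,50,116,120,30,44,70,36,6], [0,8,16,33]),
   ([-7,-25,-9,-29,-21,-3,-11,-12,-3,0], [0,16,17,33]),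
   ([21,75,41,87,99,27,33,58,33,6], [8,9,16,33]), ([21,75,41,87,99,27,33,58,33,6], [0,8,25,33]),
   ([4,28,14,68,72,18,68,114,60,10,24,56,46,16,2], [0,8,16,32]),
   ([-1,-7,-3,-17,-15,-3,-17,-23,-9,-1,-6,-11,-6,-1,0], [0,16,17,32]),
   ([3,21,11,51,57,15,51,91,51,9,18,45,40,15,2], [8,9,16,32]),
   ([3,21,11,51,57,15,51,91,51,9,18,45,40,15,2], [0,8,25,32]), ([-4,-4], [0,8,16,17]),
   ([-4,-4], [8,9,16,17]), ([8,8], [8,16,17,18]), ([6,18,12,12,18,6], [0,8,24,35]),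
   ([12,48,30,60,78,24,24,48,30,6], [0,8,24,34]),
   ([7,39,23,79,96,28,69,130,78,15,22,57,53,21,3], [0,8,24,33]),
   ([1,9,5,31,36,10,51,93,54,10,40,102,93,36,5,12,40,51,31,9,1], [0,8,24,32]),
   ([12,12,12], [8,16,18,26]), ([-6,-12,-6,-6,-6,0], [0,16,25,26]),
   ([24,48,36,24,36,12], [8,16,18,25]), ([-8,-26,-14,-28,-30,-6,-10,-16,-6,0], [0,16,24,26]),
   ([14,50,32,58,78,24,22,46,30,6], [8,16,18,24]),
   ([-9,-36,-20,-54,-59,-14,-36,-58,-27,-3,-9,-19,-13,-3,0], [0,16,24,25])]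

/-- State `0 0 1 1`. -/
def s_0_0_1_1 : St :=
  [([16,52,20,56,42,6,20,22,6,0], [16,17,24,32]), ([-8,-26,-6,-28,-12,0,-10,-6,0,0], [8,24,25,32]),
   ([12,24,6,12,6,0], [16,17,24,33]), ([-6,-12,0,-6,0,0], [8,24,25,33]), ([-2,-2,0], [16,17,24,25]),
   ([6,6,0], [16,24,25,26]), ([-9,-27,-11,-27,-21,-3,-9,-10,-3,0], [8,16,32,33]),
   ([-8,-18,-6,-10,-6,0], [8,16,32,34]), ([-2,-2,0], [8,16,24,25]),
   ([1,7,3,17,15,3,17,23,9,1,6,11,6,1,0], [8,16,24,40]),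
   ([31,102,34,111,72,8,40,38,8,0], [8,16,24,32]), ([7,25,9,29,21,3,11,12,3,0], [8,16,24,41]),
   ([28,56,10,28,10,0], [8,16,24,33]), ([12,24,6,12,6,0], [8,16,24,42]), ([4,4,0], [8,16,24,34]),
   ([-6,-6,0], [8,16,33,34]), ([6,6,0], [8,16,24,43]), ([8,18,6,10,6,0], [8,16,25,32]),
   ([8,18,6,10,6,0], [16,17,25,32]), ([6,6,0], [8,16,25,33]), ([6,6,0], [16,17,25,33])]

/-- State `0 0 1 2`. -/
def s_0_0_1_2 : St :=
  [([6,12,0,6,0,0], [16,24,32,41]), ([8,26,6,28,12,0,10,6,0,0], [16,24,32,40])]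

/-- State `0 0 2 0`. -/
def s_0_0_2_0 : St :=
  [([18,82,28,142,108,14,110,144,48,2,32,64,40,8,0], [8,16,24,32]),
   ([32,104,40,112,84,12,40,44,12,0], [8,17,24,32]),
   ([-8,-26,-6,-28,-12,0,-10,-6,0,0], [0,24,25,32]), ([22,76,46,86,108,30,32,62,36,6], [8,16,25,32]),
   ([24,48,12,24,12,0], [8,17,24,33]), ([-6,-12,-36,-6,-24,-12], [16,17,24,25]),
   ([-4,-8,-46,-4,-34,-12], [8,16,24,25]), ([-6,-12,0,-6,0,0], [0,24,25,33]),
   ([30,60,42,30,42,12], [8,16,25,33]), ([24,48,0,24,12,0], [8,16,24,34]), ([-4,-4,0], [8,17,24,25]),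
   ([12,12,0], [8,24,25,26]), ([12,12,0], [16,18,24,25]), ([-36,-36,-24], [16,17,24,26]),
   ([-18,-54,-22,-54,-42,-6,-18,-20,-6,0], [0,16,32,33]),
   ([26,86,12,94,54,0,34,42,12,0], [8,16,24,33]), ([-16,-36,-12,-20,-12,0], [0,16,32,34]),
   ([-8,-8,0], [8,16,17,24]), ([-52,-52,-24], [8,16,24,26]),
   ([4,28,14,68,72,18,68,114,60,10,24,56,46,16,2], [0,16,24,40]),
   ([100,336,150,372,338,72,136,188,84,12], [0,16,24,32]),
   ([28,100,50,116,120,30,44,70,36,6], [0,16,24,41]),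
   ([-30,-102,-52,-114,-120,-30,-42,-68,-36,-6], [9,16,24,32]),
   ([112,224,100,112,100,24], [0,16,24,33]), ([48,96,48,48,48,12], [0,16,24,42]),
   ([-36,-72,-42,-36,-42,-12], [9,16,24,33]), ([12,12,0], [8,16,24,35]), ([32,32,24], [0,16,24,34]),
   ([-12,-12,0], [0,16,33,34]), ([12,12,12], [8,16,25,34]), ([24,24,12], [0,16,24,43]),
   ([-12,-12,-12], [9,16,24,34]), ([22,22,0], [9,16,24,25]), ([-28,-28,0], [0,16,24,25]),
   ([2,12,6,22,24,6,12,22,12,2], [0,16,25,40]),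
   ([-4,-24,-12,-44,-48,-12,-24,-44,-24,-4], [8,16,17,40]), ([54,130,56,76,68,12], [0,16,25,32]),
   ([28,72,36,44,48,12], [8,16,26,32]), ([14,36,18,22,24,6], [0,16,25,41]),
   ([-48,-116,-52,-68,-64,-12], [8,16,17,32]), ([16,36,12,20,12,0], [8,17,25,32]),
   ([-22,-54,-24,-32,-30,-6], [9,16,25,32]), ([-28,-72,-36,-44,-48,-12], [8,16,17,41]),
   ([68,68,24], [0,16,25,33]), ([48,48,24], [8,16,26,33]), ([24,24,12], [0,16,25,42]),
   ([-64,-64,-24], [8,16,17,33]), ([12,12,0], [8,17,25,33]), ([-30,-30,-12], [9,16,25,33]),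
   ([-48,-48,-24], [8,16,17,42]), ([24], [0,16,25,34]), ([24], [8,16,26,34]), ([12], [0,16,25,43]),
   ([-24], [8,16,17,34]), ([-12], [9,16,25,34]), ([-24], [8,16,17,43]), ([-24], [8,16,25,26]),
   ([-24], [16,17,25,26])]

/-- State `0 0 2 1`. -/
def s_0_0_2_1 : St :=
  [([-12,-12,0], [16,24,25,41]), ([-8,-8,0], [8,24,32,33]), ([6,6,0], [17,24,32,33]),
   ([6,6,0], [8,24,33,41]), ([-4,-4,0], [16,24,25,32]), ([-12,-12,0], [16,24,32,34]),
   ([-16,-36,-12,-20,-12,0], [16,24,25,40]), ([8,18,6,10,6,0], [8,24,33,40]),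
   ([18,36,6,18,6,0], [8,24,32,41]), ([24,78,26,84,54,6,30,28,6,0], [8,24,32,40]),
   ([0,0,-6,0,-6,0], [16,24,32,33])]

/-- State `0 0 3 0`. -/
def s_0_0_3_0 : St :=
  [([36,36,36], [16,24,25,33]), ([-36], [17,24,25,33]), ([72], [16,24,25,34]), ([36], [8,24,25,33]),
   ([72], [8,16,24,42]), ([36], [16,17,24,42]), ([36], [8,16,24,51]), ([36], [8,16,24,33]),
   ([36], [16,17,24,33]), ([-36], [8,24,33,34]), ([12], [0,24,33,42]), ([186,186,72], [8,16,24,41]),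
   ([-18,-18,0], [8,24,25,41]), ([90,90,36], [16,17,24,41]), ([72,72,36], [8,16,24,50]),
   ([132,132,36], [8,16,24,32]), ([120,120,36], [16,17,24,32]),
   ([-18,-36,-72,-18,-54,-18], [8,24,32,33]), ([18,18,0], [9,24,32,33]), ([-24,-24,0], [8,16,32,33]),
   ([-18,-18,0], [16,17,32,33]), ([48,48,36], [8,24,25,32]), ([-54,-54,-36], [17,24,25,32]),
   ([18,18,0], [8,16,33,41]), ([18,36,-18,18,18,0], [16,24,25,32]), ([36,36,12], [0,24,33,41]),
   ([-72,-72,-36], [8,24,32,34]), ([36,36,0], [16,24,26,32]), ([-48,-48,0], [0,24,32,33]),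
   ([138,336,150,198,186,36], [8,16,24,40]), ([-24,-54,-18,-30,-18,0], [8,24,25,40]),
   ([66,162,72,96,90,18], [16,17,24,40]), ([42,108,54,66,72,18], [8,16,24,49]),
   ([24,54,18,30,18,0], [8,16,33,40]), ([30,72,30,42,36,6], [0,24,33,40]),
   ([6,36,18,66,72,18,36,66,36,6], [8,16,24,48]), ([12,12,12], [0,24,32,42]),
   ([36,72,18,36,18,0], [8,16,32,41]), ([54,108,48,54,48,12], [0,24,32,41]),
   ([48,156,60,168,126,18,60,66,18,0], [8,16,32,40]),
   ([54,180,78,198,174,36,72,96,42,6], [0,24,32,40])]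

/-- State `0 0 3 1`. -/
def s_0_0_3_1 : St :=
  [([-6,-6,0], [8,32,40,41]), ([24,54,18,30,18,0], [16,24,32,48]), ([18,18,0], [24,25,32,40]),
   ([24,24,0], [16,24,32,40]), ([18,18,0], [16,24,32,49])]

/-- State `0 0 4 0`. -/
def s_0_0_4_0 : St :=
  [([0,0,72,0,0,0], [16,24,32,40]), ([-24,-24,0], [0,32,40,41]), ([-24,-24,0], [8,24,40,41]),
   ([120,288,120,168,144,24], [8,24,32,48]), ([264,264,48], [8,24,32,40]),
   ([144,144,72], [16,25,32,40]), ([72,72,48], [8,32,33,40]), ([144,144,48], [8,24,32,49]),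
   ([-72,-72,-72], [16,24,32,41]), ([-72,-72,0], [17,24,32,40]), ([48], [8,24,32,41]),
   ([48], [8,32,33,41]), ([48], [8,24,32,50]), ([-144], [16,24,32,33]), ([-144], [16,24,32,42]),
   ([72], [16,25,32,41]), ([-144], [24,25,32,33])]

/-- State `0 0 4 1`. -/
def s_0_0_4_1 : St :=
  [([24,24,0], [16,32,40,48])]

/-- State `0 0 5 0`. -/
def s_0_0_5_0 : St :=
  [([-360], [24,32,33,40]), ([120], [16,24,40,49]), ([-240], [16,32,40,41]),
   ([240,240,120], [16,24,40,48]), ([120,120,0], [8,32,40,48])]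

/-- State `0 0 6 0`. -/
def s_0_0_6_0 : St :=
  [([720], [24,32,40,48])]

/-- State `0 1 0 0`. -/
def s_0_1_0_0 : St :=
  [([64,40,36], [0,8,17,26]), ([54,42,24], [8,9,17,26]), ([12], [0,9,17,26]), ([12], [0,8,18,26]),
   ([12], [0,17,18,26]), ([12], [8,9,18,26]), ([42,30,24], [0,8,17,35]), ([12], [0,9,17,35]),
   ([12], [0,8,18,35]), ([12], [0,8,17,27]), ([12], [8,9,17,27]), ([12], [0,8,26,27]),
   ([126,204,122,78,104,30], [0,8,17,25]), ([74,132,72,58,66,18], [8,9,17,25]),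
   ([32,32,12], [0,9,17,25]), ([10,18,18,8,12,6], [0,8,25,26]), ([-6,-6,0], [0,9,25,26]),
   ([32,32,12], [0,8,18,25]), ([24,24,12], [0,17,18,25]), ([24,24,12], [8,9,18,25]),
   ([84,144,90,60,78,24], [0,8,17,34]), ([24,24,12], [0,9,17,34]), ([24,24,12], [0,8,18,34]),
   ([89,270,146,259,300,78,78,146,84,14], [0,8,17,24]),
   ([37,123,65,131,147,39,45,80,45,8], [8,9,17,24]), ([24,58,26,34,32,6], [0,9,17,24]),
   ([-6,-8,4,0,18,12,2,10,12,4], [0,8,24,26]), ([-8,-18,-6,-10,-6,0], [0,9,24,26]),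
   ([24,58,26,34,32,6], [0,8,18,24]), ([14,36,18,22,24,6], [0,17,18,24]),
   ([14,36,18,22,24,6], [8,9,18,24]), ([49,161,91,167,201,57,55,104,63,12], [0,8,17,33]),
   ([14,36,18,22,24,6], [0,9,17,33]), ([14,36,18,22,24,6], [0,8,18,33]),
   ([7,47,25,107,123,33,97,181,105,19,30,79,74,29,4], [0,8,17,32]),
   ([2,12,6,22,24,6,12,22,12,2], [0,9,17,32]), ([2,12,6,22,24,6,12,22,12,2], [0,8,18,32]),
   ([88,146,98,58,80,30], [0,8,16,26]), ([-6,-12,12,-6,6,6], [0,16,17,26]),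
   ([60,108,66,48,60,18], [8,9,16,26]), ([16,16,12], [0,9,16,26]),
   ([42,72,54,30,48,18], [0,8,16,35]), ([18,18,12], [0,9,16,35]), ([24,24,12], [0,8,16,27]),
   ([-6,-6,0], [0,16,17,27]), ([18,18,12], [8,9,16,27]), ([18,18,12], [0,8,25,27]),
   ([149,392,234,337,418,128,94,184,116,24], [0,8,16,25]),
   ([5,11,33,7,51,27,1,18,21,6], [0,16,17,25]), ([69,195,113,183,219,63,57,106,63,12], [8,9,16,25]),
   ([48,96,48,48,48,12], [0,9,16,25]), ([84,228,150,204,276,90,60,126,84,18], [0,8,16,34]),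
   ([36,72,42,36,42,12], [0,9,16,34]),
   ([103,413,229,606,700,193,385,697,404,74,89,226,206,80,11], [0,8,16,24]),
   ([6,25,27,37,83,34,23,79,69,17,5,23,32,17,3], [0,16,17,24]),
   ([31,135,75,217,252,70,153,279,162,30,40,102,93,36,5], [8,9,16,24]),
   ([39,132,64,147,146,34,54,82,40,6], [0,9,16,24]),
   ([-14,-45,-19,-53,-41,-4,-27,-29,-3,3,-5,-7,0,3,1], [0,8,24,25]),
   ([-9,-27,-11,-27,-21,-3,-9,-10,-3,0], [0,9,24,25]),
   ([49,210,126,328,410,123,222,432,270,54,55,148,144,60,9], [0,8,16,33]),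
   ([21,75,41,87,99,27,33,58,33,6], [0,9,16,33]),
   ([7,54,30,154,182,51,204,383,228,43,127,334,315,126,18,30,103,136,86,26,3], [0,8,16,32]),
   ([3,21,11,51,57,15,51,91,51,9,18,45,40,15,2], [0,9,16,32]), ([-10,-10,-8,0,-8], [0,8,16,17]),
   ([-18,-30,-8,-12,-8], [8,9,16,17]), ([-4,-4], [0,9,16,17]), ([-4,-4], [0,8,16,18]),
   ([8,8], [0,16,17,18]), ([-8,-8], [8,9,16,18]), ([6,18,12,12,18,6], [0,8,24,27]),
   ([12,12,12], [0,16,18,26]), ([24,48,36,24,36,12], [0,16,18,25]),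
   ([14,50,32,58,78,24,22,46,30,6], [0,16,18,24])]

/-- State `0 1 0 1`. -/
def s_0_1_0_1 : St :=
  [([16,52,20,56,42,6,20,22,6,0], [8,17,24,32]), ([12,24,6,12,6,0], [8,17,24,33]),
   ([-2,-2,0], [8,17,24,25]), ([6,6,0], [8,24,25,26]), ([8,18,6,10,6,0], [8,16,26,32]),
   ([-2,-2,0], [8,16,24,26]), ([10,26,-4,16,-4,0], [8,16,24,25]),
   ([26,95,43,127,116,23,73,103,42,4,15,30,19,4,0], [8,16,24,32]),
   ([10,22,4,14,6,0,2,2,0,0], [8,16,24,33]), ([6,6,0], [8,16,26,33]), ([6,6,0], [8,16,24,35]),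
   ([-6,-6,0], [16,17,24,26]), ([-2,-6,-6,-4,-6,0], [8,16,24,34]),
   ([-14,-24,-6,-10,-6,0], [16,17,24,25]), ([8,18,6,10,6,0], [8,17,25,32]),
   ([18,46,22,36,36,6,8,14,6,0], [8,16,25,32]), ([6,6,0], [8,17,25,33]),
   ([0,-6,0,-6,0,0], [8,16,25,33]), ([-12,-12,0], [8,16,25,34])]

/-- State `0 1 0 2`. -/
def s_0_1_0_2 : St :=
  [([12,24,0,12,0,0], [16,24,32,33])]

/-- State `0 1 1 0`. -/
def s_0_1_1_0 : St :=
  [([16,52,20,56,42,6,20,22,6,0], [0,17,24,32]),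
   ([-32,-110,-48,-124,-114,-24,-46,-68,-30,-4], [8,16,17,32]),
   ([-82,-168,-50,-86,-56,-6], [8,16,17,24]), ([-56,-102,-84,-46,-72,-24], [8,16,24,26]),
   ([12,24,6,12,6,0], [0,17,24,33]), ([-76,-144,-60,-68,-60,-12], [8,16,17,33]),
   ([-20,-36,-42,-16,-30,-12], [8,17,24,25]), ([-2,-2,0], [0,17,24,25]),
   ([-56,-56,-12], [8,16,17,25]), ([6,6,0], [0,24,25,26]), ([-54,-42,-24], [8,16,25,26]),
   ([12,12,0], [8,18,24,25]), ([-72,-60,-24], [8,16,17,34]), ([-42,-42,-24], [8,17,24,26]),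
   ([22,54,24,32,30,6], [0,16,26,32]), ([-32,-32,-12], [9,16,17,24]), ([32,32,12], [8,16,18,24]),
   ([32,32,12], [0,16,17,24]), ([-16,-16,0], [0,16,24,26]), ([36,36,12], [0,8,16,24]),
   ([36,36,12], [8,9,16,24]), ([-26,-26,0], [0,8,24,25]),
   ([3,21,11,51,57,15,51,91,51,9,18,45,40,15,2], [0,8,24,40]),
   ([69,234,116,261,266,64,96,150,76,12], [0,8,24,32]),
   ([30,102,52,114,120,30,42,68,36,6], [8,9,24,32]), ([21,75,41,87,99,27,33,58,33,6], [0,8,24,41]),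
   ([57,230,118,344,368,93,226,382,204,34,55,132,112,40,5], [0,16,24,32]),
   ([-9,-27,-11,-27,-21,-3,-9,-10,-3,0], [0,8,32,33]), ([84,168,90,84,90,24], [0,8,24,33]),
   ([36,72,42,36,42,12], [8,9,24,33]), ([36,72,42,36,42,12], [0,8,24,42]),
   ([79,217,117,197,225,63,59,108,63,12], [0,16,24,33]),
   ([-18,-48,-98,-42,-144,-66,-12,-52,-48,-12], [8,16,24,25]), ([30,30,12], [0,16,26,33]),
   ([24,24,12], [0,16,24,35]), ([6,6,0], [8,16,24,27]), ([6,6,0], [9,16,24,26]),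
   ([28,28,24], [0,8,24,34]), ([12,12,12], [8,9,24,34]), ([18,18,12], [0,8,24,43]),
   ([58,102,60,44,54,18], [0,16,24,34]), ([-22,-22,0], [8,9,24,25]),
   ([14,24,6,10,6,0], [9,16,24,25]), ([-22,-28,-18,-6,-18,0], [0,16,24,25]),
   ([2,12,6,22,24,6,12,22,12,2], [0,8,16,40]), ([2,12,6,22,24,6,12,22,12,2], [8,9,16,40]),
   ([2,12,6,22,24,6,12,22,12,2], [0,8,25,40]), ([14,36,18,22,24,6], [0,16,17,32]),
   ([14,36,18,22,24,6], [8,16,18,32]), ([38,94,44,56,56,12], [0,8,16,32]),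
   ([38,94,44,56,56,12], [8,9,16,32]), ([46,112,50,66,62,12], [0,8,25,32]),
   ([8,18,6,10,6,0], [0,17,25,32]), ([22,54,24,32,30,6], [8,9,25,32]),
   ([14,36,18,22,24,6], [0,8,16,41]), ([14,36,18,22,24,6], [8,9,16,41]),
   ([14,36,18,22,24,6], [0,8,25,41]), ([55,169,87,167,183,45,53,94,51,8], [0,16,25,32]),
   ([-14,-36,-18,-22,-24,-6], [9,16,17,32]), ([-8,-18,-6,-10,-6,0], [0,8,32,34]),
   ([24,24,12], [0,16,17,33]), ([24,24,12], [8,16,18,33]), ([56,56,24], [0,8,16,33]),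
   ([56,56,24], [8,9,16,33]), ([62,62,24], [0,8,25,33]), ([6,6,0], [0,17,25,33]),
   ([30,30,12], [8,9,25,33]), ([24,24,12], [0,8,16,42]), ([24,24,12], [8,9,16,42]),
   ([24,24,12], [0,8,25,42]), ([74,126,72,52,66,18], [0,16,25,33]), ([24,24,12], [16,17,18,24]),
   ([-24,-24,-12], [9,16,17,33]), ([-6,-6,0], [0,8,33,34]), ([12], [0,16,26,34]),
   ([12], [0,16,25,35]), ([-12], [8,16,17,26]), ([-24], [8,17,25,26]), ([-24], [8,16,17,35]),
   ([12], [0,16,17,34]), ([12], [8,16,18,34]), ([24], [0,8,16,34]), ([24], [8,9,16,34]),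
   ([24], [0,8,25,34]), ([12], [8,9,25,34]), ([12], [0,8,16,43]), ([12], [8,9,16,43]),
   ([12], [0,8,25,43]), ([42,30,24], [0,16,25,34]), ([-12], [9,16,17,25]), ([12], [8,16,18,25]),
   ([12], [16,17,18,25]), ([-12], [9,16,17,34]), ([12], [0,16,17,25]), ([12], [0,8,16,25]),
   ([12], [8,9,16,25])]

/-- State `0 1 1 1`. -/
def s_0_1_1_1 : St :=
  [([-8,-8,0], [8,16,32,33]), ([6,6,0], [8,16,33,41]), ([8,8,0], [8,16,24,32]),
   ([8,8,0], [16,17,24,32]), ([6,6,0], [8,24,25,32]), ([-6,-6,0], [17,24,25,32]),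
   ([6,6,0], [8,16,24,41]), ([6,6,0], [16,17,24,41]), ([6,6,0], [16,24,26,32]),
   ([-2,0,-6,2,-6,0], [8,24,32,33]), ([-6,-6,0], [16,17,32,33]), ([8,18,6,10,6,0], [8,16,33,40]),
   ([8,18,6,10,6,0], [8,16,24,40]), ([8,18,6,10,6,0], [16,17,24,40]), ([-6,-6,0], [8,24,32,34]),
   ([12,24,6,12,6,0], [8,16,32,41]), ([16,52,20,56,42,6,20,22,6,0], [8,16,32,40]),
   ([-18,-18,0], [16,24,25,33]), ([-40,-78,-18,-38,-18,0], [16,24,25,32])]

/-- State `0 1 2 0`. -/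
def s_0_1_2_0 : St :=
  [([-24], [8,16,24,25]), ([24], [0,16,24,33]), ([188,164,60], [8,16,24,33]),
   ([78,66,24], [16,17,24,33]), ([-12], [9,16,24,33]), ([18,6,24], [8,24,25,33]),
   ([-12], [9,24,25,33]), ([36], [8,16,25,33]), ([36], [16,17,25,33]), ([24], [8,17,24,33]),
   ([120,96,48], [8,16,24,42]), ([-12], [9,16,24,42]), ([24], [8,17,24,42]), ([12], [8,16,24,34]),
   ([-12], [16,17,24,34]), ([12], [8,24,25,34]), ([-24], [16,17,24,25]), ([48], [16,24,25,26]),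
   ([36], [0,16,24,42]), ([12], [0,16,33,42]), ([12], [0,16,24,51]), ([36], [8,16,24,43]),
   ([-36], [8,16,33,34]), ([24], [8,24,26,33]), ([24], [0,24,25,33]), ([12], [0,24,25,42]),
   ([-34,-60,-72,-26,-54,-18], [8,16,32,33]), ([-48,-48,0], [0,16,32,33]),
   ([36,36,12], [0,16,33,41]), ([12,12,12], [0,16,32,42]), ([-60,-60,-36], [8,16,32,34]),
   ([308,574,278,266,260,54], [8,16,24,32]), ([134,252,138,118,120,30], [16,17,24,32]),
   ([-52,-52,-12], [9,16,24,32]), ([8,0,42,-8,36,18], [8,24,25,32]), ([-30,-30,-12], [9,24,25,32]),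
   ([68,68,36], [8,16,25,32]), ([66,66,36], [16,17,25,32]), ([80,80,24], [8,17,24,32]),
   ([162,294,138,132,132,30], [8,16,24,41]), ([-30,-30,-12], [9,16,24,41]), ([6,6,0], [8,16,25,41]),
   ([60,60,24], [8,17,24,41]), ([-12,-12,0], [16,18,24,32]), ([-16,-24,-12,-8,-12,0], [0,24,32,33]),
   ([92,92,36], [0,16,24,41]), ([24,24,12], [0,16,24,50]), ([-12,-12,0], [8,17,32,33]),
   ([18,18,0], [9,16,32,33]), ([96,96,24], [0,16,24,32]), ([68,68,24], [0,24,25,32]),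
   ([24,24,12], [0,24,25,41]), ([60,60,24], [8,24,26,32]), ([30,72,30,42,36,6], [0,16,33,40]),
   ([94,304,144,320,318,72,110,174,84,12], [8,16,24,40]), ([-22,-54,-24,-32,-30,-6], [9,16,24,40]),
   ([8,18,6,10,6,0], [8,16,25,40]), ([44,108,48,64,60,12], [8,17,24,40]),
   ([68,166,74,98,92,18], [0,16,24,40]), ([14,36,18,22,24,6], [0,16,24,49]),
   ([14,36,18,22,24,6], [0,24,25,40]), ([2,12,6,22,24,6,12,22,12,2], [0,16,24,48]),
   ([-12,-12,0], [0,24,32,34]), ([48,96,48,48,48,12], [0,16,32,41]),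
   ([46,154,72,170,162,36,62,90,42,6], [0,16,32,40])]

/-- State `0 1 2 1`. -/
def s_0_1_2_1 : St :=
  [([6,6,0], [8,32,33,40]), ([8,18,6,10,6,0], [8,24,32,48]), ([12,12,0], [16,25,32,40]),
   ([14,14,0], [8,24,32,40]), ([6,6,0], [8,24,32,49]), ([-6,-6,0], [17,24,32,40]),
   ([-6,-6,0], [8,24,40,41]), ([54,102,30,48,30,0], [16,24,32,40]), ([24,24,0], [16,24,32,41])]

/-- State `0 1 3 0`. -/
def s_0_1_3_0 : St :=
  [([240,450,216,210,192,36], [8,24,32,40]), ([36,36,12], [0,32,33,40]), ([90,90,48], [8,24,33,40]),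
   ([30,72,30,42,36,6], [0,24,32,48]), ([66,162,72,96,90,18], [8,16,32,48]),
   ([18,18,0], [8,25,32,40]), ([-126,-126,-72], [16,24,25,40]), ([84,84,12], [0,24,32,40]),
   ([36,36,12], [0,24,32,49]), ([114,102,24], [8,24,32,41]), ([-18,-18,0], [9,24,32,40]),
   ([228,228,72], [8,16,32,40]), ([108,108,36], [16,17,32,40]), ([-18,-18,0], [8,16,40,41]),
   ([90,90,36], [8,16,32,49]), ([-108,-72,-72], [16,24,32,33]), ([-24,-24,0], [0,24,40,41]),
   ([12], [0,24,32,41]), ([12], [0,32,33,41]), ([48], [8,24,33,41]), ([12], [0,24,32,50]),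
   ([-24], [8,24,32,42]), ([-108], [8,24,32,33]), ([-36], [16,24,25,32]), ([-108], [16,24,32,34]),
   ([-72], [16,24,25,41]), ([-36], [16,25,32,33]), ([36], [8,16,32,50]), ([72], [8,16,32,41]),
   ([72], [17,24,32,33]), ([36], [16,17,32,41])]

/-- State `0 1 3 1`. -/
def s_0_1_3_1 : St :=
  [([6,6,0], [8,32,40,48]), ([18,18,0], [16,24,40,48])]

/-- State `0 1 4 0`. -/
def s_0_1_4_0 : St :=
  [([264], [16,24,32,40]), ([216], [24,25,32,40]), ([120], [16,24,32,49]), ([-72], [16,24,40,41]),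
   ([-24], [16,32,33,40]), ([48], [8,24,40,49]), ([-96], [8,32,40,41]), ([24,24,0], [0,32,40,48]),
   ([168,168,48], [8,24,40,48]), ([216,216,120], [16,24,32,48])]

/-- State `0 1 5 0`. -/
def s_0_1_5_0 : St :=
  [([360], [16,32,40,48])]

/-- State `0 2 0 0`. -/
def s_0_2_0_0 : St :=
  [([56,172,100,160,204,60,44,92,60,12], [0,16,17,32]),
   ([-248,-596,-286,-472,-480,-114,-124,-202,-102,-16], [8,16,17,24]),
   ([172,248,152,76,116,36], [0,16,17,24]), ([-16,-36,-36,-20,-36,-12], [0,16,24,26]),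
   ([24,48,36,24,36,12], [8,16,18,24]), ([96,144,96,48,72,24], [0,16,17,33]),
   ([-6,-12,-36,-6,-24,-12], [0,17,24,25]), ([-286,-408,-198,-146,-150,-36], [8,16,17,25]),
   ([100,52,48], [0,16,17,25]), ([-24,-24,-12], [0,16,25,26]), ([12,12,0], [0,18,24,25]),
   ([12,12,12], [8,16,18,25]), ([48,24,24], [0,16,17,34]), ([-36,-36,-24], [0,17,24,26]),
   ([-144,-96,-48], [8,16,17,26]), ([16,36,12,20,12,0], [0,8,26,32]), ([64,64,24], [8,9,17,24]),
   ([64,64,24], [0,16,18,24]), ([72,72,24], [0,8,17,24]), ([276,436,228,160,192,48], [0,8,16,24]),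
   ([36,36,12], [0,9,16,24]), ([132,84,60], [0,8,16,25]), ([196,348,166,152,154,36], [8,9,16,24]),
   ([12,80,42,180,204,54,160,294,168,30,48,124,114,44,6], [0,8,16,40]),
   ([96,378,208,546,628,172,342,620,360,66,78,200,184,72,10], [0,8,24,32]),
   ([30,102,52,114,120,30,42,68,36,6], [0,9,24,32]),
   ([252,780,410,760,850,220,232,412,232,40], [0,8,16,32]),
   ([74,246,130,262,294,78,90,160,90,16], [8,9,16,32]),
   ([84,272,150,276,324,90,88,162,96,18], [0,8,16,41]),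
   ([132,348,222,300,396,126,84,174,114,24], [0,8,24,33]),
   ([88,262,128,248,258,60,74,126,66,10], [0,8,25,32]), ([36,72,42,36,42,12], [0,9,24,33]),
   ([388,632,356,244,296,84], [0,8,16,33]), ([148,264,144,116,132,36], [8,9,16,33]),
   ([144,240,144,96,120,36], [0,8,16,42]), ([92,156,120,64,96,36], [0,8,24,34]),
   ([-40,-48,10,-8,-2,12], [0,8,24,25]), ([0,0,-56,0,-78,-42,0,-26,-30,-8], [0,16,24,25]),
   ([20,20,24], [0,8,24,26]), ([12,12,0], [0,8,26,33]), ([36,36,24], [0,8,24,35]),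
   ([24,24,12], [0,16,24,27]), ([-12,-12,0], [8,9,24,26]), ([12,12,12], [0,9,24,34]),
   ([200,128,96], [0,8,16,34]), ([108,84,48], [8,9,16,34]), ([72,48,36], [0,8,16,43]),
   ([-22,-22,0], [0,9,24,25]), ([114,90,48], [8,9,16,25]), ([-28,-48,-12,-20,-12,0], [8,9,24,25]),
   ([4,24,12,44,48,12,24,44,24,4], [0,8,17,40]), ([2,12,6,22,24,6,12,22,12,2], [0,9,16,40]),
   ([76,188,88,112,112,24], [0,8,17,32]), ([28,72,36,44,48,12], [0,16,18,32]),
   ([28,72,36,44,48,12], [0,8,17,41]), ([38,94,44,56,56,12], [0,9,16,32]),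
   ([22,54,24,32,30,6], [0,9,25,32]), ([28,72,36,44,48,12], [8,9,17,32]),
   ([14,36,18,22,24,6], [0,9,16,41]), ([118,192,102,74,90,24], [0,8,25,33]),
   ([-112,-192,-102,-80,-90,-24], [9,16,17,24]), ([112,112,48], [0,8,17,33]),
   ([48,48,24], [0,16,18,33]), ([48,48,24], [0,8,17,42]), ([56,56,24], [0,9,16,33]),
   ([30,30,12], [0,9,25,33]), ([48,48,24], [8,9,17,33]), ([24,24,12], [0,9,16,42]),
   ([72,48,36], [0,8,25,34]), ([48,48,24], [8,17,18,24]), ([-24,-24,-12], [9,16,18,24]),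
   ([-90,-66,-36], [9,16,17,25]), ([24], [0,8,25,26]), ([24], [0,8,25,35]), ([12], [0,16,25,27]),
   ([24], [8,9,16,26]), ([-24], [9,16,17,26]), ([24], [8,9,16,35]), ([-24], [8,16,17,27]),
   ([24], [0,8,16,26]), ([24], [0,16,17,26]), ([24], [0,8,16,35]), ([48], [0,8,17,34]),
   ([24], [0,16,18,34]), ([24], [0,8,17,43]), ([24], [0,9,16,34]), ([12], [0,9,25,34]),
   ([24], [8,9,17,34]), ([12], [0,9,16,43]), ([24], [8,9,17,25]), ([24], [8,17,18,25]),
   ([-12], [9,16,18,25]), ([-24], [0,17,25,26]), ([24], [0,16,18,25]), ([24], [0,8,17,25]),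
   ([12], [0,9,16,25])]

/-- State `0 2 0 1`. -/
def s_0_2_0_1 : St :=
  [([-8,-8,0], [8,16,24,33]), ([6,6,0], [16,17,24,33]), ([-18,-18,0], [8,24,25,33]),
   ([8,8,0], [8,17,24,32]), ([12,12,0], [8,24,26,32]), ([12,12,0], [16,17,25,32]),
   ([-12,-12,0], [8,16,24,42]), ([6,6,0], [8,17,24,41]), ([16,16,0], [8,16,25,32]),
   ([12,12,0], [8,16,25,41]), ([-6,-6,0], [8,17,32,33]), ([24,24,16,0,16,0], [8,16,24,32]),
   ([40,72,18,32,18,0], [16,17,24,32]), ([-6,-24,-6,-18,-6,0], [8,24,25,32]),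
   ([-4,0,-6,4,-6,0], [8,16,32,33]), ([18,24,6,6,6,0], [8,16,24,41]),
   ([8,18,6,10,6,0], [8,17,24,40]), ([16,36,12,20,12,0], [8,16,25,40]),
   ([42,116,48,102,84,12,28,36,12,0], [8,16,24,40])]

/-- State `0 2 0 2`. -/
def s_0_2_0_2 : St :=
  [([-12,-24,0,-12,0,0], [16,24,32,40])]

/-- State `0 2 1 0`. -/
def s_0_2_1_0 : St :=
  [([48], [0,8,24,33]), ([-24], [0,16,24,25]), ([-24], [8,16,24,26]), ([-12], [0,17,24,33]),
   ([-12], [8,16,17,33]), ([-12], [8,17,24,25]), ([46,70,-12], [8,16,24,25]),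
   ([18,-6,12], [8,16,25,33]), ([48], [0,16,25,33]), ([36], [8,17,25,33]), ([48,24,0], [8,16,24,34]),
   ([24], [0,16,24,34]), ([24], [0,24,25,34]), ([12], [8,17,24,34]), ([-48], [8,16,25,34]),
   ([24], [8,24,25,26]), ([48], [8,16,26,33]), ([-36], [16,17,24,26]), ([144,120,48], [8,17,24,33]),
   ([12], [9,17,24,33]), ([-12], [8,18,24,33]), ([-12,-12,-12], [16,17,24,25]),
   ([24], [16,18,24,25]), ([24], [9,16,24,25]), ([48], [0,8,24,42]), ([24], [8,9,24,42]),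
   ([-12], [8,16,17,42]), ([12], [0,8,24,51]), ([-24], [9,16,25,33]), ([36], [8,9,24,33]),
   ([12], [0,8,33,42]), ([24], [0,16,25,42]), ([12], [0,24,26,33]), ([36], [8,16,24,35]),
   ([24], [0,16,24,43]), ([280,390,156,134,120,24], [8,16,24,33]), ([-18,-18,-12], [9,16,24,33]),
   ([198,372,192,174,174,42], [8,17,24,32]), ([24,24,12], [9,17,24,32]),
   ([-32,-32,-12], [8,16,17,32]), ([84,84,48], [8,16,26,32]), ([-36,-36,-12], [8,18,24,32]),
   ([66,66,36], [8,17,25,32]), ([124,100,60], [0,16,24,33]), ([96,72,48], [0,16,24,42]),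
   ([110,110,48], [0,8,24,41]), ([6,6,0], [0,17,24,41]), ([54,54,24], [8,9,24,41]),
   ([-24,-24,-12], [8,16,17,41]), ([24,24,12], [0,8,24,50]), ([72,96,132,24,84,36], [8,16,25,32]),
   ([-60,-60,-24], [9,16,25,32]), ([144,144,48], [0,8,24,32]), ([-16,-16,-12], [0,17,24,32]),
   ([108,108,36], [8,9,24,32]), ([-40,-40,0], [0,8,32,33]), ([-6,-6,0], [0,17,32,33]),
   ([-18,-18,0], [8,9,32,33]), ([30,30,12], [0,8,33,41]), ([60,60,24], [0,16,25,41]),
   ([36,36,12], [0,24,26,32]), ([140,140,48], [0,16,25,32]),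
   ([302,728,450,574,702,204,148,276,162,30], [8,16,24,32]),
   ([-64,-120,-54,-56,-54,-12], [9,16,24,32]), ([284,492,236,208,224,48], [0,16,24,32]),
   ([-32,-48,-18,-16,-18,0], [0,16,32,33]), ([166,288,150,122,138,36], [0,16,24,41]),
   ([74,184,86,110,110,24], [0,8,24,40]), ([8,18,6,10,6,0], [0,17,24,40]),
   ([36,90,42,54,54,12], [8,9,24,40]), ([-14,-36,-18,-22,-24,-6], [8,16,17,40]),
   ([14,36,18,22,24,6], [0,8,24,49]), ([22,54,24,32,30,6], [0,8,33,40]),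
   ([44,108,48,64,60,12], [0,16,25,40]), ([2,12,6,22,24,6,12,22,12,2], [0,8,24,48]),
   ([12,12,12], [0,8,32,42]), ([-12,-12,0], [0,16,32,34]), ([36,72,42,36,42,12], [0,8,32,41]),
   ([116,362,178,364,378,90,118,196,102,16], [0,16,24,40]),
   ([30,102,52,114,120,30,42,68,36,6], [0,8,32,40]), ([72,48,36], [0,24,25,33]),
   ([106,168,96,62,84,24], [0,24,25,32])]

/-- State `0 2 1 1`. -/
def s_0_2_1_1 : St :=
  [([28,48,18,20,18,0], [8,24,32,40]), ([6,6,0], [8,24,32,41]), ([12,12,0], [8,24,33,40]),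
   ([-6,-6,0], [8,16,40,41]), ([8,18,6,10,6,0], [8,16,32,48]), ([20,20,0], [8,16,32,40]),
   ([6,6,0], [8,16,32,49]), ([12,12,0], [16,17,32,40]), ([-6,-6,0], [16,24,25,40]),
   ([42,42,0], [16,24,32,33])]

/-- State `0 2 2 0`. -/
def s_0_2_2_0 : St :=
  [([92,168,72,76,72,12], [0,24,32,40]), ([-84,-36,-72], [8,24,32,33]), ([24,24,12], [0,24,32,41]),
   ([356,636,336,280,300,72], [8,16,32,40]), ([72,72,24], [0,24,33,40]), ([96,96,48], [8,16,33,40]),
   ([-24,-24,0], [0,16,40,41]), ([228,180,84], [8,16,32,41]), ([44,108,48,64,60,12], [8,16,24,48]),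
   ([44,108,48,64,60,12], [0,16,32,48]), ([224,224,96], [8,16,24,40]), ([-24,-24,-12], [0,25,32,40]),
   ([60,60,24], [8,16,24,49]), ([176,176,48], [0,16,32,40]), ([60,60,24], [0,16,32,49]),
   ([72,72,24], [8,17,32,40]), ([-48,-48,-12], [9,16,32,40]), ([144,144,72], [16,17,24,40]),
   ([-132,-132,-48], [16,24,25,32]), ([24], [8,16,32,42]), ([-72], [8,24,32,34]),
   ([48], [8,24,25,32]), ([-12], [0,25,32,41]), ([-24], [8,25,32,33]), ([96], [8,16,24,41]),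
   ([24], [0,24,33,41]), ([48], [8,16,33,41]), ([24], [8,16,24,50]), ([48], [0,16,32,41]),
   ([24], [0,16,32,50]), ([96], [8,16,24,32]), ([96], [16,17,24,32]), ([-48], [8,16,32,33]),
   ([24], [9,24,32,33]), ([-48], [16,17,32,33]), ([-48], [17,24,25,32]), ([72], [16,17,24,41]),
   ([24], [8,17,32,41]), ([-12], [9,16,32,41]), ([72], [16,24,26,32]), ([-72], [16,24,25,33]),
   ([-48], [0,24,32,33])]

/-- State `0 2 2 1`. -/
def s_0_2_2_1 : St :=
  [([12,12,0], [16,24,32,48]), ([12,12,0], [8,24,40,48])]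

/-- State `0 2 3 0`. -/
def s_0_2_3_0 : St :=
  [([240], [8,24,32,40]), ([96], [16,24,32,41]), ([144], [16,25,32,40]), ([-108], [17,24,32,40]),
   ([36], [8,16,40,49]), ([96], [8,24,32,49]), ([-72], [8,24,40,41]), ([396,300,180], [16,24,32,40]),
   ([48], [16,24,33,40]), ([60], [8,32,33,40]), ([12], [0,24,40,49]), ([-24], [0,32,40,41]),
   ([108,108,36], [8,16,40,48]), ([216,216,96], [8,24,32,48]), ([60,60,12], [0,24,40,48])]

/-- State `0 2 4 0`. -/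
def s_0_2_4_0 : St :=
  [([144], [8,32,40,48]), ([240], [16,24,40,48])]

/-- State `0 3 0 0`. -/
def s_0_3_0_0 : St :=
  [([36], [0,8,16,24]), ([36], [0,16,17,24]), ([36], [8,9,16,24]), ([108], [0,8,16,33]),
   ([36], [0,8,24,25]), ([-132,-132,-36], [8,16,17,24]), ([-36], [0,16,24,26]), ([36], [8,16,18,24]),
   ([72], [0,16,17,33]), ([-72], [0,17,24,25]), ([-36], [8,16,17,25]),
   ([966,1188,522,366,342,72], [8,16,24,25]), ([-288,-144,-108], [0,16,24,25]),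
   ([270,162,72], [8,17,24,25]), ([180,108,72], [0,16,25,33]), ([36], [0,17,25,33]),
   ([-36], [0,17,24,34]), ([108,36,0], [8,16,24,26]), ([36], [0,24,25,26]), ([36], [0,16,26,33]),
   ([-72], [8,16,25,26]), ([-36], [9,16,17,24]), ([36], [9,16,24,26]), ([36], [16,17,18,24]),
   ([-198,-162,-72], [8,16,17,33]), ([-36], [9,16,17,33]), ([36], [8,16,18,33]),
   ([36], [9,17,24,25]), ([36], [8,18,24,25]), ([72], [8,9,16,33]), ([204,132,96], [0,8,24,42]),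
   ([24], [0,9,24,42]), ([108], [0,8,16,42]), ([36], [0,16,17,42]), ([36], [8,9,16,42]),
   ([36], [0,8,16,51]), ([36], [0,8,24,43]), ([36], [8,9,25,33]), ([-72], [8,16,17,34]),
   ([396,252,180], [0,8,24,33]), ([-54,-18,-24], [0,17,24,33]), ([162,126,72], [8,9,24,33]),
   ([36], [0,9,24,33]), ([36], [0,8,25,33]), ([36], [0,8,25,42]), ([108], [0,8,24,34]),
   ([36], [8,9,24,34]), ([36], [0,8,33,34]), ([-24], [0,18,24,33]), ([36], [8,16,24,27]),
   ([216,144,72], [9,16,24,25]), ([36], [0,16,24,35]),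
   ([-192,-360,-162,-168,-162,-36], [8,16,17,32]), ([-72,-72,-36], [9,16,17,32]),
   ([72,72,36], [8,16,18,32]), ([132,216,102,84,90,24], [0,16,24,33]),
   ([366,594,330,228,276,78], [0,8,24,41]), ([54,54,24], [0,9,24,41]), ([240,240,108], [0,8,16,41]),
   ([72,72,36], [0,16,17,41]), ([72,72,36], [8,9,16,41]), ([72,72,36], [0,8,16,50]),
   ([168,168,72], [8,9,16,32]), ([90,90,36], [8,9,25,32]), ([780,1230,606,450,516,126], [0,8,24,32]),
   ([-90,-108,-42,-18,-24,-6], [0,17,24,32]), ([264,468,234,204,216,54], [8,9,24,32]),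
   ([108,108,36], [0,9,24,32]), ([-30,-36,36,-6,18,18], [0,8,32,33]), ([-18,-18,0], [0,9,32,33]),
   ([156,156,36], [0,8,25,32]), ([54,54,36], [0,17,25,32]), ([90,90,36], [0,8,25,41]),
   ([276,276,108], [0,8,16,32]), ([168,168,72], [0,16,17,32]), ([72,72,36], [0,16,26,32]),
   ([-60,-60,-24], [0,18,24,32]), ([192,498,348,420,570,180,114,234,150,30], [0,16,24,32]),
   ([300,468,306,168,234,72], [0,16,25,32]), ([240,738,378,714,780,198,216,378,210,36], [0,8,24,40]),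
   ([36,90,42,54,54,12], [0,9,24,40]), ([156,390,186,234,240,54], [0,8,16,40]),
   ([42,108,54,66,72,18], [0,16,17,40]), ([42,108,54,66,72,18], [8,9,16,40]),
   ([42,108,54,66,72,18], [0,8,16,49]), ([66,162,72,96,90,18], [0,8,25,40]),
   ([6,36,18,66,72,18,36,66,36,6], [0,8,16,48]), ([36,36,36], [0,8,32,34])]

/-- State `0 3 0 1`. -/
def s_0_3_0_1 : St :=
  [([18,18,0], [8,16,33,40]), ([24,54,18,30,18,0], [8,16,24,48]), ([12,12,0], [8,17,32,40]),
   ([18,18,0], [8,24,25,40]), ([42,42,0], [8,16,24,40]), ([18,18,0], [8,16,24,49]),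
   ([42,54,18,12,18,0], [8,16,32,40]), ([18,18,0], [16,17,24,40]), ([36,36,0], [8,24,32,33]),
   ([-12,-12,0], [8,16,32,41]), ([-36,-36,0], [16,24,25,32])]

/-- State `0 3 1 0`. -/
def s_0_3_1_0 : St :=
  [([108,108,36], [0,16,33,40]), ([162,126,12], [8,16,32,33]), ([66,162,72,96,90,18], [0,16,24,48]),
   ([468,774,486,306,378,108], [8,16,24,40]), ([36,90,42,54,54,12], [0,8,32,48]),
   ([12,12,0], [0,17,32,40]), ([138,138,72], [8,17,24,40]), ([90,90,36], [0,24,25,40]),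
   ([126,126,72], [8,16,25,40]), ([-72,-108,-12], [8,24,25,32]), ([300,300,108], [0,16,24,40]),
   ([348,204,156], [8,16,24,32]), ([90,90,36], [0,16,24,49]), ([312,204,108], [8,16,24,41]),
   ([180,180,60], [0,8,32,40]), ([72,72,24], [8,9,32,40]), ([-18,-18,0], [0,8,40,41]),
   ([306,522,252,216,234,54], [0,16,32,40]), ([-90,-90,-36], [9,16,24,40]),
   ([252,216,108], [16,17,24,32]), ([54,54,24], [0,8,32,49]), ([-36], [0,24,32,34]),
   ([96], [8,24,26,32]), ([84], [8,17,24,32]), ([72], [8,17,24,41]), ([-24], [8,17,32,33]),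
   ([-36], [0,16,32,33]), ([36], [0,16,33,41]), ([36], [0,16,32,42]), ([36], [9,16,32,33]),
   ([36], [8,16,24,33]), ([72], [16,17,24,33]), ([108], [0,16,24,41]), ([72], [8,16,25,41]),
   ([36], [0,16,24,50]), ([108], [0,16,24,32]), ([108], [8,16,25,32]), ([60], [0,8,32,41]),
   ([150,114,72], [0,16,32,41]), ([-72], [8,24,25,33]), ([-72], [9,16,24,32]), ([72], [16,17,25,32]),
   ([-36], [9,16,24,41]), ([36], [0,24,25,41]), ([24], [8,9,32,41]), ([24], [0,8,32,50]),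
   ([-36], [16,18,24,32]), ([-36], [9,24,25,32]), ([72], [0,24,25,32]), ([-36], [0,25,32,33]),
   ([-180,-108,-72], [0,24,32,33])]

/-- State `0 3 1 1`. -/
def s_0_3_1_1 : St :=
  [([12,12,0], [8,16,40,48]), ([-30,-30,0], [16,24,32,40]), ([18,18,0], [8,24,32,48])]

/-- State `0 3 2 0`. -/
def s_0_3_2_0 : St :=
  [([480,336,216], [8,24,32,40]), ([108], [0,24,32,40]), ([36], [0,32,33,40]), ([36], [8,25,32,40]),
   ([-36], [0,24,40,41]), ([72], [8,24,32,41]), ([144], [8,24,33,40]), ([-36], [9,24,32,40]),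
   ([156], [16,17,32,40]), ([24], [0,16,40,49]), ([108], [8,16,32,49]), ([252], [8,16,32,40]),
   ([-12], [8,16,40,41]), ([36], [0,24,32,49]), ([-48], [16,24,25,40]), ([144], [16,24,32,33]),
   ([84,84,24], [0,16,40,48]), ([240,240,108], [8,16,32,48]), ([108,108,36], [0,24,32,48])]

/-- State `0 3 3 0`. -/
def s_0_3_3_0 : St :=
  [([180], [16,24,32,48]), ([36], [0,32,40,48]), ([216], [8,24,40,48])]

/-- State `0 4 0 0`. -/
def s_0_4_0_0 : St :=
  [([72,72,0], [0,8,33,40]), ([-288,-144,-96], [0,16,32,33]),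
   ([144,360,168,216,216,48], [0,8,24,48]), ([672,1080,648,408,504,144], [0,16,24,40]),
   ([504,792,360,288,312,72], [0,8,32,40]), ([-984,-864,-288,-168,-96,0], [8,16,24,32]),
   ([-24,-24,0], [0,17,24,40]), ([96,192,96], [8,17,24,32]), ([288,288,144], [0,16,25,40]),
   ([288,144,96], [0,24,25,32]), ([-720,-432,-144], [8,16,25,32]), ([960,528,336], [0,16,24,32]),
   ([648,648,240], [0,8,24,40]), ([216,216,96], [0,8,24,49]), ([384,240,144], [0,16,24,41]),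
   ([72,72,24], [0,9,32,40]), ([264,168,120], [0,8,32,41]), ([216,216,96], [8,9,24,40]),
   ([-432,-288,-144], [9,16,24,32]), ([720,432,192], [8,16,24,33]), ([48], [0,17,24,32]),
   ([96], [0,24,26,32]), ([-96], [8,18,24,32]), ([-96], [0,17,32,33]), ([192], [8,17,24,33]),
   ([144], [0,8,32,33]), ([96], [0,8,32,42]), ([240], [0,8,24,41]), ([144], [0,16,25,41]),
   ([96], [0,8,24,50]), ([144], [0,8,24,32]), ([288], [0,16,25,32]), ([144], [8,9,24,32]),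
   ([-144], [9,16,25,32]), ([96], [8,9,24,41]), ([24], [0,9,32,41])]

/-- State `0 4 0 1`. -/
def s_0_4_0_1 : St :=
  [([-48,-48,0], [8,24,32,40]), ([48,48,0], [8,16,32,48])]

/-- State `0 4 1 0`. -/
def s_0_4_1_0 : St :=
  [([120], [8,17,32,40]), ([24], [0,8,40,49]), ([432,288,216], [8,16,32,40]), ([-96], [9,16,32,40]),
   ([336], [8,16,24,40]), ([144], [16,17,24,40]), ([144], [8,16,24,49]), ([96], [8,16,32,41]),
   ([96], [8,16,33,40]), ([96], [8,24,25,40]), ([144], [8,24,32,33]), ([96], [0,16,32,49]),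
   ([144], [0,24,33,40]), ([240], [0,16,32,40]), ([-192], [16,24,25,32]),
   ([264,264,144], [8,16,24,48]), ([72,72,24], [0,8,40,48]), ([384,240,144], [0,24,32,40]),
   ([264,264,96], [0,16,32,48])]

/-- State `0 4 2 0`. -/
def s_0_4_2_0 : St :=
  [([288], [8,24,32,48]), ([96], [0,24,40,48]), ([144], [8,16,40,48])]

/-- State `0 5 0 0`. -/
def s_0_5_0_0 : St :=
  [([120], [0,8,32,40]), ([120], [0,17,32,40]), ([120], [8,9,32,40]), ([120], [0,8,32,49]),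
   ([120], [0,8,40,41]), ([-720,-240,0], [8,16,24,40]), ([-240], [9,16,24,40]),
   ([240], [8,16,24,41]), ([240], [8,16,24,32]), ([240], [16,17,24,32]), ([240], [8,16,32,33]),
   ([-240], [8,24,25,32]), ([720], [0,16,24,40]), ([240], [0,16,24,49]), ([240], [0,16,33,40]),
   ([240], [0,24,25,40]), ([1080,600,360], [0,16,32,40]), ([360,360,120], [0,8,32,48]),
   ([480,480,240], [0,16,24,48])]

/-- State `0 5 1 0`. -/
def s_0_5_1_0 : St :=
  [([240], [0,24,32,48]), ([360], [8,16,32,48]), ([120], [0,16,40,48])]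

/-- State `0 6 0 0`. -/
def s_0_6_0_0 : St :=
  [([720], [0,16,32,48])]

/-- State `1 0 0 0`. -/
def s_1_0_0_0 : St :=
  [([144,210,144,78,108,36], [0,8,17,26]), ([54,42,24], [0,9,17,26]), ([48,36,24], [0,8,18,26]),
   ([12], [0,9,18,26]), ([42,30,24], [0,8,17,27]), ([12], [0,9,17,27]), ([12], [0,8,18,27]),
   ([169,413,259,335,435,135,91,182,117,24], [0,8,17,25]), ([74,132,72,58,66,18], [0,9,17,25]),
   ([62,108,66,46,60,18], [0,8,18,25]), ([24,24,12], [0,9,18,25]),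
   ([77,304,178,436,539,158,272,529,327,64,63,170,165,68,10], [0,8,17,24]),
   ([37,123,65,131,147,39,45,80,45,8], [0,9,17,24]), ([30,98,56,102,126,36,34,68,42,8], [0,8,18,24]),
   ([14,36,18,22,24,6], [0,9,18,24]), ([132,324,222,264,372,126,72,156,108,24], [0,8,16,26]),
   ([60,108,66,48,60,18], [0,9,16,26]), ([42,72,54,30,48,18], [0,8,16,27]),
   ([18,18,12], [0,9,16,27]),
   ([145,498,318,640,842,267,366,744,486,102,79,220,222,96,15], [0,8,16,25]),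
   ([69,195,113,183,219,63,57,106,63,12], [0,9,16,25]),
   ([63,310,186,600,750,225,574,1120,700,140,273,738,720,300,45,52,182,246,160,50,6], [0,8,16,24]),
   ([31,135,75,217,252,70,153,279,162,30,40,102,93,36,5], [0,9,16,24]),
   ([-47,-110,-48,-85,-80,-12,-22,-32,-12], [0,8,16,17]), ([-18,-30,-8,-12,-8], [0,9,16,17]),
   ([-26,-46,-16,-20,-16], [0,8,16,18]), ([-8,-8], [0,9,16,18]), ([-8,-8], [0,8,17,18]),
   ([-6,-6], [0,8,9,26]), ([-12,-24,-6,-12,-6], [0,8,9,25]),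
   ([-7,-25,-9,-29,-21,-3,-11,-12,-3], [0,8,9,24]), ([-4,-4], [0,8,9,17]),
   ([-10,-20,-4,-10,-4], [0,8,9,16])]

/-- State `1 0 0 1`. -/
def s_1_0_0_1 : St :=
  [([-16,-32,-4,-16,-4,0], [8,16,17,24]), ([-4,-4,0], [8,16,17,25]), ([-6,-6,0], [8,17,24,26]),
   ([-20,-36,-12,-16,-12,0], [8,16,24,26]), ([-14,-24,-6,-10,-6,0], [8,17,24,25]),
   ([-37,-89,-37,-71,-63,-9,-19,-26,-9,0], [8,16,24,25]),
   ([-7,-25,-9,-29,-21,-3,-11,-12,-3,0], [8,16,17,32]), ([-12,-24,-6,-12,-6,0], [8,16,17,33]),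
   ([-6,-6,0], [8,16,25,26]), ([-6,-6,0], [8,16,17,34])]

/-- State `1 0 0 2`. -/
def s_1_0_0_2 : St :=
  [([-6,-12,0,-6,0,0], [16,24,25,32])]

/-- State `1 0 1 0`. -/
def s_1_0_1_0 : St :=
  [([114,206,90,92,84,18], [0,8,16,24]), ([64,52,24], [0,8,16,25]),
   ([44,148,74,160,168,42,56,92,48,8], [0,8,16,32]), ([-16,-32,-4,-16,-4,0], [0,16,17,24]),
   ([104,186,86,82,80,18], [8,9,16,24]), ([86,156,78,70,72,18], [0,8,16,33]),
   ([-4,-4,0], [0,16,17,25]), ([60,48,24], [8,9,16,25]), ([60,48,24], [0,8,16,34]),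
   ([32,32,12], [0,8,17,24]), ([32,32,12], [8,9,17,24]), ([-14,-14,0], [0,8,24,26]),
   ([-32,-54,-14,-22,-14,0], [0,8,24,25]),
   ([31,135,75,217,252,70,153,279,162,30,40,102,93,36,5], [0,8,24,32]),
   ([81,169,131,111,189,69,23,64,51,12], [8,16,17,24]),
   ([69,195,113,183,219,63,57,106,63,12], [0,8,24,33]), ([-6,-6,0], [0,17,24,26]),
   ([-6,-6,0], [8,9,24,26]), ([18,6,12], [8,16,17,26]), ([18,18,12], [0,8,24,35]),
   ([-20,-36,-12,-16,-12,0], [0,16,24,26]), ([-14,-24,-6,-10,-6,0], [0,17,24,25]),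
   ([-14,-24,-6,-10,-6,0], [8,9,24,25]), ([66,72,72,18,42,18], [8,16,17,25]),
   ([60,108,66,48,60,18], [0,8,24,34]), ([-37,-89,-37,-71,-63,-9,-19,-26,-9,0], [0,16,24,25]),
   ([14,36,18,22,24,6], [0,8,17,32]), ([14,36,18,22,24,6], [8,9,17,32]),
   ([14,36,18,22,24,6], [0,8,26,32]), ([-7,-25,-9,-29,-21,-3,-11,-12,-3,0], [0,16,17,32]),
   ([37,123,65,131,147,39,45,80,45,8], [8,9,16,32]),
   ([37,123,65,131,147,39,45,80,45,8], [0,8,25,32]), ([24,24,12], [8,17,18,24]),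
   ([24,24,12], [0,8,17,33]), ([24,24,12], [8,9,17,33]), ([24,24,12], [0,8,26,33]),
   ([62,108,66,46,60,18], [8,16,18,24]), ([-12,-24,-6,-12,-6,0], [0,16,17,33]),
   ([74,132,72,58,66,18], [8,9,16,33]), ([74,132,72,58,66,18], [0,8,25,33]), ([12], [8,16,18,26]),
   ([12], [0,8,16,26]), ([12], [8,9,16,26]), ([12], [0,8,16,35]), ([12], [8,9,16,35]),
   ([12], [0,8,25,35]), ([-6,-6,0], [0,16,25,26]), ([12], [0,8,17,25]), ([12], [8,9,17,25]),
   ([12], [8,17,18,25]), ([12], [0,8,17,34]), ([12], [8,9,17,34]), ([12], [0,8,26,34]),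
   ([48,36,24], [8,16,18,25]), ([-6,-6,0], [0,16,17,34]), ([54,42,24], [8,9,16,34]),
   ([54,42,24], [0,8,25,34])]

/-- State `1 0 1 1`. -/
def s_1_0_1_1 : St :=
  [([10,10,0], [8,16,24,33]), ([6,6,0], [8,16,24,42]), ([6,6,0], [16,17,24,33]),
   ([42,80,16,38,16,0], [8,16,24,32]), ([-14,-24,-6,-10,-6,0], [8,16,32,33]),
   ([12,24,6,12,6,0], [8,16,24,41]), ([26,48,12,22,12,0], [16,17,24,32]),
   ([-6,-12,0,-6,0,0], [8,24,25,32]), ([6,6,0], [8,16,25,32]), ([-6,-6,0], [8,16,32,34]),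
   ([6,6,0], [16,17,25,32]), ([7,25,9,29,21,3,11,12,3,0], [8,16,24,40])]

/-- State `1 0 1 2`. -/
def s_1_0_1_2 : St :=
  [([6,12,0,6,0,0], [16,24,32,40])]

/-- State `1 0 2 0`. -/
def s_1_0_2_0 : St :=
  [([12,66,0,42,24,0], [8,16,24,33]), ([124,100,48], [0,16,24,33]), ([54,42,24], [8,16,25,33]),
   ([60,48,24], [0,16,24,42]), ([0,12,0], [8,16,24,34]), ([12,12,0], [8,17,24,33]),
   ([-54,-42,-24], [9,16,24,33]), ([-48,-24,-24], [16,17,24,25]), ([24], [0,16,25,33]),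
   ([24], [8,16,26,33]), ([12], [0,16,25,42]), ([12], [8,16,25,34]), ([-24], [8,16,17,33]),
   ([-12], [9,16,25,33]), ([-24], [8,16,17,42]), ([-24], [8,16,24,26]), ([-24], [16,17,24,26]),
   ([-58,-34,-24], [8,16,24,25]), ([24], [0,16,24,34]), ([12], [0,16,24,43]), ([-12], [9,16,24,34]),
   ([44,164,34,184,120,6,64,80,24,0], [8,16,24,32]), ([234,422,180,188,168,36], [0,16,24,32]),
   ([-28,-48,-12,-20,-12,0], [0,16,32,33]), ([82,144,78,62,72,18], [8,16,25,32]),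
   ([86,156,78,70,72,18], [0,16,24,41]), ([52,96,24,44,24,0], [8,17,24,32]),
   ([-88,-156,-78,-68,-72,-18], [9,16,24,32]), ([-6,-12,0,-6,0,0], [0,24,25,32]),
   ([68,68,24], [0,16,25,32]), ([-12,-12,0], [0,16,32,34]), ([48,48,24], [8,16,26,32]),
   ([24,24,12], [0,16,25,41]), ([-64,-64,-24], [8,16,17,32]), ([12,12,0], [8,17,25,32]),
   ([-30,-30,-12], [9,16,25,32]), ([-48,-48,-24], [8,16,17,41]),
   ([44,148,74,160,168,42,56,92,48,8], [0,16,24,40]), ([14,36,18,22,24,6], [0,16,25,40]),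
   ([-28,-72,-36,-44,-48,-12], [8,16,17,40])]

/-- State `1 0 2 1`. -/
def s_1_0_2_1 : St :=
  [([-12,-12,0], [16,24,25,40]), ([6,6,0], [8,24,33,40]), ([32,60,12,28,12,0], [8,24,32,40]),
   ([-6,-6,0], [16,24,32,33]), ([6,6,0], [8,24,32,41])]

/-- State `1 0 3 0`. -/
def s_1_0_3_0 : St :=
  [([42,108,54,66,72,18], [8,16,24,48]), ([186,186,72], [8,16,24,40]), ([-18,-18,0], [8,24,25,40]),
   ([90,90,36], [16,17,24,40]), ([72,72,36], [8,16,24,49]), ([18,18,0], [8,16,33,40]),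
   ([-90,-54,-36], [8,24,32,33]), ([-18,18,0], [16,24,25,32]), ([36,36,12], [0,24,33,40]),
   ([120,216,90,96,84,18], [0,24,32,40]), ([78,144,36,66,36,0], [8,16,32,40]), ([-36], [8,24,32,34]),
   ([12], [0,24,32,42]), ([-36], [17,24,25,32]), ([36], [8,24,25,32]), ([72], [8,16,24,41]),
   ([36], [16,17,24,41]), ([36], [8,16,24,50]), ([36], [8,16,24,32]), ([36], [16,17,24,32]),
   ([36], [16,24,25,33]), ([12], [0,24,33,41]), ([18,18,0], [8,16,32,41]),
   ([60,48,24], [0,24,32,41])]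

/-- State `1 0 3 1`. -/
def s_1_0_3_1 : St :=
  [([18,18,0], [16,24,32,48])]

/-- State `1 0 4 0`. -/
def s_1_0_4_0 : St :=
  [([72,0,0], [16,24,32,40]), ([48], [8,24,32,40]), ([48], [8,32,33,40]), ([48], [8,24,32,49]),
   ([-72], [16,24,32,41]), ([72], [16,25,32,40]), ([144,144,48], [8,24,32,48])]

/-- State `1 0 5 0`. -/
def s_1_0_5_0 : St :=
  [([120], [16,24,40,48])]

/-- State `1 1 0 0`. -/
def s_1_1_0_0 : St :=
  [([-8,-8], [0,8,16,17]), ([507,1184,652,903,1048,288,226,412,240,44], [0,8,16,24]),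
   ([238,384,198,146,168,42], [0,8,17,24]), ([104,186,86,82,80,18], [0,9,16,24]),
   ([386,534,328,184,232,72], [0,8,16,25]), ([152,104,60], [0,8,17,25]), ([60,48,24], [0,9,16,25]),
   ([128,80,60], [0,8,16,26]), ([32,32,12], [0,9,17,24]), ([-8,-8], [8,9,16,17]),
   ([32,32,12], [0,8,18,24]),
   ([145,562,318,784,938,267,470,888,534,102,103,272,258,104,15], [0,8,16,32]),
   ([81,169,131,111,189,69,23,64,51,12], [0,16,17,24]),
   ([180,450,250,372,432,120,102,186,108,20], [8,9,16,24]),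
   ([312,740,444,576,720,216,148,288,180,36], [0,8,16,33]),
   ([-19,-41,5,-29,3,15,-7,0,9,4], [0,8,24,25]), ([20,30,36,10,24,12], [0,8,24,26]),
   ([-6,-6,0], [0,9,24,26]), ([18,6,12], [0,16,17,26]), ([84,60,36], [8,9,16,26]),
   ([72,48,36], [0,8,16,35]), ([18,18,12], [0,8,24,27]), ([-14,-24,-6,-10,-6,0], [0,9,24,25]),
   ([66,72,72,18,42,18], [0,16,17,25]), ([188,282,162,106,126,36], [8,9,16,25]),
   ([258,360,234,126,168,54], [0,8,16,34]), ([81,257,139,255,297,81,79,148,87,16], [0,8,17,32]),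
   ([14,36,18,22,24,6], [0,9,17,32]), ([14,36,18,22,24,6], [0,8,18,32]),
   ([112,192,102,80,90,24], [8,9,17,24]), ([37,123,65,131,147,39,45,80,45,8], [0,9,16,32]),
   ([24,24,12], [0,17,18,24]), ([24,24,12], [8,9,18,24]), ([160,264,150,104,126,36], [0,8,17,33]),
   ([24,24,12], [0,9,17,33]), ([24,24,12], [0,8,18,33]), ([90,66,36], [8,9,17,25]),
   ([24,12,12], [0,8,25,26]), ([62,108,66,46,60,18], [0,16,18,24]),
   ([74,132,72,58,66,18], [0,9,16,33]), ([36], [0,8,17,26]), ([12], [0,16,18,26]),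
   ([24], [0,8,17,35]), ([12], [0,9,16,26]), ([24], [8,9,17,26]), ([12], [0,9,16,35]),
   ([12], [0,8,16,27]), ([12], [8,9,16,27]), ([12], [0,8,25,27]), ([12], [0,9,17,25]),
   ([12], [0,8,18,25]), ([12], [0,17,18,25]), ([12], [8,9,18,25]), ([114,78,48], [0,8,17,34]),
   ([12], [0,9,17,34]), ([12], [0,8,18,34]), ([48,36,24], [0,16,18,25]), ([54,42,24], [0,9,16,34])]

/-- State `1 1 0 1`. -/
def s_1_1_0_1 : St :=
  [([6,6,0], [8,17,24,33]), ([26,48,12,22,12,0], [8,17,24,32]), ([-4,-4,0], [8,16,24,25]),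
   ([-6,-6,0], [8,16,24,34]), ([-6,-6,0], [16,17,24,25]), ([6,6,0], [8,16,26,32]),
   ([6,6,0], [8,17,25,32]), ([28,42,12,14,12,0], [8,16,25,32]), ([4,6,0,2,0,0], [8,16,24,33]),
   ([70,162,58,122,96,12,30,38,12,0], [8,16,24,32])]

/-- State `1 1 1 0`. -/
def s_1_1_1_0 : St :=
  [([114,90,48], [0,8,24,33]), ([6,6,0], [0,17,24,33]), ([54,42,24], [8,9,24,33]),
   ([-72,-60,-24], [8,16,17,33]), ([54,42,24], [0,8,24,42]), ([-56,-56,-12], [8,16,17,24]),
   ([-108,-72,-48], [8,16,24,26]), ([-54,-30,-24], [8,17,24,25]), ([12], [0,16,17,33]),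
   ([12], [0,16,26,33]), ([12], [8,16,18,33]), ([-24], [8,16,17,34]), ([24], [0,8,16,33]),
   ([24], [8,9,16,33]), ([24], [0,8,25,33]), ([12], [8,9,25,33]), ([12], [0,8,16,42]),
   ([12], [8,9,16,42]), ([12], [0,8,25,42]), ([90,66,36], [0,16,25,33]), ([-12], [9,16,17,24]),
   ([-24], [8,17,24,26]), ([12], [8,16,18,24]), ([12], [16,17,18,24]), ([-12], [9,16,17,33]),
   ([-12], [8,16,17,25]), ([-24], [8,16,25,26]), ([12], [0,16,17,24]), ([12], [0,8,16,24]),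
   ([12], [8,9,16,24]), ([12], [0,16,24,35]), ([24], [0,8,24,34]), ([12], [8,9,24,34]),
   ([12], [0,8,24,43]), ([24], [0,16,25,34]), ([192,342,164,150,152,36], [0,8,24,32]),
   ([26,48,12,22,12,0], [0,17,24,32]), ([88,156,78,68,72,18], [8,9,24,32]),
   ([-76,-144,-60,-68,-60,-12], [8,16,17,32]), ([74,132,72,58,66,18], [0,8,24,41]),
   ([-176,-192,-168,-52,-96,-36], [8,16,24,25]), ([-18,-18,0], [0,16,24,25]),
   ([78,54,36], [0,16,24,34]), ([6,6,0], [9,16,24,25]), ([24,24,12], [0,16,17,32]),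
   ([30,30,12], [0,16,26,32]), ([24,24,12], [8,16,18,32]), ([56,56,24], [0,8,16,32]),
   ([56,56,24], [8,9,16,32]), ([62,62,24], [0,8,25,32]), ([6,6,0], [0,17,25,32]),
   ([30,30,12], [8,9,25,32]), ([24,24,12], [0,8,16,41]), ([24,24,12], [8,9,16,41]),
   ([24,24,12], [0,8,25,41]), ([140,234,114,94,102,24], [0,16,25,32]), ([-24,-24,-12], [9,16,17,32]),
   ([37,123,65,131,147,39,45,80,45,8], [0,8,24,40]), ([14,36,18,22,24,6], [0,8,16,40]),
   ([14,36,18,22,24,6], [8,9,16,40]), ([14,36,18,22,24,6], [0,8,25,40]),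
   ([192,288,162,108,126,36], [0,16,24,33]), ([-14,-24,-6,-10,-6,0], [0,8,32,33]),
   ([-6,-6,0], [0,8,32,34]), ([250,612,308,494,528,132,132,224,120,20], [0,16,24,32])]

/-- State `1 1 1 1`. -/
def s_1_1_1_1 : St :=
  [([6,6,0], [8,16,33,40]), ([26,48,12,22,12,0], [8,16,32,40]), ([6,6,0], [8,16,24,40]),
   ([6,6,0], [16,17,24,40]), ([-6,-6,0], [8,24,32,33]), ([-18,-18,0], [16,24,25,32]),
   ([6,6,0], [8,16,32,41])]

/-- State `1 1 2 0`. -/
def s_1_1_2_0 : St :=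
  [([36,36,12], [0,16,33,40]), ([-90,-54,-36], [8,16,32,33]), ([114,204,90,90,84,18], [0,16,32,40]),
   ([14,36,18,22,24,6], [0,16,24,48]), ([228,402,180,174,168,36], [8,16,24,40]),
   ([-30,-30,-12], [9,16,24,40]), ([6,6,0], [8,16,25,40]), ([60,60,24], [8,17,24,40]),
   ([332,260,108], [8,16,24,32]), ([168,120,60], [16,17,24,32]), ([60,36,36], [8,24,25,32]),
   ([92,92,36], [0,16,24,40]), ([24,24,12], [0,16,24,49]), ([168,132,60], [8,16,24,41]),
   ([24,24,12], [0,24,25,40]), ([-12,-12,0], [0,24,32,33]), ([60], [8,16,24,33]),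
   ([24], [8,24,25,33]), ([48], [8,16,24,42]), ([12], [0,16,32,42]), ([24], [16,17,24,33]),
   ([-36], [8,16,32,34]), ([24], [0,16,24,32]), ([-12], [9,16,24,32]), ([-12], [9,24,25,32]),
   ([36], [8,16,25,32]), ([36], [16,17,25,32]), ([24], [8,17,24,32]), ([-12], [9,16,24,41]),
   ([24], [8,17,24,41]), ([36], [0,16,24,41]), ([12], [0,16,33,41]), ([12], [0,16,24,50]),
   ([24], [8,24,26,32]), ([24], [0,24,25,32]), ([12], [0,24,25,41]), ([60,48,24], [0,16,32,41])]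

/-- State `1 1 2 1`. -/
def s_1_1_2_1 : St :=
  [([6,6,0], [8,24,32,48]), ([30,30,0], [16,24,32,40])]

/-- State `1 1 3 0`. -/
def s_1_1_3_0 : St :=
  [([252,192,72], [8,24,32,40]), ([12], [0,24,32,40]), ([12], [0,32,33,40]), ([48], [8,24,33,40]),
   ([12], [0,24,32,49]), ([24], [8,24,32,41]), ([-72], [16,24,25,40]), ([36], [8,16,32,49]),
   ([72], [8,16,32,40]), ([36], [16,17,32,40]), ([-72], [16,24,32,33]), ([36,36,12], [0,24,32,48]),
   ([90,90,36], [8,16,32,48])]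

/-- State `1 1 4 0`. -/
def s_1_1_4_0 : St :=
  [([120], [16,24,32,48]), ([48], [8,24,40,48])]

/-- State `1 2 0 0`. -/
def s_1_2_0_0 : St :=
  [([372,510,324,174,228,72], [0,8,24,33]), ([54,42,24], [0,9,24,33]), ([440,296,168], [0,8,16,33]),
   ([120,72,48], [0,16,17,33]), ([180,132,72], [8,9,16,33]), ([180,120,72], [0,8,16,42]),
   ([156,96,72], [0,8,24,34]), ([-416,-582,-276,-202,-204,-48], [8,16,17,24]),
   ([188,116,72], [0,16,17,24]), ([-48,-36,-24], [0,16,24,26]), ([48,36,24], [8,16,18,24]),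
   ([-48,-24,-24], [0,17,24,25]), ([-234,-150,-72], [8,16,17,25]), ([48], [0,8,17,33]),
   ([24], [0,16,18,33]), ([24], [0,8,17,42]), ([24], [0,16,17,34]), ([24], [0,9,16,33]),
   ([126,90,48], [0,8,25,33]), ([12], [0,9,25,33]), ([24], [8,9,17,33]), ([12], [0,9,16,42]),
   ([96], [0,8,16,34]), ([48], [8,9,16,34]), ([36], [0,8,25,34]), ([-126,-90,-48], [9,16,17,24]),
   ([24], [8,9,17,24]), ([24], [8,17,18,24]), ([-12], [9,16,18,24]), ([-36], [9,16,17,25]),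
   ([12], [8,16,18,25]), ([-24], [0,17,24,26]), ([24], [0,16,18,24]), ([48], [0,16,17,25]),
   ([-12], [0,16,25,26]), ([24], [0,8,17,24]), ([24], [0,8,24,26]), ([276,192,96], [0,8,16,24]),
   ([202,154,72], [8,9,16,24]), ([12], [0,9,16,24]), ([22,-2,24], [0,8,24,25]), ([60], [0,8,16,25]),
   ([48], [8,9,16,25]), ([24], [0,8,24,35]), ([12], [0,16,24,27]), ([-48], [8,16,17,26]),
   ([12], [0,9,24,34]), ([36], [0,8,16,43]),
   ([456,1060,582,804,936,258,200,368,216,40], [0,8,24,32]), ([88,156,78,68,72,18], [0,9,24,32]),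
   ([670,1082,560,412,464,120], [0,8,16,32]), ([172,264,156,92,120,36], [0,16,17,32]),
   ([224,384,204,160,180,48], [8,9,16,32]), ([258,420,234,162,192,54], [0,8,16,41]),
   ([-106,-108,-108,-26,-60,-24], [0,16,24,25]), ([-12,-12,0], [8,9,24,25]),
   ([112,112,48], [0,8,17,32]), ([12,12,0], [0,8,26,32]), ([48,48,24], [0,16,18,32]),
   ([48,48,24], [0,8,17,41]), ([56,56,24], [0,9,16,32]), ([198,324,150,126,132,30], [0,8,25,32]),
   ([30,30,12], [0,9,25,32]), ([48,48,24], [8,9,17,32]), ([24,24,12], [0,9,16,41]),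
   ([132,416,222,408,468,126,124,228,132,24], [0,8,16,40]), ([28,72,36,44,48,12], [0,8,17,40]),
   ([14,36,18,22,24,6], [0,9,16,40])]

/-- State `1 2 0 1`. -/
def s_1_2_0_1 : St :=
  [([6,6,0], [8,17,24,40]), ([12,12,0], [8,16,25,40]), ([60,96,24,36,24,0], [8,16,24,40]),
   ([16,16,0], [8,16,24,32]), ([18,18,0], [16,17,24,32]), ([-6,-6,0], [8,16,32,33]),
   ([-6,-6,0], [8,24,25,32]), ([6,6,0], [8,16,24,41])]

/-- State `1 2 1 0`. -/
def s_1_2_1_0 : St :=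
  [([14,36,18,22,24,6], [0,8,24,48]), ([110,110,48], [0,8,24,40]), ([6,6,0], [0,17,24,40]),
   ([54,54,24], [8,9,24,40]), ([-24,-24,-12], [8,16,17,40]), ([24,24,12], [0,8,24,49]),
   ([168,84,72], [8,16,25,32]), ([30,30,12], [0,8,33,40]), ([234,174,84], [8,17,24,32]),
   ([284,480,228,196,204,48], [0,16,24,40]), ([684,864,498,276,324,90], [8,16,24,32]),
   ([60,60,24], [0,16,25,40]), ([-66,-54,-24], [9,16,24,32]), ([180,120,48], [8,16,24,33]),
   ([88,156,78,68,72,18], [0,8,32,40]), ([48], [0,16,24,42]), ([48], [8,17,24,33]),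
   ([12], [0,8,32,42]), ([-12], [8,16,24,25]), ([-12], [16,17,24,25]), ([12], [0,24,26,32]),
   ([48], [8,16,26,32]), ([284,224,96], [0,16,24,32]), ([48], [0,8,24,32]), ([48], [0,16,25,32]),
   ([36], [0,24,25,33]), ([12], [8,16,25,33]), ([60], [0,16,24,33]), ([-12], [0,17,24,32]),
   ([-12], [8,16,17,32]), ([36], [8,17,25,32]), ([-12], [9,16,24,33]), ([12], [9,17,24,32]),
   ([-12], [8,18,24,32]), ([48], [0,8,24,41]), ([24], [8,9,24,41]), ([-12], [8,16,17,41]),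
   ([12], [0,8,24,50]), ([-24], [9,16,25,32]), ([36], [8,9,24,32]), ([12], [0,8,33,41]),
   ([-18,-18,0], [0,16,32,33]), ([186,138,72], [0,16,24,41]), ([24], [0,16,25,41]),
   ([120,84,48], [0,24,25,32]), ([54,42,24], [0,8,32,41])]

/-- State `1 2 1 1`. -/
def s_1_2_1_1 : St :=
  [([18,18,0], [8,24,32,40]), ([6,6,0], [8,16,32,48])]

/-- State `1 2 2 0`. -/
def s_1_2_2_0 : St :=
  [([408,300,144], [8,16,32,40]), ([84,72,24], [0,24,32,40]), ([96], [8,16,24,40]),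
   ([24], [0,24,33,40]), ([48], [8,16,33,40]), ([24], [8,16,24,49]), ([48], [0,16,32,40]),
   ([24], [0,16,32,49]), ([84], [8,16,32,41]), ([72], [16,17,24,40]), ([-72], [8,24,32,33]),
   ([24], [8,17,32,40]), ([-12], [9,16,32,40]), ([-48], [16,24,25,32]), ([12], [0,24,32,41]),
   ([-12], [0,25,32,40]), ([60,60,24], [8,16,24,48]), ([60,60,24], [0,16,32,48])]

/-- State `1 2 3 0`. -/
def s_1_2_3_0 : St :=
  [([12], [0,24,40,48]), ([96], [8,24,32,48]), ([180], [16,24,32,40]), ([36], [8,16,40,48])]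

/-- State `1 3 0 0`. -/
def s_1_3_0_0 : St :=
  [([42,108,54,66,72,18], [0,8,16,48]), ([612,990,504,378,420,108], [0,8,24,40]),
   ([54,54,24], [0,9,24,40]), ([240,240,108], [0,8,16,40]), ([72,72,36], [0,16,17,40]),
   ([72,72,36], [8,9,16,40]), ([72,72,36], [0,8,16,49]), ([408,276,156], [0,8,24,41]),
   ([-198,-162,-72], [8,16,17,32]), ([90,90,36], [0,8,25,40]), ([732,516,252], [0,8,24,32]),
   ([-48,-24,-12], [0,17,24,32]), ([288,216,108], [8,9,24,32]), ([54,18,36], [0,8,32,33]),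
   ([558,720,450,234,300,90], [0,16,24,32]), ([378,234,144], [0,16,25,32]),
   ([594,342,144], [8,16,24,25]), ([96], [0,8,24,42]), ([180], [0,8,24,33]), ([-24], [0,17,24,33]),
   ([72], [8,9,24,33]), ([36], [0,8,32,34]), ([72], [8,17,24,25]), ([36], [0,16,26,32]),
   ([-36], [8,16,17,24]), ([108], [0,8,16,32]), ([36], [0,8,25,32]), ([-108], [0,16,24,25]),
   ([72], [0,16,25,33]), ([72], [0,16,17,32]), ([36], [0,17,25,32]), ([-72], [8,16,17,33]),
   ([72], [9,16,24,25]), ([-36], [9,16,17,32]), ([36], [8,16,18,32]), ([72], [8,9,16,32]),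
   ([126,90,48], [0,16,24,33]), ([24], [0,9,24,41]), ([108], [0,8,16,41]), ([36], [0,16,17,41]),
   ([36], [8,9,16,41]), ([36], [0,8,16,50]), ([36], [8,9,25,32]), ([36], [0,9,24,32]),
   ([36], [0,8,25,41]), ([-24], [0,18,24,32])]

/-- State `1 3 0 1`. -/
def s_1_3_0_1 : St :=
  [([18,18,0], [8,16,32,40]), ([18,18,0], [8,16,24,48])]

/-- State `1 3 1 0`. -/
def s_1_3_1_0 : St :=
  [([72], [8,17,24,40]), ([594,378,216], [8,16,24,40]), ([108], [0,16,24,40]), ([36], [0,16,33,40]),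
   ([72], [8,16,25,40]), ([36], [0,16,24,49]), ([108], [8,16,24,41]), ([60], [0,8,32,40]),
   ([-36], [9,16,24,40]), ([156], [8,16,24,32]), ([108], [16,17,24,32]), ([12], [8,16,32,33]),
   ([36], [0,24,25,40]), ([24], [8,9,32,40]), ([24], [0,8,32,49]), ([-12], [8,24,25,32]),
   ([-72], [0,24,32,33]), ([72], [0,16,32,41]), ([306,234,108], [0,16,32,40]),
   ([90,90,36], [0,16,24,48]), ([54,54,24], [0,8,32,48])]

/-- State `1 3 2 0`. -/
def s_1_3_2_0 : St :=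
  [([216], [8,24,32,40]), ([24], [0,16,40,48]), ([108], [8,16,32,48]), ([36], [0,24,32,48])]

/-- State `1 4 0 0`. -/
def s_1_4_0_0 : St :=
  [([96], [8,17,24,32]), ([792,504,288], [0,16,24,40]), ([240], [0,8,24,40]), ([144], [0,16,25,40]),
   ([96], [0,8,24,49]), ([144], [0,16,24,41]), ([96], [8,9,24,40]), ([-288,-96,0], [8,16,24,32]),
   ([-144], [9,16,24,32]), ([-144], [8,16,25,32]), ([432,312,144], [0,8,32,40]), ([24], [0,9,32,40]),
   ([120], [0,8,32,41]), ([192], [8,16,24,33]), ([336], [0,16,24,32]), ([96], [0,24,25,32]),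
   ([-96], [0,16,32,33]), ([216,216,96], [0,8,24,48])]

/-- State `1 4 1 0`. -/
def s_1_4_1_0 : St :=
  [([144], [0,24,32,40]), ([216], [8,16,32,40]), ([24], [0,8,40,48]), ([144], [8,16,24,48]),
   ([96], [0,16,32,48])]

/-- State `1 5 0 0`. -/
def s_1_5_0_0 : St :=
  [([360], [0,16,32,40]), ([120], [0,8,32,48]), ([240], [0,16,24,48])]

/-- State `2 0 0 0`. -/
def s_2_0_0_0 : St :=
  [([-4,-4], [0,8,9,16]), ([-12,-24,-6,-12,-6], [0,8,9,24]), ([-6,-6], [0,8,9,25]),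
   ([-60,-92,-24,-32,-24], [0,8,16,17]), ([-16,-16], [0,8,16,18]), ([-8,-8], [0,9,16,17]),
   ([602,1800,1080,2000,2500,750,984,1920,1200,240,182,492,480,200,30], [0,8,16,24]),
   ([180,450,250,372,432,120,102,186,108,20], [0,9,16,24]),
   ([702,1424,900,966,1260,396,220,444,288,60], [0,8,16,25]),
   ([372,480,324,156,216,72], [0,8,16,26]), ([84,60,36], [0,9,16,26]), ([72,48,36], [0,8,16,27]),
   ([188,282,162,106,126,36], [0,9,16,25]), ([410,934,548,694,858,252,170,330,204,40], [0,8,17,24]),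
   ([112,192,102,80,90,24], [0,9,17,24]), ([100,168,96,68,84,24], [0,8,18,24]),
   ([24,24,12], [0,9,18,24]), ([418,552,342,182,234,72], [0,8,17,25]), ([90,66,36], [0,9,17,25]),
   ([84,60,36], [0,8,18,25]), ([180,108,72], [0,8,17,26]), ([24], [0,8,18,26]), ([24], [0,8,17,27]),
   ([24], [0,9,17,26]), ([12], [0,9,16,27]), ([12], [0,9,18,25])]

/-- State `2 0 0 1`. -/
def s_2_0_0_1 : St :=
  [([-4,-4,0], [8,16,17,24]), ([-12,-12,0], [8,16,24,26]), ([-6,-6,0], [8,16,17,33]),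
   ([-6,-6,0], [8,17,24,25]), ([-46,-72,-18,-26,-18,0], [8,16,24,25]),
   ([-12,-24,-6,-12,-6,0], [8,16,17,32])]

/-- State `2 0 1 0`. -/
def s_2_0_1_0 : St :=
  [([12], [0,8,17,24]), ([12], [8,9,17,24]), ([12], [8,17,18,24]), ([12], [0,8,17,33]),
   ([12], [8,9,17,33]), ([12], [0,8,26,33]), ([12], [8,16,17,26]), ([12], [0,8,24,35]),
   ([24], [0,8,16,25]), ([90,42,36], [8,16,17,25]), ([24], [8,9,16,25]), ([24], [0,8,16,34]),
   ([24], [8,9,16,34]), ([24], [0,8,25,34]), ([24], [8,16,18,25]),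
   ([212,240,174,64,102,36], [8,16,17,24]), ([-4,-4,0], [0,16,17,24]), ([-12,-12,0], [0,16,24,26]),
   ([84,60,36], [8,16,18,24]), ([-6,-6,0], [0,16,17,33]), ([108,84,36], [0,8,16,24]),
   ([104,80,36], [8,9,16,24]), ([-14,-14,0], [0,8,24,25]), ([-6,-6,0], [0,17,24,25]),
   ([-6,-6,0], [8,9,24,25]), ([96,72,36], [0,8,16,33]), ([90,66,36], [8,9,16,33]),
   ([90,66,36], [0,8,25,33]), ([-46,-72,-18,-26,-18,0], [0,16,24,25]), ([24,24,12], [0,8,17,32]),
   ([24,24,12], [8,9,17,32]), ([24,24,12], [0,8,26,32]), ([-12,-24,-6,-12,-6,0], [0,16,17,32]),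
   ([124,216,108,92,96,24], [0,8,16,32]), ([112,192,102,80,90,24], [8,9,16,32]),
   ([112,192,102,80,90,24], [0,8,25,32]), ([188,282,162,106,126,36], [0,8,24,33]),
   ([84,60,36], [0,8,24,34]), ([180,450,250,372,432,120,102,186,108,20], [0,8,24,32])]

/-- State `2 0 1 1`. -/
def s_2_0_1_1 : St :=
  [([-6,-6,0], [8,16,32,33]), ([12,24,6,12,6,0], [8,16,24,40]), ([16,16,0], [8,16,24,32]),
   ([6,6,0], [8,16,24,41]), ([12,12,0], [16,17,24,32])]

/-- State `2 0 2 0`. -/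
def s_2_0_2_0 : St :=
  [([-12,-12,0], [0,16,32,33]), ([0,24,0], [8,16,24,33]), ([40,144,12,80,48,0], [8,16,24,32]),
   ([124,216,108,92,96,24], [0,16,24,40]), ([24,24,12], [0,16,25,40]), ([96,72,36], [8,16,25,32]),
   ([-48,-48,-24], [8,16,17,40]), ([216,168,72], [0,16,24,32]), ([96,72,36], [0,16,24,41]),
   ([24,24,0], [8,17,24,32]), ([-96,-72,-36], [9,16,24,32]), ([-24], [16,17,24,25]),
   ([48], [0,16,24,33]), ([24], [8,16,25,33]), ([24], [0,16,24,42]), ([-24], [9,16,24,33]),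
   ([-24], [8,16,24,25]), ([24], [0,16,25,32]), ([24], [8,16,26,32]), ([12], [0,16,25,41]),
   ([-24], [8,16,17,32]), ([-12], [9,16,25,32]), ([-24], [8,16,17,41])]

/-- State `2 0 2 1`. -/
def s_2_0_2_1 : St :=
  [([12,12,0], [8,24,32,40])]

/-- State `2 0 3 0`. -/
def s_2_0_3_0 : St :=
  [([72], [8,16,24,40]), ([36], [16,17,24,40]), ([36], [8,16,24,49]), ([-36], [8,24,32,33]),
   ([12], [0,24,33,40]), ([24], [0,24,32,41]), ([36,36,0], [8,16,32,40]),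
   ([108,84,36], [0,24,32,40]), ([72,72,36], [8,16,24,48])]

/-- State `2 0 4 0`. -/
def s_2_0_4_0 : St :=
  [([48], [8,24,32,48])]

/-- State `2 1 0 0`. -/
def s_2_1_0_0 : St :=
  [([240,168,84], [0,8,17,24]), ([126,90,48], [8,9,17,24]), ([12], [0,9,17,24]),
   ([48,24,24], [0,8,24,26]), ([12], [0,8,18,24]), ([12], [0,17,18,24]), ([12], [8,9,18,24]),
   ([186,126,72], [0,8,17,33]), ([12], [0,9,17,33]), ([12], [0,8,18,33]), ([60], [0,8,17,25]),
   ([36], [8,9,17,25]), ([12], [0,8,25,26]), ([60], [0,8,16,26]), ([12], [0,16,17,26]),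
   ([36], [8,9,16,26]), ([36], [0,8,16,35]), ([12], [0,8,24,27]), ([400,232,144], [0,8,16,25]),
   ([90,42,36], [0,16,17,25]), ([198,126,72], [8,9,16,25]), ([24], [0,9,16,25]),
   ([288,168,108], [0,8,16,34]), ([24], [0,9,16,34]), ([48], [0,8,17,34]), ([24], [0,16,18,25]),
   ([212,240,174,64,102,36], [0,16,17,24]), ([84,60,36], [0,16,18,24]),
   ([984,1288,708,412,480,132], [0,8,16,24]), ([390,540,300,186,216,60], [8,9,16,24]),
   ([104,80,36], [0,9,16,24]), ([24,12,42,0,18,12], [0,8,24,25]), ([-6,-6,0], [0,9,24,25]),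
   ([696,900,540,288,360,108], [0,8,16,33]), ([90,66,36], [0,9,16,33]),
   ([236,384,210,148,174,48], [0,8,17,32]), ([24,24,12], [0,9,17,32]), ([24,24,12], [0,8,18,32]),
   ([702,1576,900,1146,1380,396,272,516,312,60], [0,8,16,32]), ([112,192,102,80,90,24], [0,9,16,32])]

/-- State `2 1 0 1`. -/
def s_2_1_0_1 : St :=
  [([12,12,0], [8,17,24,32]), ([70,108,24,38,24,0], [8,16,24,32]), ([12,12,0], [8,16,25,32])]

/-- State `2 1 1 0`. -/
def s_2_1_1_0 : St :=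
  [([112,192,102,80,90,24], [0,8,24,40]), ([-72,-60,-24], [8,16,17,32]), ([24,24,12], [0,8,16,40]),
   ([24,24,12], [8,9,16,40]), ([24,24,12], [0,8,25,40]), ([200,152,72], [0,8,24,32]),
   ([12,12,0], [0,17,24,32]), ([96,72,36], [8,9,24,32]), ([90,66,36], [0,8,24,41]),
   ([460,648,324,224,240,60], [0,16,24,32]), ([-6,-6,0], [0,8,32,33]), ([-12], [8,16,17,24]),
   ([-48], [8,16,24,26]), ([-24], [8,16,17,33]), ([-24], [8,17,24,25]), ([36], [0,16,25,33]),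
   ([48], [0,8,24,33]), ([24], [8,9,24,33]), ([24], [0,8,24,42]), ([198,126,72], [0,16,24,33]),
   ([-204,-96,-72], [8,16,24,25]), ([12], [0,16,26,32]), ([36], [0,16,24,34]), ([12], [0,16,17,32]),
   ([12], [8,16,18,32]), ([24], [0,8,16,32]), ([24], [8,9,16,32]), ([24], [0,8,25,32]),
   ([12], [8,9,25,32]), ([12], [0,8,16,41]), ([12], [8,9,16,41]), ([12], [0,8,25,41]),
   ([138,102,48], [0,16,25,32]), ([-12], [9,16,17,32])]

/-- State `2 1 1 1`. -/
def s_2_1_1_1 : St :=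
  [([12,12,0], [8,16,32,40])]

/-- State `2 1 2 0`. -/
def s_2_1_2_0 : St :=
  [([216,168,72], [8,16,24,40]), ([-12], [9,16,24,40]), ([24], [8,17,24,40]), ([108], [8,16,24,32]),
   ([60], [16,17,24,32]), ([36], [8,24,25,32]), ([36], [0,16,24,40]), ([12], [0,16,33,40]),
   ([12], [0,16,24,49]), ([60], [8,16,24,41]), ([-36], [8,16,32,33]), ([12], [0,24,25,40]),
   ([24], [0,16,32,41]), ([108,84,36], [0,16,32,40]), ([24,24,12], [0,16,24,48])]

/-- State `2 1 3 0`. -/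
def s_2_1_3_0 : St :=
  [([72], [8,24,32,40]), ([12], [0,24,32,48]), ([36], [8,16,32,48])]

/-- State `2 2 0 0`. -/
def s_2_2_0_0 : St :=
  [([372,600,324,228,264,72], [0,8,16,40]), ([880,1152,636,368,432,120], [0,8,24,32]),
   ([48,48,24], [0,8,17,40]), ([192,120,72], [0,16,17,32]), ([24,24,12], [0,9,16,40]),
   ([680,464,240], [0,8,16,32]), ([252,180,96], [8,9,16,32]), ([180,132,60], [0,8,25,32]),
   ([96,72,36], [0,9,24,32]), ([288,192,108], [0,8,16,41]), ([396,228,144], [0,8,24,33]),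
   ([-324,-204,-96], [8,16,17,24]), ([72], [0,16,17,24]), ([-24], [0,16,24,26]),
   ([24], [8,16,18,24]), ([48], [0,16,17,33]), ([-24], [0,17,24,25]), ([-72], [8,16,17,25]),
   ([168], [0,8,16,33]), ([48], [0,8,25,33]), ([72], [0,8,16,42]), ([24], [0,9,24,33]),
   ([72], [8,9,16,33]), ([72], [0,8,24,34]), ([96], [0,8,16,24]), ([72], [8,9,16,24]),
   ([24], [0,8,24,25]), ([-132,-60,-48], [0,16,24,25]), ([-48], [9,16,17,24]), ([48], [0,8,17,32]),
   ([24], [0,16,18,32]), ([24], [0,8,17,41]), ([24], [0,9,16,32]), ([12], [0,9,25,32]),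
   ([24], [8,9,17,32]), ([12], [0,9,16,41])]

/-- State `2 2 0 1`. -/
def s_2_2_0_1 : St :=
  [([24,24,0], [8,16,24,40])]

/-- State `2 2 1 0`. -/
def s_2_2_1_0 : St :=
  [([48], [0,8,24,40]), ([24], [8,9,24,40]), ([-12], [8,16,17,40]), ([12], [0,8,24,49]),
   ([72], [8,16,25,32]), ([12], [0,8,33,40]), ([84], [8,17,24,32]), ([24], [0,16,25,40]),
   ([588,324,180], [8,16,24,32]), ([-24], [9,16,24,32]), ([96], [0,16,24,32]), ([48], [8,16,24,33]),
   ([24], [0,8,32,41]), ([72], [0,16,24,41]), ([48], [0,24,25,32]), ([276,204,96], [0,16,24,40]),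
   ([96,72,36], [0,8,32,40]), ([24,24,12], [0,8,24,48])]

/-- State `2 2 2 0`. -/
def s_2_2_2_0 : St :=
  [([24], [0,24,32,40]), ([144], [8,16,32,40]), ([24], [8,16,24,48]), ([24], [0,16,32,48])]

/-- State `2 3 0 0`. -/
def s_2_3_0_0 : St :=
  [([612,420,216], [0,8,24,40]), ([24], [0,9,24,40]), ([108], [0,8,16,40]), ([36], [0,16,17,40]),
   ([36], [8,9,16,40]), ([36], [0,8,16,49]), ([156], [0,8,24,41]), ([-72], [8,16,17,32]),
   ([36], [0,8,25,40]), ([252], [0,8,24,32]), ([-12], [0,17,24,32]), ([108], [8,9,24,32]),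
   ([36], [0,8,32,33]), ([144], [8,16,24,25]), ([540,300,180], [0,16,24,32]), ([48], [0,16,24,33]),
   ([144], [0,16,25,32]), ([72,72,36], [0,8,16,48])]

/-- State `2 3 1 0`. -/
def s_2_3_1_0 : St :=
  [([216], [8,16,24,40]), ([108], [0,16,32,40]), ([36], [0,16,24,48]), ([24], [0,8,32,48])]

/-- State `2 4 0 0`. -/
def s_2_4_0_0 : St :=
  [([288], [0,16,24,40]), ([144], [0,8,32,40]), ([96], [0,8,24,48])]

/-- State `3 0 0 0`. -/
def s_3_0_0_0 : St :=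
  [([840,1062,624,330,408,120], [0,8,17,24]), ([126,90,48], [0,9,17,24]),
   ([120,84,48], [0,8,18,24]), ([12], [0,9,18,24]), ([414,234,144], [0,8,17,25]),
   ([36], [0,9,17,25]), ([36], [0,8,18,25]), ([396,216,144], [0,8,16,26]), ([36], [0,9,16,26]),
   ([36], [0,8,16,27]), ([1356,1548,972,444,576,180], [0,8,16,25]), ([198,126,72], [0,9,16,25]),
   ([72], [0,8,17,26]), ([2100,3900,2340,2400,3000,900,492,960,600,120], [0,8,16,24]),
   ([390,540,300,186,216,60], [0,9,16,24]), ([-24,-24], [0,8,16,17]), ([-6,-6], [0,8,9,24])]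

/-- State `3 0 0 1`. -/
def s_3_0_0_1 : St :=
  [([-18,-18,0], [8,16,24,25]), ([-6,-6,0], [8,16,17,32])]

/-- State `3 0 1 0`. -/
def s_3_0_1_0 : St :=
  [([132,96,48], [0,8,16,32]), ([390,540,300,186,216,60], [0,8,24,32]), ([36], [8,16,17,25]),
   ([210,102,72], [8,16,17,24]), ([198,126,72], [0,8,24,33]), ([36], [0,8,24,34]),
   ([-18,-18,0], [0,16,24,25]), ([36], [8,16,18,24]), ([36], [0,8,16,24]), ([36], [8,9,16,24]),
   ([36], [0,8,16,33]), ([36], [8,9,16,33]), ([36], [0,8,25,33]), ([12], [0,8,17,32]),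
   ([12], [8,9,17,32]), ([12], [0,8,26,32]), ([-6,-6,0], [0,16,17,32]), ([126,90,48], [8,9,16,32]),
   ([126,90,48], [0,8,25,32])]

/-- State `3 0 1 1`. -/
def s_3_0_1_1 : St :=
  [([6,6,0], [8,16,24,40])]

/-- State `3 0 2 0`. -/
def s_3_0_2_0 : St :=
  [([132,96,48], [0,16,24,40]), ([12,48,0], [8,16,24,32]), ([12], [0,16,25,40]),
   ([36], [8,16,25,32]), ([-24], [8,16,17,40]), ([72], [0,16,24,32]), ([36], [0,16,24,41]),
   ([-36], [9,16,24,32])]

/-- State `3 0 3 0`. -/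
def s_3_0_3_0 : St :=
  [([36], [0,24,32,40]), ([36], [8,16,24,48])]

/-- State `3 1 0 0`. -/
def s_3_1_0_0 : St :=
  [([840,480,264], [0,8,16,24]), ([1356,1692,972,516,624,180], [0,8,16,32]), ([144], [0,8,16,25]),
   ([36], [0,16,17,25]), ([108], [0,8,16,34]), ([210,102,72], [0,16,17,24]),
   ([360,216,120], [8,9,16,24]), ([648,360,216], [0,8,16,33]), ([54,18,24], [0,8,24,25]),
   ([24], [0,8,24,26]), ([72], [8,9,16,25]), ([84], [0,8,17,24]), ([36], [0,16,18,24]),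
   ([72], [0,8,17,33]), ([36], [0,9,16,24]), ([48], [8,9,17,24]), ([36], [0,9,16,33]),
   ([258,174,96], [0,8,17,32]), ([12], [0,9,17,32]), ([12], [0,8,18,32]), ([126,90,48], [0,9,16,32])]

/-- State `3 1 0 1`. -/
def s_3_1_0_1 : St :=
  [([24,24,0], [8,16,24,32])]

/-- State `3 1 1 0`. -/
def s_3_1_1_0 : St :=
  [([126,90,48], [0,8,24,40]), ([-24], [8,16,17,32]), ([12], [0,8,16,40]), ([12], [8,9,16,40]),
   ([12], [0,8,25,40]), ([72], [0,8,24,32]), ([36], [8,9,24,32]), ([36], [0,8,24,41]),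
   ([-72], [8,16,24,25]), ([48], [0,16,25,32]), ([384,240,120], [0,16,24,32]), ([72], [0,16,24,33])]

/-- State `3 1 2 0`. -/
def s_3_1_2_0 : St :=
  [([72], [8,16,24,40]), ([36], [0,16,32,40]), ([12], [0,16,24,48])]

/-- State `3 2 0 0`. -/
def s_3_2_0_0 : St :=
  [([396,264,144], [0,8,16,40]), ([756,432,240], [0,8,24,32]), ([24], [0,8,17,40]),
   ([72], [0,16,17,32]), ([12], [0,9,16,40]), ([240], [0,8,16,32]), ([96], [8,9,16,32]),
   ([60], [0,8,25,32]), ([36], [0,9,24,32]), ([108], [0,8,16,41]), ([144], [0,8,24,33]),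
   ([-96], [8,16,17,24]), ([-48], [0,16,24,25])]

/-- State `3 2 1 0`. -/
def s_3_2_1_0 : St :=
  [([180], [8,16,24,32]), ([96], [0,16,24,40]), ([36], [0,8,32,40]), ([12], [0,8,24,48])]

/-- State `3 3 0 0`. -/
def s_3_3_0_0 : St :=
  [([180], [0,16,24,32]), ([216], [0,8,24,40]), ([36], [0,8,16,48])]

/-- State `4 0 0 0`. -/
def s_4_0_0_0 : St :=
  [([3360,3600,2160,960,1200,360], [0,8,16,24]), ([1152,576,360], [0,8,16,25]),
   ([144], [0,8,17,25]), ([144], [0,8,16,26]), ([360,216,120], [0,9,16,24]), ([72], [0,9,16,25]),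
   ([744,408,240], [0,8,17,24]), ([48], [0,8,18,24]), ([48], [0,9,17,24])]

/-- State `4 0 1 0`. -/
def s_4_0_1_0 : St :=
  [([48], [0,8,16,32]), ([48], [8,9,16,32]), ([48], [0,8,25,32]), ([72], [8,16,17,24]),
   ([72], [0,8,24,33]), ([360,216,120], [0,8,24,32])]

/-- State `4 0 2 0`. -/
def s_4_0_2_0 : St :=
  [([48], [0,16,24,40])]

/-- State `4 1 0 0`. -/
def s_4_1_0_0 : St :=
  [([1152,624,360], [0,8,16,32]), ([48], [0,9,16,32]), ([96], [0,8,17,32]), ([264], [0,8,16,24]),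
   ([72], [0,16,17,24]), ([120], [8,9,16,24]), ([24], [0,8,24,25]), ([216], [0,8,16,33])]

/-- State `4 1 1 0`. -/
def s_4_1_1_0 : St :=
  [([120], [0,16,24,32]), ([48], [0,8,24,40])]

/-- State `4 2 0 0`. -/
def s_4_2_0_0 : St :=
  [([240], [0,8,24,32]), ([144], [0,8,16,40])]

/-- State `5 0 0 0`. -/
def s_5_0_0_0 : St :=
  [([2520,1200,720], [0,8,16,24]), ([120], [0,9,16,24]), ([240], [0,8,17,24]), ([360], [0,8,16,25])]

/-- State `5 0 1 0`. -/
def s_5_0_1_0 : St :=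
  [([120], [0,8,24,32])]

/-- State `5 1 0 0`. -/
def s_5_1_0_0 : St :=
  [([360], [0,8,16,32])]

/-- State `6 0 0 0`. -/
def s_6_0_0_0 : St :=
  [([720], [0,8,16,24])]

end Pool.Agent.H52.O4
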